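import Pool.Agent.Lib.MP_1ae3da_al.E.Df

/-! Units and square roots in a complete lattice. -/

namespace Pool.Agent.Lib.MP_1ae3da_al.CT.Z

variable {F A N : Type} [Field F] [CharZero F] [Ring A] [Algebra F A] [Group N]
  {p : ℕ} {Λ : AddSubgroup A} {T : Subgroup N} {b : N → A}

omit [CharZero F] in
theorem eUn_mem (h1 : (1 : A) ∈ Λ) {x : A} (hx : x - 1 ∈ Lk F p 1 Λ) : x ∈ Λ := by
  simpa using add_mem (Lk_le hx) h1

omit [CharZero F] in
theorem eUn_pow (h : Ltt F p Λ) (h1 : (1 : A) ∈ Λ) {e : A} (he : e ∈ Lk F p 1 Λ) (k : ℕ) :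
    e ^ k ∈ Lk F p k Λ := by
  induction k with
  | zero => rw [pow_zero, Lk_zero]; exact h1
  | succ k ih => rw [pow_succ]; exact h.mul_Lk ih he

theorem Ltt.unit (h : Ltt F p Λ) (h1 : (1 : A) ∈ Λ) {x : A} (hx : x - 1 ∈ Lk F p 1 Λ) :
    ∃ v : Aˣ, (v : A) = x ∧ (↑v⁻¹ : A) - 1 ∈ Lk F p 1 Λ := by
  have he : 1 - x ∈ Lk F p 1 Λ := by simpa using neg_mem hx
  have hp := eUn_pow h h1 he
  have hm := eUn_mem h1 hx
  obtain ⟨y, hy⟩ := h.cpl (fun k => ∑ i ∈ Finset.range k, (1 - x) ^ i) fun k => by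
    rw [Finset.sum_range_succ, add_sub_cancel_left]; exact hp k
  have k1 : x * y = 1 := sub_eq_zero.1 <| h.sep _ fun k => by
    have e := mul_neg_geom_sum (1 - x) k
    rw [sub_sub_cancel] at e
    have := sub_mem (h.mul_left hm (hy k)) (hp k)
    rwa [mul_sub, e, sub_sub, sub_add_cancel] at this
  have k2 : y * x = 1 := sub_eq_zero.1 <| h.sep _ fun k => by
    have e := geom_sum_mul_neg (1 - x) k
    rw [sub_sub_cancel] at e
    have := sub_mem (h.mul_right (hy k) hm) (hp k)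
    rwa [sub_mul, e, sub_sub, sub_add_cancel] at this
  exact ⟨⟨x, y, k1, k2⟩, rfl, by simpa using hy 1⟩

/-- the successive approximations of the square root. -/
noncomputable def eUn_s (F : Type) {A : Type} [Field F] [Ring A] [Algebra F A] (z : A) : ℕ → A
  | 0 => 1
  | k + 1 => eUn_s F z k - ((2 : ℕ) : F)⁻¹ • (eUn_s F z k * eUn_s F z k - z)

theorem eUn_step {s z : A} (hc : Commute s z) :
    (s - ((2 : ℕ) : F)⁻¹ • (s * s - z)) * (s - ((2 : ℕ) : F)⁻¹ • (s * s - z)) - z =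
      (1 - s) * (s * s - z) + ((2 : ℕ) : F)⁻¹ • ((2 : ℕ) : F)⁻¹ • ((s * s - z) * (s * s - z)) := by
  have k : (s * s - z) * s = s * (s * s - z) :=
    (((Commute.refl s).mul_left (Commute.refl s)).sub_left hc.symm).eq
  have e : s * s = (s * s - z) + z := (sub_add_cancel _ _).symm
  generalize s * s - z = d at k e ⊢
  have c : ((2 : ℕ) : F)⁻¹ • (s * d) + ((2 : ℕ) : F)⁻¹ • (s * d) = s * d := by
    rw [← add_smul, ← two_mul, Nat.cast_ofNat, mul_inv_cancel₀ two_ne_zero, one_smul]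
  rw [sub_mul, mul_sub, mul_sub, smul_mul_assoc, smul_mul_assoc, mul_smul_comm, mul_smul_comm, k, e,
    sub_mul, one_mul]
  generalize ((2 : ℕ) : F)⁻¹ • ((2 : ℕ) : F)⁻¹ • (d * d) = w
  generalize ((2 : ℕ) : F)⁻¹ • (s * d) = u at c ⊢
  rw [← c]
  abel

theorem eUn_inv (h : Ltt F p Λ) (h2 : ¬ p ∣ 2) {z : A} (hz : z - 1 ∈ Lk F p 1 Λ) (k : ℕ) :
    Commute (eUn_s F z k) z ∧ eUn_s F z k - 1 ∈ Lk F p 1 Λ ∧
      eUn_s F z k * eUn_s F z k - z ∈ Lk F p (k + 1) Λ := by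
  induction k with
  | zero => exact ⟨Commute.one_left z, by simp [eUn_s], by simpa [eUn_s] using neg_mem hz⟩
  | succ k ih =>
    obtain ⟨a1, a2, a3⟩ := ih
    rw [eUn_s]
    refine ⟨a1.sub_left (((a1.mul_left a1).sub_left (Commute.refl z)).smul_left _), ?_, ?_⟩
    · rw [sub_right_comm]
      exact sub_mem a2 (h.inv_Lk h2 (Lk_anti (by omega) a3))
    · rw [eUn_step a1]
      have a4 : 1 - eUn_s F z k ∈ Lk F p 1 Λ := by simpa using neg_mem a2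
      exact add_mem (Lk_anti (by omega) (h.mul_Lk a4 a3))
        (h.inv_Lk h2 (h.inv_Lk h2 (Lk_anti (by omega) (h.mul_Lk a3 a3))))

theorem Ltt.sqrt (h : Ltt F p Λ) (h1 : (1 : A) ∈ Λ) (h2 : ¬ p ∣ 2) {z : A}
    (hz : z - 1 ∈ Lk F p 1 Λ) : ∃ s, s - 1 ∈ Lk F p 1 Λ ∧ s * s = z ∧
      ∀ (σ : RingAut F) (γ : RingAut A), SL F σ γ → (∀ y ∈ Λ, γ y ∈ Λ) → γ z = z → γ s = s := by
  have hi := eUn_inv h h2 hz
  obtain ⟨y, hy⟩ := h.cpl (eUn_s F z) fun k => by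
    rw [eUn_s, sub_sub_cancel_left]
    exact neg_mem (h.inv_Lk h2 (Lk_anti (by omega) (hi k).2.2))
  have y1 : y - 1 ∈ Lk F p 1 Λ := by simpa using add_mem (hy 1) (hi 1).2.1
  refine ⟨y, y1, sub_eq_zero.1 <| h.sep _ fun k => ?_, fun σ γ g1 g2 g3 => ?_⟩
  · have := add_mem (add_mem (h.mul_right (hy k) (eUn_mem h1 y1))
      (h.mul_left (eUn_mem h1 (hi k).2.1) (hy k))) (Lk_anti (Nat.le_succ k) (hi k).2.2)
    rwa [sub_mul, mul_sub, sub_add_sub_cancel, sub_add_sub_cancel] at this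
  · have f : ∀ k, γ (eUn_s F z k) = eUn_s F z k := fun k => by
      induction k with
      | zero => exact map_one γ
      | succ k ih => rw [eUn_s, map_sub, g1, map_sub, map_mul, ih, g3, map_inv₀, map_natCast]
    refine sub_eq_zero.1 <| h.sep _ fun k => ?_
    have := sub_mem (map_Lk g1 g2 (hy k)) (hy k)
    rwa [map_sub, f, sub_sub_sub_cancel_right] at this

theorem Bs.unit (h : Bs F p Λ T b) (x : N) :
    ∃ v : Aˣ, (v : A) = b x ∧ (↑v⁻¹ : A) ∈ Λ := by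
  have h1 : (1 : A) ∈ Λ := h.one ▸ h.ap.mem 1
  have a1 := h.ap.df x x⁻¹
  have a2 := h.ap.df x⁻¹ x
  rw [mul_inv_cancel, h.one] at a1
  rw [inv_mul_cancel, h.one] at a2
  obtain ⟨v, v1, v2⟩ := h.lt.unit h1 a1
  obtain ⟨u, u1, -⟩ := h.lt.unit h1 a2
  have k1 : b x * (b x⁻¹ * ↑v⁻¹) = 1 := by rw [← mul_assoc, ← v1, Units.mul_inv]
  have k2 : (↑u⁻¹ * b x⁻¹) * b x = 1 := by rw [mul_assoc, ← u1, Units.inv_mul]
  have k3 := left_inv_eq_right_inv k2 k1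
  exact ⟨⟨b x, b x⁻¹ * ↑v⁻¹, k1, k3 ▸ k2⟩, rfl, h.lt.mul _ (h.ap.mem _) _ (eUn_mem h1 v2)⟩

end Pool.Agent.Lib.MP_1ae3da_al.CT.Z
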