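import Pool.Agent.Lib.MP_1ae3da_al.A.Ta

/-! A parabolic subgroup of type `A` and of index prime to `p`: definitions. -/

namespace Pool.Agent.Lib.MP_1ae3da_al

namespace CT.A

/-- rational numbers whose denominator is prime to `p`. -/
def Iz (F : Type) [Field F] (p : ℕ) (c : F) : Prop := ∃ (a : ℤ) (b : ℕ), ¬ p ∣ b ∧ c * b = a

/-- a ring of functions on the spectrum `S`. -/
structure Fr {F L : Type} [Field F] (p : ℕ) (S : Finset L) (R : Subring (L → F)) : Prop where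
  ext : ∀ f g, g ∈ R → (∀ l ∈ S, f l = g l) → f ∈ R
  cst : ∀ c, Iz F p c → (fun _ => c) ∈ R
  val : ∀ f ∈ R, ∀ l ∈ S, Iz F p (f l)
  bd : ∃ M : ℕ, ∀ f : L → F, (∀ l ∈ S, Iz F p (f l)) → (fun l => (p : F) ^ M * f l) ∈ R

/-- polynomial functions with `p`-integral coefficients. -/
def PF (F : Type) [Field F] (p : ℕ) : Subring (ℤ → F) :=
  Subring.closure ({f | ∃ c, Iz F p c ∧ f = fun _ => c} ∪ {fun c : ℤ => (c : F)})

end CT.A

namespace CT.Z
variable (F : Type) {A N : Type} [Field F] [Ring A] [Algebra F A] [Group N]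

/-- `b` is multiplicative modulo `p` and exact on the torus. -/
structure Bs (p : ℕ) (Λ : AddSubgroup A) (T : Subgroup N) (b : N → A) : Prop where
  prime : p.Prime
  lt : Ltt F p Λ
  ap : Ap F p 1 Λ T b
  one : b 1 = 1
  nrm : T.Normal

/-- a semilinear map that keeps the lattice and permutes the `b x` by `δ`. -/
def Sy (Λ : AddSubgroup A) (b : N → A) (σ : RingAut F) (γ : RingAut A) (δ : MulAut N) : Prop :=
  SL F σ γ ∧ (∀ y ∈ Λ, γ y ∈ Λ) ∧ ∀ x, γ (b x) = b (δ x)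

variable {F} in
/-- the lattice with the unit. -/
noncomputable def Lb {X : Type} [Group X] (O : Subring F) (U D : Subgroup X) :
    AddSubgroup (MonoidAlgebra F X) := (Submodule.span O (insert 1 (LaS F U D))).toAddSubgroup

end CT.Z

namespace JM
open SLI CT.A

/-- a Tits system with a parabolic subgroup `M` of type `A j` and of index prime to `p`. -/
structure TE {r : ℕ} {X : Type} [Group X] (p k j : ℕ) (U : Sylow r X) (N M : Subgroup X)
    (n : ℕ → X) (w : X) : Prop where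
  v : BV p U N
  ts : TS k U N n
  jp : j + 1 = p
  jk : j ≤ k
  le : M ≤ N
  wa : WA j M (Tor U N) n
  one : ∀ i, i < j → ∀ u ∈ U, n i * u * (n i)⁻¹ ∈ U ∨
    ∃ s ∈ Tor U N, ∃ v ∈ U, ∃ w ∈ U, n i * u * (n i)⁻¹ = v * (s * n i * s⁻¹) * w
  idx : ¬ p ∣ M.relIndex N
  wN : w ∈ N
  ww : w * w ∈ Tor U N
  wp : ∀ i, i < k → ∃ i', i' < k ∧ w * n i * w⁻¹ * (n i')⁻¹ ∈ Tor U N
  rig : ∀ f : ℕ → ℕ, (∀ i, i < k → f i < k) → (∀ i i' m, i < k → i' < k →
    ((n (f i) * n (f i')) ^ m ∈ Tor U N ↔ (n i * n i') ^ m ∈ Tor U N)) →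
    (∀ i, i < k → f i = i) ∨ ∀ i, i < k → w * n (f i) * w⁻¹ * (n i)⁻¹ ∈ Tor U N

end JM

end Pool.Agent.Lib.MP_1ae3da_al
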