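import Pool.Agent.Lib.MP_1ae3da_al.E.Df

/-! The idempotent of the coroot subgroup lies in the lattice. -/

namespace Pool.Agent.Lib.MP_1ae3da_al.JM

open SLI CT CT.Z CT.A

variable {p r : ℕ} {X : Type} [Group X] [Finite X] [hp : Fact p.Prime] [hr : Fact r.Prime]
  {U : Sylow r X} {N : Subgroup X} {F κ : Type} [Field F] [CharZero F] [Field κ]
  {O R : Subring F} {ρ : F → κ} {GG : Subgroup (RingAut F)}

/-- the idempotent of a subgroup of the torus, cut down to the corner. -/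
theorem eLg_av (h : BV p U N) (hP : PM p O R ρ GG) {E : Subgroup X} (hE : E ≤ Tor U N) :
    av F E * av F (U : Subgroup X) ∈ La O (U : Subgroup X) h.D := by
  obtain ⟨a, m, hm, e⟩ :=
    Nat.exists_eq_pow_mul_and_not_dvd (Nat.card_pos (α := X)).ne' p hp.out.ne_one
  let E' : Subgroup X :=
    { carrier := {x | x ∈ E ∧ x ^ m = 1}
      one_mem' := ⟨one_mem _, one_pow _⟩
      inv_mem' := fun ⟨h1, h2⟩ => ⟨inv_mem h1, by rw [inv_pow, h2, inv_one]⟩
      mul_mem' := fun {x y} ⟨h1, h2⟩ ⟨k1, k2⟩ => ⟨mul_mem h1 k1, by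
        rw [(show Commute x y from h.ab _ (hE h1) _ (hE k1)).mul_pow, h2, k2, mul_one]⟩ }
  have hc : ¬ p ∣ Nat.card E' := fun hd => by
    obtain ⟨x, hx⟩ := exists_prime_orderOf_dvd_card' (G := E') p hd
    exact hm (hx ▸ orderOf_dvd_of_pow_eq_one (Subtype.ext x.2.2))
  have hs : (E ⊓ h.D) ⊔ E' = E := by
    refine le_antisymm (sup_le inf_le_left fun x hx => hx.1) fun x hx => ?_
    have hco : Nat.Coprime (p ^ a) m := ((Nat.Prime.coprime_iff_not_dvd hp.out).2 hm).pow_left a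
    have hb := Nat.gcd_eq_gcd_ab (p ^ a) m
    rw [hco.gcd_eq_one, Nat.cast_one] at hb
    have h1 : x ^ m ∈ E ⊓ h.D := ⟨pow_mem hx _, hE (pow_mem hx _), a, by
      rw [← pow_mul, mul_comm, ← e, pow_card_eq_one']⟩
    have h2 : x ^ p ^ a ∈ E' := ⟨pow_mem hx _, by rw [← pow_mul, ← e, pow_card_eq_one']⟩
    have h3 : x = (x ^ p ^ a) ^ (p ^ a).gcdA m * (x ^ m) ^ (p ^ a).gcdB m := by
      rw [← zpow_natCast, ← zpow_natCast, ← zpow_mul, ← zpow_mul, ← zpow_add, ← hb, zpow_one]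
    rw [h3]
    exact mul_mem (Subgroup.mem_sup_right (zpow_mem h2 _)) (Subgroup.mem_sup_left (zpow_mem h1 _))
  have h4 : av F E = av F (E ⊓ h.D) * av F E' := by
    rw [av_sup (E := E ⊓ h.D) (E' := E') fun x hx y hy => h.ab _ (hE hx.1) _ (hE hy.1), hs]
  rw [h4, mul_assoc]
  refine av_La h.pg inf_le_right ?_
  have _ := Fintype.ofFinite E'
  rw [zAv_def (E := E'), smul_mul_assoc, Finset.sum_mul]
  refine Submodule.smul_mem (Submodule.span O (LaS F (U : Subgroup X) h.D))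
    (⟨_, hP.inv _ hc⟩ : O) (sum_mem fun x _ => ?_)
  rw [← an_nrm (hE x.2.1).2]
  exact an_La (h.N_le (hE x.2.1).1)

theorem BV.g4e_lb (h : BV p U N) (hP : PM p O R ρ GG) {g : X} (hg : g ∈ N) :
    g4e U N F g ∈ Lb O (U : Subgroup X) h.D := by
  have _ := Fintype.ofFinite (Tor U N)
  let φ : Tor U N →* X := MonoidHom.mk' (fun s => g * s * g⁻¹ * (s : X)⁻¹) fun a b => by
    rw [mul_assoc (g * a * g⁻¹) _ (_ * _), h.ab _ (inv_mem a.2) _ (g4b_ph h hg b.2),
      Subgroup.coe_mul]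
    group
  have hφ : φ.range ≤ Tor U N := by
    rintro _ ⟨s, rfl⟩
    exact g4b_ph h hg s.2
  have c0 : (Nat.card (Tor U N) : F) ≠ 0 := Nat.cast_ne_zero.2 Nat.card_pos.ne'
  have e1 := av_hom (F := F) φ
  rw [finsum_eq_sum_of_fintype] at e1
  have e : g4e U N F g = av F φ.range * av F (U : Subgroup X) + (1 - av F (U : Subgroup X)) := by
    rw [g4e_def]
    change _ • ∑ s : Tor U N, (gu F X (φ s) * av F (U : Subgroup X) + _) = _
    rw [Finset.sum_add_distrib, ← Finset.sum_mul, e1, Finset.sum_const, Finset.card_univ,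
      ← Nat.card_eq_fintype_card, ← Nat.cast_smul_eq_nsmul F, smul_mul_assoc, ← smul_add,
      inv_smul_smul₀ c0]
  have le : ∀ y ∈ La O (U : Subgroup X) h.D, y ∈ Lb O (U : Subgroup X) h.D := fun y hy =>
    Submodule.span_mono (Set.subset_insert _ _) hy
  have h0 := eLg_av h hP (E := ⊥) bot_le
  rw [av_bot, one_mul] at h0
  rw [e]
  exact add_mem (le _ (eLg_av h hP hφ))
    (sub_mem (Submodule.subset_span (Set.mem_insert _ _)) (le _ h0))

end Pool.Agent.Lib.MP_1ae3da_al.JM
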