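import Pool.Agent.Lib.MP_1ae3da_al.E.Lt

/-! From a homomorphism close to the basis to the isomorphism with the corner. -/

namespace Pool.Agent.Lib.MP_1ae3da_al.JM

open SLI CT CT.Z CT.A

variable {p r : ℕ} {X : Type} [Group X] [Finite X] [hp : Fact p.Prime] [hr : Fact r.Prime]
  {U : Sylow r X} {N : Subgroup X} {F κ : Type} [Field F] [CharZero F] [Field κ]
  {O R : Subring F} {ρ : F → κ} {GG : Subgroup (RingAut F)}

omit hp hr [CharZero F] in
theorem eLt2_bas {V D : Subgroup X} (hP : PM p O R ρ GG) (h : Pg p 1 V D)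
    (hN : Subgroup.normalizer (D : Set X) = N) {Θ : N → MonoidAlgebra F X}
    (h1 : ∀ x y, Θ (x * y) = Θ x * Θ y) (h2 : ∀ x, Θ x - an F V x ∈ Lk F p 1 (La O V D))
    (h3 : ∀ t : N, (t : X) ∈ Subgroup.normalizer (V : Set X) → Θ t = gu F X t * av F V) (z) :
    av F V * z * av F V ∈ Submodule.span F (Set.range Θ) := by
  subst hN
  exact (th_bas hP h h1 h2 h3).2 z

omit hp hr in
theorem eLt2_e (V : Subgroup X) (g : X) :
    av F V * g4bn F V g = an F V g ∧ g4bn F V g * av F V = an F V g := by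
  rw [g4bn, mul_add, add_mul, (av_an g).1, (av_an g).2, mul_sub, sub_mul, mul_one, one_mul,
    av_idem, sub_self, add_zero]
  exact ⟨rfl, rfl⟩

/-- from a natural homomorphism that is close to the basis to the isomorphism with the corner. -/
theorem BV.cor_lb (h : BV p U N) (hP : PM p O R ρ GG) (Θ : N →* MonoidAlgebra F X)
    (h1 : ∀ x, Θ x - g4bn F (U : Subgroup X) x ∈ Lk F p 1 (Lb O (U : Subgroup X) h.D))
    (h2 : ∀ t : N, (t : X) ∈ Tor U N → Θ t = g4bn F (U : Subgroup X) t)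
    (h3 : ∀ σ ∈ GG, ∀ γ : RingAut (MonoidAlgebra F X), SL F σ γ → ∀ δ : MulAut X,
      (∀ x, γ (gu F X x) = gu F X (δ x)) → (∀ x, δ x ∈ U ↔ x ∈ U) →
      ∀ hN : ∀ x, δ x ∈ N ↔ x ∈ N, ∀ x, γ (Θ x) = Θ (resA N δ hN x)) :
    ∃ Θ', Cor (Ga GG h.D) N (av F U) Θ' := by
  have cm : ∀ m, av F (U : Subgroup X) * Θ m = Θ m * av F U := fun m => by
    obtain ⟨y, hy, e⟩ := h1 m
    rw [sub_eq_iff_eq_add.1 e, mul_add, add_mul, (eLt2_e _ _).1, (eLt2_e _ _).2, mul_smul_comm,
      smul_mul_assoc, (h.lb_e y hy).1]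
  have m1 : ∀ x y, Θ (x * y) * av F (U : Subgroup X) = Θ x * av F U * (Θ y * av F U) :=
    fun x y => by
      rw [map_mul, mul_assoc (Θ x) (av F _), ← mul_assoc (av F _), cm, mul_assoc (Θ y), av_idem,
        mul_assoc]
  have m2 : ∀ t : N, (t : X) ∈ Tor U N → Θ t * av F (U : Subgroup X) = gu F X t * av F U :=
    fun t ht => by rw [h2 t ht, (eLt2_e _ _).2, an_nrm ht.2]
  refine h.cor (fun m => Θ m * av F (U : Subgroup X)) (fun x y => by exact m1 x y)
    (fun t ht => by exact m2 t ht) (fun m _ => ?_) ?_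
  · have m3 : ∀ x : N, Θ x * av F (U : Subgroup X) - an F (U : Subgroup X) x ∈
        Lk F p 1 (La O (U : Subgroup X) h.D) := fun x => by
      obtain ⟨y, hy, e⟩ := h1 x
      exact ⟨y * av F (U : Subgroup X), (h.lb_e y hy).2, by
        rw [sub_eq_iff_eq_add.1 e, add_mul, (eLt2_e _ _).2, smul_mul_assoc, add_sub_cancel_right]⟩
    rw [an]
    exact eLt2_bas (Θ := fun m => Θ m * av F (U : Subgroup X)) hP h.pg h.norm_eq
      (fun x y => by exact m1 x y) (fun x => by exact m3 x)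
      (fun t ht => by exact m2 t ⟨t.2, ht⟩) (gu F X m)
  · intro σ hσ γ hγ δ hδ hU hN x y e
    obtain ⟨n1, -, -⟩ := nat_gen hγ hδ hU
    have : y = resA N δ hN x := Subtype.ext e
    rw [map_mul, h3 σ hσ γ hγ δ hδ hU hN x, this, n1]

end Pool.Agent.Lib.MP_1ae3da_al.JM
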