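import Pool.Agent.Lib.MP_1ae3da_al.E.Ln

/-! Conjugation of the basis of the corner. -/

namespace Pool.Agent.Lib.MP_1ae3da_al.JM

open SLI CT CT.Z

variable {p r k : ℕ} {X : Type} [Group X] [Finite X] [hp : Fact p.Prime] [hr : Fact r.Prime]
  {U : Sylow r X} {N : Subgroup X} {n : ℕ → X} {F : Type} [Field F] [CharZero F]

theorem eTq_bn {V : Subgroup X} {g m : X} (h : AA V g m) :
    g4bn F V g * g4bn F V m = g4bn F V (g * m) := by
  rw [g4bn, g4bn, g4bn, g4b_mul (av_an g).2 (av_an m).1, aa_an h]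

omit [Finite X] hp hr in
theorem eTq_tl {g m s : X} (h : AA (U : Subgroup X) g m) (hs : s ∈ Tor U N) :
    AA (U : Subgroup X) (s * g) m := fun u hu => by
  have := DC.tl (h u hu) hs
  rwa [← mul_assoc, ← mul_assoc, ← mul_assoc] at this

omit [Finite X] hp hr in
theorem eTq_T {g s : X} (hs : s ∈ Tor U N) : AA (U : Subgroup X) s g := fun u hu =>
  ⟨_, T_cj hs hu, 1, one_mem _, by group⟩

omit [Finite X] hp hr in
theorem eTq_r {g m : X} (hg : g * g ∈ Tor U N) (h : AA (U : Subgroup X) g m⁻¹) :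
    AA (U : Subgroup X) m g := fun u hu => by
  have := (DC.inv (h u⁻¹ (inv_mem hu))).tr hg
  have e1 : (g * u⁻¹ * m⁻¹)⁻¹ * (g * g) = m * u * g := by group
  have e2 : (g * m⁻¹)⁻¹ * (g * g) = m * g := by group
  rwa [e1, e2] at this

theorem TS.bn_sw (h : BV p U N) (t : TS k U N n) {i i' : ℕ} (hi : i < k) (hi' : i' < k) {w : X}
    (hw : w ∈ N) (e : w * n i * w⁻¹ * (n i')⁻¹ ∈ Tor U N) :
    g4bn F (U : Subgroup X) w * g4bn F U (n i) = g4bn F U (w * n i * w⁻¹) * g4bn F U w := by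
  obtain ⟨l, l1, l2, l3, -⟩ := t.len h
  have hn := t.mem i hi
  have hn' := t.mem i' hi'
  have hq := t.sq i hi
  have up : ∀ x ∈ N, x * n i * x⁻¹ = w * n i * w⁻¹ → l x < l (x * n i) →
      g4bn F (U : Subgroup X) x * g4bn F U (n i) = g4bn F U (x * n i) ∧
      g4bn F U (w * n i * w⁻¹) * g4bn F U x = g4bn F U (x * n i) := by
    intro x hx ex hl
    constructor
    · refine eTq_bn (eTq_r hq ((l3 i hi _ (inv_mem hx)).2.2 ?_))
      have e1 : n i * x⁻¹ = n i * n i * (x * n i)⁻¹ := by group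
      rwa [e1, l2 _ (inv_mem (mul_mem hx hn)) _ hq, l1 _ hx, l1 _ (mul_mem hx hn)]
    · have e1 : n i' * x = (w * n i * w⁻¹ * (n i')⁻¹)⁻¹ * (x * n i) := by rw [← ex]; group
      have a := eTq_tl ((l3 i' hi' _ hx).2.2 (by
        rwa [e1, l2 _ (mul_mem hx hn) _ (inv_mem e)])) e
      rw [inv_mul_cancel_right] at a
      rw [eTq_bn a, ← ex, inv_mul_cancel_right]
  rcases lt_or_ge (l w) (l (w * n i)) with hl | hl
  · obtain ⟨a, b⟩ := up w hw rfl hl
    rw [a, b]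
  · have hx := mul_mem hw (inv_mem hn)
    have e1 : l (w * (n i)⁻¹) = l (w * n i) := by
      have e2 : w * (n i)⁻¹ = w * (n i * n i)⁻¹ * w⁻¹ * (w * n i) := by group
      rw [e2, l2 _ (mul_mem hw hn) _ ((h.T_conj hw).mpr (inv_mem hq))]
    have e3 : l (w * (n i)⁻¹) ≠ l w := by
      have := (l3 i hi _ (inv_mem hw)).1
      rwa [l1 _ hw, ← l1 _ (mul_mem hn (inv_mem hw)), mul_inv_rev, inv_inv] at this
    obtain ⟨a, b⟩ := up _ hx (by group) (by rw [inv_mul_cancel_right]; omega)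
    rw [inv_mul_cancel_right] at a b
    calc _ = g4bn F U (w * n i * w⁻¹) * g4bn F U (w * (n i)⁻¹) * g4bn F U (n i) := by rw [b]
      _ = _ := by rw [mul_assoc, a]

theorem TS.bn_cj (h : BV p U N) (t : TS k U N n) {w : X} (hw : w ∈ N)
    (e : ∀ i, i < k → ∃ i', i' < k ∧ w * n i * w⁻¹ * (n i')⁻¹ ∈ Tor U N) : ∀ x ∈ N,
    g4bn F (U : Subgroup X) w * g4bn F U x = g4bn F U (w * x * w⁻¹) * g4bn F U w := by
  obtain ⟨l, -, l2, l3, l4⟩ := t.len h
  refine t.red h _ (fun s hs => ?_) fun i hi m hm a ih => ?_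
  · rw [eTq_bn (aa_T hs), eTq_bn (eTq_T ((h.T_conj hw).mpr hs)), inv_mul_cancel_right]
  · obtain ⟨i', hi', e'⟩ := e i hi
    have hn := t.mem i hi
    have hc := mul_mem (mul_mem hw hm) (inv_mem hw)
    have e1 : n i' * (w * m * w⁻¹) =
        (w * n i * w⁻¹ * (n i')⁻¹)⁻¹ * (w * (n i * m) * w⁻¹) := by group
    have b := eTq_tl ((l3 i' hi' _ hc).2.2 (by
      rw [e1, l2 _ (mul_mem (mul_mem hw (mul_mem hn hm)) (inv_mem hw)) _ (inv_mem e'),
        l4 w hw e _ hm, l4 w hw e _ (mul_mem hn hm)]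
      exact (l3 i hi _ hm).2.1 a)) e'
    rw [inv_mul_cancel_right] at b
    rw [← eTq_bn a, ← mul_assoc, t.bn_sw h hi hi' hw e', mul_assoc, ih, ← mul_assoc, eTq_bn b]
    congr 2
    group

omit [Finite X] hp hr in
theorem eTq_mul (h : BV p U N) {a b c d : X} (ha : a ∈ N) (h1 : a * b⁻¹ ∈ Tor U N)
    (h2 : c * d⁻¹ ∈ Tor U N) : a * c * (b * d)⁻¹ ∈ Tor U N := by
  have := mul_mem ((h.T_conj ha).mpr h2) h1
  convert this using 1
  group

omit [Finite X] hp hr in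
theorem eTq_pow (h : BV p U N) {a b : X} (ha : a ∈ N) (h1 : a * b⁻¹ ∈ Tor U N) (m : ℕ) :
    a ^ m * (b ^ m)⁻¹ ∈ Tor U N := by
  induction m with
  | zero => simp
  | succ m ih =>
    rw [pow_succ', pow_succ']
    exact eTq_mul h ha h1 ih

theorem eTq_all (h : BV p U N) (t : TS k U N n) (φ : MulAut X) (hN : ∀ x ∈ N, φ x ∈ N)
    (hT : ∀ x ∈ Tor U N, φ x ∈ Tor U N) (e : ∀ i, i < k → φ (n i) * (n i)⁻¹ ∈ Tor U N) :
    ∀ x ∈ N, φ x * x⁻¹ ∈ Tor U N := by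
  refine t.red h _ (fun s hs => mul_mem (hT s hs) (inv_mem hs)) fun i hi m _ _ ih => ?_
  rw [map_mul]
  exact eTq_mul h (hN _ (t.mem i hi)) (e i hi) ih

/-- every automorphism acts on `N / T` trivially or like `w`. -/
theorem TE.rigid {j : ℕ} {M : Subgroup X} {w : X} (h : TE p k j U N M n w) (δ : MulAut X)
    (hU : ∀ x, δ x ∈ U ↔ x ∈ U) (hN : ∀ x, δ x ∈ N ↔ x ∈ N) :
    (∀ x ∈ N, δ x * x⁻¹ ∈ Tor U N) ∨ ∀ x ∈ N, w * δ x * w⁻¹ * x⁻¹ ∈ Tor U N := by
  have hT := map_T δ hU hN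
  choose! f f1 f2 using fun i (hi : i < k) => h.ts.perm h.v δ hU hN hi
  have hr' := h.rig f f1 fun i i' m hi hi' => by
    have a := eTq_pow h.v (mul_mem ((hN _).2 (h.ts.mem i hi)) ((hN _).2 (h.ts.mem i' hi')))
      (eTq_mul h.v ((hN _).2 (h.ts.mem i hi)) (f2 i hi) (f2 i' hi')) m
    rw [← map_mul, ← map_pow] at a
    rw [← hT ((n i * n i') ^ m), ← inv_mem_iff]
    refine ⟨fun b => ?_, fun b => (mul_mem_cancel_left b).1 a⟩
    exact (mul_mem_cancel_right b).1 a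
  rcases hr' with a | a
  · refine Or.inl (eTq_all h.v h.ts δ (fun x hx => (hN x).2 hx) (fun x hx => (hT x).2 hx)
      fun i hi => ?_)
    have := f2 i hi
    rwa [a i hi] at this
  · refine Or.inr (eTq_all h.v h.ts (MulAut.conj w * δ)
      (fun x hx => mul_mem (mul_mem h.wN ((hN x).2 hx)) (inv_mem h.wN))
      (fun x hx => (h.v.T_conj h.wN).mpr ((hT x).2 hx)) fun i hi => ?_)
    have := mul_mem ((h.v.T_conj h.wN).mpr (f2 i hi)) (a i hi)
    show w * δ (n i) * w⁻¹ * (n i)⁻¹ ∈ _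
    convert this using 1
    group

end Pool.Agent.Lib.MP_1ae3da_al.JM
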