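import Pool.Agent.Lib.MP_1ae3da_al.E.Df

/-! Rational numbers with denominator prime to `p`. -/

namespace Pool.Agent.Lib.MP_1ae3da_al.CT.A

variable {F : Type} [Field F] [CharZero F] {p q : ℕ} [hp : Fact p.Prime]

omit [CharZero F] in
theorem eAr_add {a b : F} (h : Iz F p a) (k : Iz F p b) : Iz F p (a + b) := by
  obtain ⟨x, y, h1, h2⟩ := h
  obtain ⟨z, w, k1, k2⟩ := k
  refine ⟨x * w + z * y, y * w, fun e => (hp.out.dvd_mul.1 e).elim h1 k1, ?_⟩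
  push_cast
  rw [← h2, ← k2]
  ring

omit [CharZero F] in
theorem eAr_mul {a b : F} (h : Iz F p a) (k : Iz F p b) : Iz F p (a * b) := by
  obtain ⟨x, y, h1, h2⟩ := h
  obtain ⟨z, w, k1, k2⟩ := k
  refine ⟨x * z, y * w, fun e => (hp.out.dvd_mul.1 e).elim h1 k1, ?_⟩
  push_cast
  rw [← h2, ← k2]
  ring

omit [CharZero F] in
theorem eAr_int (a : ℤ) : Iz F p a := ⟨a, 1, hp.out.not_dvd_one, by simp⟩

theorem Iz.add {a b : F} (h : Iz F p a) (k : Iz F p b) : Iz F p (a + b) := eAr_add h k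

theorem Iz.mul {a b : F} (h : Iz F p a) (k : Iz F p b) : Iz F p (a * b) := eAr_mul h k

theorem iz_int (a : ℤ) : Iz F p a := eAr_int a

theorem iz_inv {b : ℕ} (h : ¬ p ∣ b) : Iz F p (b : F)⁻¹ := by
  have : (b : F) ≠ 0 := Nat.cast_ne_zero.2 fun e => h (e ▸ dvd_zero p)
  exact ⟨1, b, h, by rw [inv_mul_cancel₀ this, Int.cast_one]⟩

theorem eAr_nat (a : ℕ) : Iz F p a := by simpa using iz_int (F := F) (p := p) a

theorem eAr_neg {a : F} (h : Iz F p a) : Iz F p (-a) := by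
  simpa using (iz_int (F := F) (p := p) (-1)).mul h

theorem eAr_zinv {b : ℤ} (h : ¬ (p : ℤ) ∣ b) : Iz F p (b : F)⁻¹ := by
  have k := iz_inv (F := F) (p := p) (b := b.natAbs) fun e => h (Int.natCast_dvd.2 e)
  rcases Int.natAbs_eq b with e | e
  · rw [e, Int.cast_natCast]
    exact k
  · rw [e, Int.cast_neg, Int.cast_natCast, inv_neg]
    exact eAr_neg k

theorem Iz.unit {a : F} (h : Iz F p a) : 1 + p * a ≠ 0 ∧ Iz F p (1 + p * a)⁻¹ := by
  obtain ⟨x, y, h1, h2⟩ := h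
  have nd : ¬ (p : ℤ) ∣ (y : ℤ) + p * x := fun e =>
    h1 (Int.natCast_dvd_natCast.1 ((dvd_add_left (dvd_mul_right _ _)).1 e))
  have n0 : (((y : ℤ) + p * x : ℤ) : F) ≠ 0 := Int.cast_ne_zero.2 fun e => nd (e ▸ dvd_zero _)
  have e : (1 + p * a) * y = (((y : ℤ) + p * x : ℤ) : F) := by
    push_cast
    rw [← h2]
    ring
  have u0 : 1 + p * a ≠ 0 := fun k => n0 (by rw [← e, k, zero_mul])
  refine ⟨u0, ?_⟩
  have e2 : (1 + p * a)⁻¹ = (y : F) * (((y : ℤ) + p * x : ℤ) : F)⁻¹ := by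
    rw [eq_mul_inv_iff_mul_eq₀ n0, ← e, inv_mul_cancel_left₀ u0]
  rw [e2]
  exact (eAr_nat y).mul (eAr_zinv nd)

/-- every rational number becomes integral. -/
theorem iz_rat (c : ℚ) : ∃ M : ℕ, Iz F p ((p : F) ^ M * c) := by
  obtain ⟨M, b, h1, h2⟩ := Nat.exists_eq_pow_mul_and_not_dvd c.den_nz p hp.out.ne_one
  refine ⟨M, c.num, b, h1, ?_⟩
  have e : ((c * c.den : ℚ) : F) = ((c.num : ℚ) : F) := by rw [Rat.mul_den_eq_num]
  rw [h2] at e
  push_cast at e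
  rw [← e]
  ring

end Pool.Agent.Lib.MP_1ae3da_al.CT.A
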