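import Mathlib

/-! The theorem of Kilmoyer from the folding condition. -/

namespace Pool.Agent.Lib.MP_1ae3da_al.CT.E

variable {W : Type} [Group W]

/-- `l` is the length function for the involutions `s i`, `i < k`, and the folding condition
holds. -/
structure Ln (k : ℕ) (s : ℕ → W) (l : W → ℕ) : Prop where
  sq : ∀ i < k, s i * s i = 1
  ex : ∀ w, ∃ L : List ℕ, (∀ i ∈ L, i < k) ∧ (L.map s).prod = w ∧ L.length = l w
  le : ∀ L : List ℕ, (∀ i ∈ L, i < k) → l (L.map s).prod ≤ L.length
  ne : ∀ i < k, ∀ w, l (s i * w) ≠ l w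
  fold : ∀ i < k, ∀ j < k, ∀ w, l w < l (s i * w) → s i * w ≠ w * s j →
    l (w * s j) < l (s i * (w * s j))

variable {k j : ℕ} {s : ℕ → W} {l : W → ℕ}

theorem word_mem (L : List ℕ) (hL : ∀ i ∈ L, i < j) :
    (L.map s).prod ∈ Subgroup.closure (s '' Set.Iio j) :=
  list_prod_mem fun x hx => by
    obtain ⟨i, hi, rfl⟩ := List.mem_map.1 hx
    exact Subgroup.subset_closure ⟨i, hL i hi, rfl⟩

namespace Ln
variable (h : Ln k s l)
include h

theorem inv_s {i : ℕ} (hi : i < k) : (s i)⁻¹ = s i := inv_eq_of_mul_eq_one_left (h.sq i hi)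

theorem rev (L : List ℕ) (hL : ∀ i ∈ L, i < k) :
    (L.reverse.map s).prod = (L.map s).prod⁻¹ := by
  induction L with
  | nil => simp
  | cons a L ih =>
    rw [List.reverse_cons, List.map_append, List.prod_append,
      ih fun i hi => hL i (List.mem_cons_of_mem _ hi)]
    simp [h.inv_s (hL a List.mem_cons_self)]

theorem l_inv (w : W) : l w⁻¹ = l w := by
  have key : ∀ w : W, l w⁻¹ ≤ l w := fun w => by
    obtain ⟨L, h1, rfl, h3⟩ := h.ex w
    rw [← h.rev L h1, ← h3, ← List.length_reverse]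
    exact h.le _ fun i hi => h1 i (List.mem_reverse.1 hi)
  exact le_antisymm (key w) (by simpa using key w⁻¹)

theorem l_one : l 1 = 0 := by simpa using h.le [] (by simp)

theorem l_zero {w : W} (e : l w = 0) : w = 1 := by
  obtain ⟨L, -, rfl, h3⟩ := h.ex w
  rw [List.length_eq_zero_iff.1 (h3.trans e)]
  rfl

theorem l_s {i : ℕ} (hi : i < k) (w : W) : l (s i * w) ≤ l w + 1 := by
  obtain ⟨L, h1, rfl, h3⟩ := h.ex w
  have := h.le (i :: L) (by simpa using ⟨hi, h1⟩)
  rwa [List.map_cons, List.prod_cons, List.length_cons, h3] at this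

theorem l_s' {i : ℕ} (hi : i < k) (w : W) : l w ≤ l (s i * w) + 1 := by
  have := h.l_s hi (s i * w)
  rwa [← mul_assoc, h.sq i hi, one_mul] at this

theorem exch {i : ℕ} (hi : i < k) {w : W} (hw : l w < l (s i * w)) (L : List ℕ)
    (hL : ∀ a ∈ L, a < k) : l (w * (L.map s).prod) < l (s i * (w * (L.map s).prod)) ∨
      ∃ L1 a L2, L = L1 ++ a :: L2 ∧ s i * (w * (L1.map s).prod) = w * (L1.map s).prod * s a := by
  induction L generalizing w with
  | nil => exact Or.inl (by simpa using hw)
  | cons a L ih =>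
    have ha := hL a List.mem_cons_self
    by_cases e : s i * w = w * s a
    · exact Or.inr ⟨[], a, L, rfl, by simpa using e⟩
    · rcases ih (h.fold i hi a ha w hw e) fun b hb => hL b (List.mem_cons_of_mem _ hb) with
        c | ⟨L1, b, L2, rfl, c⟩
      · exact Or.inl (by simpa only [List.map_cons, List.prod_cons, mul_assoc] using c)
      · exact Or.inr ⟨a :: L1, b, L2, rfl, by
          simpa only [List.map_cons, List.prod_cons, mul_assoc] using c⟩

theorem red_w (hj : j ≤ k) (L : List ℕ) (hL : ∀ a ∈ L, a < j) : ∃ L' : List ℕ,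
    (∀ a ∈ L', a < j) ∧ (L'.map s).prod = (L.map s).prod ∧ L'.length = l (L.map s).prod := by
  induction L with
  | nil => exact ⟨[], hL, rfl, h.l_one.symm⟩
  | cons a L ih =>
    have ha := hL a List.mem_cons_self
    have ha' : a < k := by omega
    obtain ⟨L', h1, h2, h3⟩ := ih fun b hb => hL b (List.mem_cons_of_mem _ hb)
    rw [List.map_cons, List.prod_cons, ← h2]
    rw [← h2] at h3
    have u1 := h.l_s ha' (L'.map s).prod
    have u2 := h.l_s' ha' (L'.map s).prod
    rcases h.exch ha' (w := 1) (by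
      have := h.ne a ha' 1
      rw [h.l_one] at this ⊢
      omega) L' fun b hb => (h1 b hb).trans_le hj with c | ⟨L1, b, L2, rfl, c⟩
    · rw [one_mul] at c
      exact ⟨a :: L', by simpa using ⟨ha, h1⟩, rfl, by rw [List.length_cons]; omega⟩
    · have hb : b < k := (h1 b (by simp)).trans_le hj
      have m : ∀ x ∈ L1 ++ L2, x < j := fun x hx => h1 x (by
        rcases List.mem_append.1 hx with hx | hx <;> simp [hx])
      have e : ((L1 ++ L2).map s).prod = s a * ((L1 ++ b :: L2).map s).prod := by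
        simp only [List.map_append, List.prod_append, List.map_cons, List.prod_cons, one_mul] at c ⊢
        rw [← mul_assoc, c, mul_assoc, ← mul_assoc (s b), h.sq b hb, one_mul]
      refine ⟨L1 ++ L2, m, e, ?_⟩
      have := h.le _ fun x hx => (m x hx).trans_le hj
      rw [e] at this
      simp only [List.length_append, List.length_cons] at this h3 ⊢
      omega

theorem red (hj : j ≤ k) {m : W} (hm : m ∈ Subgroup.closure (s '' Set.Iio j)) : ∃ L : List ℕ,
    (∀ a ∈ L, a < j) ∧ (L.map s).prod = m ∧ L.length = l m := by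
  have : ∃ L : List ℕ, (∀ a ∈ L, a < j) ∧ (L.map s).prod = m := by
    induction hm using Subgroup.closure_induction with
    | mem x hx =>
      obtain ⟨i, hi, rfl⟩ := hx
      exact ⟨[i], by simpa using hi, by simp⟩
    | one => exact ⟨[], by simp, rfl⟩
    | mul x y _ _ a b =>
      obtain ⟨L, h1, rfl⟩ := a
      obtain ⟨L', h2, rfl⟩ := b
      exact ⟨L ++ L', fun a ha => (List.mem_append.1 ha).elim (h1 a) (h2 a), by simp⟩
    | inv x _ a =>
      obtain ⟨L, h1, rfl⟩ := a
      exact ⟨L.reverse, fun a ha => h1 a (List.mem_reverse.1 ha),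
        h.rev L fun a ha => (h1 a ha).trans_le hj⟩
  obtain ⟨L, h1, rfl⟩ := this
  exact h.red_w hj L h1

theorem add (hj : j ≤ k) {y : W} (hy : ∀ m ∈ Subgroup.closure (s '' Set.Iio j), l y ≤ l (y * m))
    {m : W} (hm : m ∈ Subgroup.closure (s '' Set.Iio j)) : l (y * m) = l y + l m := by
  obtain ⟨L, h1, rfl, h3⟩ := h.ex y
  rw [← h3] at hy ⊢
  clear h3
  induction L with
  | nil => simp
  | cons a L ih =>
    have ha := h1 a List.mem_cons_self
    have h2 : ∀ b ∈ L, b < k := fun b hb => h1 b (List.mem_cons_of_mem _ hb)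
    simp only [List.map_cons, List.prod_cons, List.length_cons, mul_assoc] at hy ⊢
    have i1 := ih h2 fun m hm => by
      have := hy m hm
      have := h.l_s ha ((L.map s).prod * m)
      omega
    have u0 := hy 1 (one_mem _)
    have u1 := h.le L h2
    have u2 := h.l_s ha ((L.map s).prod * m)
    rw [mul_one] at u0
    obtain ⟨M, m1, rfl, -⟩ := h.red hj hm
    rcases h.exch ha (w := (L.map s).prod) (by omega) M fun b hb => (m1 b hb).trans_le hj with
      c | ⟨L1, b, L2, rfl, c⟩
    · omega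
    · have a1 := word_mem (s := s) L1 fun x hx => m1 x (by simp [hx])
      have a2 : s b ∈ Subgroup.closure (s '' Set.Iio j) :=
        Subgroup.subset_closure ⟨b, m1 b (by simp), rfl⟩
      have := hy _ (mul_mem (mul_mem a1 (inv_mem a2)) (inv_mem a1))
      rw [← mul_assoc, ← mul_assoc, ← mul_assoc, mul_assoc (s a) _ (L1.map s).prod, c,
        mul_inv_cancel_right, mul_inv_cancel_right] at this
      omega

theorem add' (hj : j ≤ k) {y : W} (hy : ∀ m ∈ Subgroup.closure (s '' Set.Iio j), l y ≤ l (m * y))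
    {m : W} (hm : m ∈ Subgroup.closure (s '' Set.Iio j)) : l (m * y) = l m + l y := by
  have := h.add hj (y := y⁻¹) (fun m hm => by
    rw [h.l_inv, ← h.l_inv (_ * _), mul_inv_rev, inv_inv]
    exact hy _ (inv_mem hm)) (inv_mem hm)
  rwa [← mul_inv_rev, h.l_inv, h.l_inv, h.l_inv, add_comm] at this

theorem kil (hj : j ≤ k) (x : W) : ∃ a ∈ Subgroup.closure (s '' Set.Iio j),
    ∃ b ∈ Subgroup.closure (s '' Set.Iio j), ∀ g ∈ Subgroup.closure (s '' Set.Iio j),
      (a * x * b)⁻¹ * g * (a * x * b) ∈ Subgroup.closure (s '' Set.Iio j) →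
        g ∈ Subgroup.closure (s '' {i | i < j ∧ ∃ i' < j, s i * (a * x * b) = a * x * b * s i'}) := by
  classical
  have ex : ∃ c, ∃ a ∈ Subgroup.closure (s '' Set.Iio j), ∃ b ∈ Subgroup.closure (s '' Set.Iio j),
      l (a * x * b) = c := ⟨_, 1, one_mem _, 1, one_mem _, rfl⟩
  obtain ⟨a, ha, b, hb, e⟩ := Nat.find_spec ex
  have y1 : ∀ m ∈ Subgroup.closure (s '' Set.Iio j), l (a * x * b) ≤ l (a * x * b * m) :=
    fun m hm => e ▸ Nat.find_min' ex ⟨a, ha, b * m, mul_mem hb hm, by rw [mul_assoc _ b]⟩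
  have y2 : ∀ m ∈ Subgroup.closure (s '' Set.Iio j), l (a * x * b) ≤ l (m * (a * x * b)) :=
    fun m hm => e ▸ Nat.find_min' ex ⟨m * a, mul_mem hm ha, b, hb, by simp only [mul_assoc]⟩
  refine ⟨a, ha, b, hb, ?_⟩
  generalize a * x * b = y at y1 y2 ⊢
  intro g hg hg'
  obtain ⟨L, h1, rfl, h3⟩ := h.red hj hg
  clear hg
  induction L with
  | nil => exact one_mem _
  | cons c L ih =>
    have hc := h1 c List.mem_cons_self
    have hc' : c < k := by omega
    have h2 : ∀ b ∈ L, b < j := fun b hb => h1 b (List.mem_cons_of_mem _ hb)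
    have sc : s c ∈ Subgroup.closure (s '' Set.Iio j) := Subgroup.subset_closure ⟨c, hc, rfl⟩
    have wL := word_mem (s := s) L h2
    simp only [List.map_cons, List.prod_cons, List.length_cons] at hg' h3 ⊢
    have u1 := h.le L fun b hb => (h2 b hb).trans_le hj
    have u2 := h.l_s hc' (L.map s).prod
    have u3 := h.add' hj y2 wL
    have u4 := h.add' hj y2 (mul_mem sc wL)
    have u5 := h.add' hj y2 sc
    have u6 := h.l_s hc' y
    have u7 := h.ne c hc' y
    obtain ⟨M, m1, m2, -⟩ := h.red hj hg'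
    have e1 : y * (M.map s).prod = s c * (L.map s).prod * y := by rw [m2]; group
    have key : ∃ i' < j, s c * y = y * s i' := by
      rcases h.exch hc' (w := y) (by omega) M fun b hb => (m1 b hb).trans_le hj with
        d | ⟨L1, b, L2, rfl, d⟩
      · rw [e1, ← mul_assoc, ← mul_assoc, h.sq c hc', one_mul] at d
        omega
      · have a1 := word_mem (s := s) L1 fun x hx => m1 x (by simp [hx])
        have a2 : s b ∈ Subgroup.closure (s '' Set.Iio j) :=
          Subgroup.subset_closure ⟨b, m1 b (by simp), rfl⟩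
        have a3 := mul_mem (mul_mem a1 a2) (inv_mem a1)
        have e2 : y * ((L1.map s).prod * s b * (L1.map s).prod⁻¹) = s c * y := by
          rw [← mul_assoc, ← mul_assoc, ← d]; group
        have u8 := h.add hj y1 a3
        obtain ⟨N, n1, n2, n3⟩ := h.red hj a3
        rw [e2] at u8
        obtain ⟨i', rfl⟩ := List.length_eq_one_iff.1 (show N.length = 1 by omega)
        exact ⟨i', n1 i' (by simp), by rw [← e2, ← n2]; simp⟩
    obtain ⟨i', hi', e3⟩ := key
    refine mul_mem (Subgroup.subset_closure ⟨c, ⟨hc, i', hi', e3⟩, rfl⟩) (ih h2 ?_ (by omega))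
    have a4 : s i' ∈ Subgroup.closure (s '' Set.Iio j) := Subgroup.subset_closure ⟨i', hi', rfl⟩
    have := mul_mem (inv_mem a4) hg'
    convert this using 1
    rw [show (s i')⁻¹ = (y⁻¹ * s c * y)⁻¹ by rw [mul_assoc, e3]; group]
    group

end Ln

end Pool.Agent.Lib.MP_1ae3da_al.CT.E
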