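import Pool.Agent.Lib.MP_1ae3da_al.A.Ta
import Pool.Agent.Lib.MP_1ae3da_al.E.Kl

/-! The double cosets of a parabolic subgroup of type `A (p - 1)`. -/

namespace Pool.Agent.Lib.MP_1ae3da_al.JM

open SLI CT CT.Z CT.A

/-- the permutations that keep the blocks cut at `c` and move nothing above `j`. -/
def eDc_Q (c j : ℕ) : Subgroup (Equiv.Perm ℕ) where
  carrier := {σ | ∀ a, (σ a ≤ c ↔ a ≤ c) ∧ (σ a ≤ j ↔ a ≤ j) ∧ (j < a → σ a = a)}
  one_mem' := fun _ => ⟨Iff.rfl, Iff.rfl, fun _ => rfl⟩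
  mul_mem' := fun {x y} hx hy a => ⟨(hx _).1.trans (hy a).1, (hx _).2.1.trans (hy a).2.1,
    fun e => by rw [Equiv.Perm.mul_apply, (hy a).2.2 e, (hx a).2.2 e]⟩
  inv_mem' := fun {x} hx a => by
    have := hx (x⁻¹ a)
    rw [Equiv.Perm.coe_inv, Equiv.apply_symm_apply] at this
    exact ⟨this.1.symm, this.2.1.symm, fun e => Equiv.Perm.inv_eq_iff_eq.2 ((hx a).2.2 e).symm⟩

theorem eDc_swap {c j i : ℕ} (hi : i < j) (hc : i ≠ c) : Equiv.swap i (i + 1) ∈ eDc_Q c j :=
  fun a => by
    rw [Equiv.swap_apply_def]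
    split_ifs <;> omega

theorem eDc_one {p c j : ℕ} [hp : Fact p.Prime] (hc : c < j) (jp : j + 1 = p)
    {σ : Equiv.Perm ℕ} (h : σ ∈ eDc_Q c j) (e : σ ^ p = 1) : σ = 1 := by
  ext a
  by_contra ne
  have per : Function.IsPeriodicPt σ p a := by
    change σ^[p] a = a
    rw [← Equiv.Perm.coe_pow, e]
    rfl
  have inj := Function.iterate_injOn_Iio_minimalPeriod (f := σ) (x := a)
  rw [Function.minimalPeriod_eq_prime per ne] at inj
  have aj : a ≤ j := not_lt.1 fun l => ne ((h a).2.2 l)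
  have key : ∀ A : Finset ℕ, (∀ m, σ^[m] a ∈ A) → p ≤ A.card := fun A hA => by
    have := Finset.card_le_card_of_injOn (s := Finset.range p) (t := A) (fun m => σ^[m] a)
      (fun m _ => hA m) (by rwa [Finset.coe_range])
    rwa [Finset.card_range] at this
  have pw : ∀ m, (σ^[m] a ≤ c ↔ a ≤ c) ∧ (σ^[m] a ≤ j ↔ a ≤ j) := fun m => by
    have := pow_mem h m a
    rw [Equiv.Perm.coe_pow] at this
    exact ⟨this.1, this.2.1⟩
  by_cases ac : a ≤ c
  · have := key (Finset.Iic c) fun m => Finset.mem_Iic.2 ((pw m).1.2 ac)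
    rw [Nat.card_Iic] at this
    omega
  · have := key (Finset.Ioc c j) fun m =>
      Finset.mem_Ioc.2 ⟨not_le.1 fun l => ac ((pw m).1.1 l), (pw m).2.2 aj⟩
    rw [Nat.card_Ioc] at this
    omega

variable {p r k j : ℕ} {X : Type} [Group X] [Finite X] [hp : Fact p.Prime] [hr : Fact r.Prime]
  {U : Sylow r X} {N M : Subgroup X} {n : ℕ → X}

theorem eDc_ex (h : BV p U N) (t : TS k U N n) {i : ℕ} (hi : i < k) {m : X} (hm : m ∈ N)
    (a : AA (U : Subgroup X) (n i) m) (b : AA (U : Subgroup X) (n i) (n i * m)) : False := by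
  have hn := t.mem i hi
  have sq := t.sq i hi
  obtain ⟨u, hu, hu'⟩ := ex_out hn (t.nt i hi)
  obtain ⟨s, hs, v, hv, w, hw, e⟩ := (t.atom h hi u hu).resolve_left hu'
  have d1 : DC (U : Subgroup X) (n i * u * (n i * m)) (n i * (n i * m)) := b u hu
  have c := mul_mem hs (g4b_cj h hn sq)
  have d2 := (DC.tl (a _ (T_cj' sq hw)) c).left hv
  have e2 : n i * u * (n i * m) = v * (s * (n i * (n i * n i) * (n i)⁻¹) *
      (n i * ((n i * n i)⁻¹ * w * (n i * n i)) * m)) := by
    calc _ = n i * u * (n i)⁻¹ * (n i * n i * m) := by group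
      _ = _ := by rw [e]; group
  rw [← e2] at d2
  have := h.uq (mul_mem hn (mul_mem hn hm)) (mul_mem c.1 (mul_mem hn hm)) d1 d2
  exact t.nt i hi (mul_right_cancel this ▸ c)

section quo
variable {W : Type} [Group W] {f : N →* W}

omit [Finite X] hp hr in
theorem eDc_w (t : TS k U N n) (L : List ℕ) (hL : ∀ i ∈ L, i < k) :
    (L.map fun i => f (sN N n i)).prod = f ⟨_, t.word_mem L hL⟩ := by
  induction L with
  | nil => exact (map_one f).symm
  | cons a L ih =>
    rw [List.map_cons, List.prod_cons, ih fun i hi => hL i (List.mem_cons_of_mem _ hi), ← map_mul]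
    congr 1
    exact Subtype.ext (by simp [sN_val (t.mem a (hL a List.mem_cons_self))])

variable (fk : ∀ x : N, f x = 1 ↔ (x : X) ∈ Tor U N)
include fk

omit [Finite X] hp hr in
theorem eDc_eq (x y : N) : f x = f y ↔ (x : X)⁻¹ * y ∈ Tor U N := by
  rw [← inv_mul_eq_one, ← map_inv, ← map_mul, fk]
  rfl

theorem eDc_ln (fs : Function.Surjective f) (h : BV p U N) (t : TS k U N n) :
    ∃ l : W → ℕ, E.Ln k (fun i => f (sN N n i)) l := by
  classical
  have e : ∀ i < k, (sN N n i : X) = n i := fun i hi => sN_val (t.mem i hi)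
  have sq : ∀ i < k, f (sN N n i) * f (sN N n i) = 1 := fun i hi => by
    rw [← map_mul, fk, Subgroup.coe_mul, e i hi]
    exact t.sq i hi
  have ex : ∀ w, ∃ c, ∃ L : List ℕ, (∀ i ∈ L, i < k) ∧
      (L.map fun i => f (sN N n i)).prod = w ∧ L.length = c := fun w => by
    obtain ⟨m, rfl⟩ := fs w
    obtain ⟨-, L, hL, a⟩ := t.ex_word h m.2
    exact ⟨_, L, hL, by rw [eDc_w t L hL, eDc_eq fk]; exact a, rfl⟩
  obtain ⟨l, l1, l2⟩ : ∃ l : W → ℕ, (∀ w, ∃ L : List ℕ, (∀ i ∈ L, i < k) ∧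
      (L.map fun i => f (sN N n i)).prod = w ∧ L.length = l w) ∧ ∀ L : List ℕ, (∀ i ∈ L, i < k) →
        l (L.map fun i => f (sN N n i)).prod ≤ L.length :=
    ⟨fun w => Nat.find (ex w), fun w => Nat.find_spec (ex w),
      fun L hL => Nat.find_min' _ ⟨L, hL, rfl, rfl⟩⟩
  have rs : ∀ j < k, ∀ w, l (w * f (sN N n j)) ≤ l w + 1 := fun j hj w => by
    obtain ⟨L, h1, rfl, h3⟩ := l1 w
    have := l2 (L ++ [j]) fun a ha => (List.mem_append.1 ha).elim (h1 a) fun ha => by
      rwa [List.mem_singleton.1 ha]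
    simpa [h3] using this
  have up : ∀ i < k, ∀ L : List ℕ, (∀ a ∈ L, a < k) →
      L.length ≤ l (f (sN N n i) * (L.map fun i => f (sN N n i)).prod) →
        AA (U : Subgroup X) (n i) (L.map n).prod := fun i hi L hL c => by
    induction L using List.reverseRecOn with
    | nil => exact aa_T (N := N) (one_mem _)
    | append_singleton L j ih =>
      have hj : j < k := hL j (by simp)
      have hL0 : ∀ a ∈ L, a < k := fun a ha => hL a (by simp [ha])
      simp only [List.map_append, List.prod_append, List.map_cons, List.map_nil, List.prod_cons,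
        List.prod_nil, mul_one, List.length_append, List.length_singleton] at c ⊢
      have r1 := rs j hj (f (sN N n i) * (L.map fun i => f (sN N n i)).prod)
      rw [← mul_assoc] at c
      refine t.aa_step h hi hj (t.word_mem L hL0) (ih hL0 (by omega)) fun a => ?_
      have r2 := l2 L hL0
      rw [eDc_w t L hL0] at c r2
      rw [← map_mul, (eDc_eq fk _ (⟨_, t.word_mem L hL0⟩ * sN N n j)).2 (by
        simpa only [Subgroup.coe_mul, e i hi, e j hj] using a), map_mul, mul_assoc, sq j hj,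
        mul_one] at c
      omega
  have up' : ∀ i < k, ∀ m : N, l (f m) ≤ l (f (sN N n i) * f m) →
      AA (U : Subgroup X) (n i) m := fun i hi m c => by
    obtain ⟨L, h1, h2, h3⟩ := l1 (f m)
    have a := up i hi L h1 (by rwa [h2, h3])
    rw [eDc_w t L h1, eDc_eq fk] at h2
    simpa using aa_mulT a h2
  have dn : ∀ i < k, ∀ m : N, AA (U : Subgroup X) (n i) m →
      l (f m) < l (f (sN N n i) * f m) := fun i hi m a => by
    refine not_le.1 fun c => eDc_ex h t hi m.2 a ?_
    have := up' i hi (sN N n i * m) (by rwa [map_mul, ← mul_assoc, sq i hi, one_mul])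
    rwa [Subgroup.coe_mul, e i hi] at this
  refine ⟨l, sq, l1, l2, fun i hi w c => ?_, fun i hi j hj w c ne => ?_⟩
  · obtain ⟨m, rfl⟩ := fs w
    exact (dn i hi m (up' i hi m c.ge)).ne' c
  · obtain ⟨m, rfl⟩ := fs w
    rw [← map_mul]
    refine dn i hi _ ?_
    rw [Subgroup.coe_mul, e j hj]
    refine t.aa_step h hi hj m.2 (up' i hi m c.le) fun a => ne ?_
    rw [← map_mul, ← map_mul, eDc_eq fk]
    simpa only [Subgroup.coe_mul, e i hi, e j hj] using a

omit [Finite X] hp hr in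
theorem eDc_cl (le : M ≤ N) (wa : WA j M (Tor U N) n) (g : N) :
    f g ∈ Subgroup.closure ((fun i => f (sN N n i)) '' Set.Iio j) ↔ (g : X) ∈ M := by
  have e : ∀ i < j, (sN N n i : X) = n i := fun i hi => sN_val (le (wa.mem i hi))
  constructor
  · intro c
    obtain ⟨m, hm, a⟩ := (Subgroup.closure_le ((M.subgroupOf N).map f)).2 (by
      rintro _ ⟨i, hi, rfl⟩
      exact ⟨_, Subgroup.mem_subgroupOf.2 (e i hi ▸ wa.mem i hi), rfl⟩) c
    exact (mul_mem_cancel_left (inv_mem hm)).1 (wa.le ((eDc_eq fk _ _).1 a))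
  · intro c
    obtain ⟨m, hm, a⟩ := (Subgroup.closure_le (((Subgroup.closure
        ((fun i => f (sN N n i)) '' Set.Iio j)).comap f).map N.subtype)).2 (by
      rintro x (hx | ⟨i, hi, rfl⟩)
      · refine ⟨⟨x, hx.1⟩, ?_, rfl⟩
        change f _ ∈ Subgroup.closure _
        rw [(fk _).2 hx]
        exact one_mem _
      · exact ⟨sN N n i, Subgroup.subset_closure (k := _ '' _) ⟨i, hi, rfl⟩, e i hi⟩) (wa.gen c)
    rwa [← show m = g from Subtype.ext a]

end quo

theorem TS.dc (h : BV p U N) (t : TS k U N n) (jk : j ≤ k) (jp : j + 1 = p) (le : M ≤ N)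
    (wa : WA j M (Tor U N) n) : ∀ x ∈ N,
    ¬ p ∣ (Tor U N).relIndex (M ⊓ M.map (MulAut.conj x).toMonoidHom) ∨ ∃ d ∈ M, ∃ d' ∈ M,
      ∀ i, i < j → d * x * d' * n i * (d * x * d')⁻¹ * (n i)⁻¹ ∈ Tor U N := by
  intro x hx
  have : ((Tor U N).subgroupOf N).Normal := Subgroup.normal_subgroupOf_of_le_normalizer h.nrm
  have fs := QuotientGroup.mk'_surjective ((Tor U N).subgroupOf N)
  have fk : ∀ x : N, QuotientGroup.mk' ((Tor U N).subgroupOf N) x = 1 ↔ (x : X) ∈ Tor U N :=
    fun x => QuotientGroup.eq_one_iff x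
  generalize QuotientGroup.mk' ((Tor U N).subgroupOf N) = f at fs fk
  have e : ∀ i < j, (sN N n i : X) = n i := fun i hi => sN_val (le (wa.mem i hi))
  obtain ⟨l, hl⟩ := eDc_ln fk fs h t
  obtain ⟨a, ha, b, hb, kil⟩ := hl.kil jk (f ⟨x, hx⟩)
  obtain ⟨d, rfl⟩ := fs a
  obtain ⟨d', rfl⟩ := fs b
  rw [eDc_cl fk le wa] at ha hb
  rw [← map_mul, ← map_mul] at kil
  have ey : ((d * ⟨x, hx⟩ * d' : N) : X) = d * x * d' := rfl
  generalize d * ⟨x, hx⟩ * d' = y at kil ey
  by_cases c : ∀ i < j, ∃ i' < j, f (sN N n i) * f y = f y * f (sN N n i')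
  · right
    have cv : ∀ u v : X, (MulAut.conj (y : X)⁻¹) u * v⁻¹ ∈ Tor U N →
        y * v * (y : X)⁻¹ * u⁻¹ ∈ Tor U N := fun u v m => by
      have := g4b_cj h y.2 (inv_mem m)
      rw [MulAut.conj_apply] at this
      convert this using 1
      group
    rcases wa.rigid (MulAut.conj (y : X)⁻¹) (fun z => h.T_conj (inv_mem y.2)) (fun i hi => by
      obtain ⟨i', hi', m⟩ := c i hi
      refine ⟨i', hi', ?_⟩
      have : f (y⁻¹ * sN N n i * y * (sN N n i')⁻¹) = 1 := by
        rw [map_mul, map_mul, map_mul, map_inv, map_inv, mul_assoc _ _ (f y), m]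
        group
      simpa [e i hi, e i' hi'] using (fk _).1 this) with g | g
    · exact ⟨d, ha, d', hb, fun i hi => ey ▸ cv _ _ (g i hi)⟩
    · have wm : ∀ m ≤ j, wD n m ∈ M ∧ wH n m ∈ M := fun m hm => by
        induction m with
        | zero => exact ⟨one_mem _, one_mem _⟩
        | succ m ih =>
          have a := mul_mem (wa.mem m hm) (ih (by omega)).1
          exact ⟨a, mul_mem (ih (by omega)).2 a⟩
      refine ⟨d, ha, d' * wH n j, mul_mem hb (wm j le_rfl).2, fun i hi => ?_⟩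
      have s1 := wa.br.wH_s le_rfl (i := i) (j := j - 1 - i) (by omega)
      have := cv _ _ (g i (j - 1 - i) (by omega))
      rw [← mul_assoc, ← ey, mul_assoc _ (wH n j), s1]
      convert this using 1
      group
  · left
    intro dv
    push Not at c
    obtain ⟨c, hc, nc⟩ := c
    obtain ⟨π, p1, p2, -⟩ := (wa_sub wa).perm'
    rw [← Subgroup.relIndex_subgroupOf (L := M) inf_le_left,
      show (Tor U N).subgroupOf M = π.ker from Subgroup.ext fun z => (p1 z).symm,
      Subgroup.relIndex_ker] at dv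
    have fin : Finite ((M ⊓ M.map (MulAut.conj x).toMonoidHom).subgroupOf M |>.map π) :=
      Finite.of_surjective _ (π.subgroupMap_surjective _)
    obtain ⟨⟨_, g, ⟨g0, g', hg', eg⟩, rfl⟩, og⟩ := exists_prime_orderOf_dvd_card' p dv
    rw [← Subgroup.orderOf_coe] at og
    change orderOf (π g) = p at og
    change x * g' * x⁻¹ = g at eg
    let g1 : M := ⟨d, ha⟩ * g * ⟨d, ha⟩⁻¹
    have k1 := kil (f ⟨g1, le g1.2⟩) ((eDc_cl fk le wa _).2 g1.2) (by
      rw [← map_inv, ← map_mul, ← map_mul, eDc_cl fk le wa]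
      have := mul_mem (mul_mem (inv_mem hb) hg') hb
      convert this using 1
      change (y : X)⁻¹ * (d * g * (d : X)⁻¹) * y = _
      rw [ey, ← eg]
      group)
    obtain ⟨m, hm, em⟩ := (Subgroup.closure_le (((eDc_Q c j).comap π).map
        (f.comp (Subgroup.inclusion le)))).2 (by
      rintro _ ⟨i, ⟨hi, i', hi', a⟩, rfl⟩
      refine ⟨sN M n i, ?_, congrArg f (Subtype.ext ?_)⟩
      · change π _ ∈ eDc_Q c j
        rw [p2 i hi]
        exact eDc_swap hi fun z => nc i' hi' (z ▸ a)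
      · exact (sN_val (wa.mem i hi)).trans (e i hi).symm) k1
    have e1 : π (m⁻¹ * g1) = 1 := (p1 _).2 ((eDc_eq fk _ _).1 em)
    rw [map_mul, map_inv, inv_mul_eq_one] at e1
    have e2 : π g1 = 1 := eDc_one hc jp (e1 ▸ hm) (by
      rw [map_mul, map_mul, map_inv, conj_pow, ← og, pow_orderOf_eq_one, mul_one, mul_inv_cancel])
    rw [map_mul, map_mul, map_inv, mul_inv_eq_one, mul_eq_left] at e2
    rw [e2, orderOf_one] at og
    exact hp.out.one_lt.ne og

end Pool.Agent.Lib.MP_1ae3da_al.JM
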