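import Pool.Agent.Lib.MP_1ae3da_al.E.Un

/-! The symmetry of the diagram that is induced by an element of `N`. -/

namespace Pool.Agent.Lib.MP_1ae3da_al.CT.Z

variable {F A N : Type} [Field F] [CharZero F] [Ring A] [Algebra F A] [Group N]
  {p : ℕ} {Λ : AddSubgroup A} {T : Subgroup N} {b : N → A}

/-- conjugation by a unit. -/
def eFlC (v : Aˣ) : RingAut A where
  toFun x := v * x * ↑v⁻¹
  invFun x := ↑v⁻¹ * x * v
  left_inv x := by simp [mul_assoc]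
  right_inv x := by simp [mul_assoc]
  map_mul' x y := by simp [mul_assoc]
  map_add' x y := by rw [mul_add, add_mul]

theorem eFl_app (v : Aˣ) (x : A) : eFlC v x = v * x * ↑v⁻¹ := rfl

theorem eFl_eq {v : Aˣ} {x y : A} : eFlC v x = y ↔ v * x = y * v := by
  rw [eFl_app, Units.mul_inv_eq_iff_eq_mul]

omit [CharZero F] in
theorem eFl_SL (v : Aˣ) : SL F 1 (eFlC v) := fun c a => by
  simp only [eFl_app, Algebra.mul_smul_comm, Algebra.smul_mul_assoc]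
  rfl

omit [CharZero F] in
theorem eFl_mem (h : Ltt F p Λ) {v : Aˣ} (h1 : (v : A) ∈ Λ) (h2 : (↑v⁻¹ : A) ∈ Λ) :
    ∀ y ∈ Λ, eFlC v y ∈ Λ := fun _ hy => h.mul _ (h.mul _ h1 _ hy) _ h2

omit [CharZero F] in
theorem eFl_mul (h : Ltt F p Λ) {a a' c c' : A} (h1 : a - a' ∈ Lk F p 1 Λ)
    (h2 : c - c' ∈ Lk F p 1 Λ) (ha : a ∈ Λ) (hc : c' ∈ Λ) : a * c - a' * c' ∈ Lk F p 1 Λ := by
  have e : a * c - a' * c' = a * (c - c') + (a - a') * c' := by noncomm_ring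
  rw [e]
  exact add_mem (h.mul_left ha h2) (h.mul_right h1 hc)

omit [CharZero F] in
theorem eFl_in {a c : A} (h1 : a - c ∈ Lk F p 1 Λ) (hc : c ∈ Λ) : a ∈ Λ := by
  have := add_mem (Lk_le h1) hc
  rwa [sub_add_cancel] at this

omit [CharZero F] in
theorem eFl_tr {a c d : A} (h1 : a - c ∈ Lk F p 1 Λ) (h2 : c - d ∈ Lk F p 1 Λ) :
    a - d ∈ Lk F p 1 Λ := by
  have := add_mem h1 h2
  rwa [sub_add_sub_cancel] at this

theorem eFl_inv (γ : RingAut A) {v : Aˣ} (h : γ v = v) : γ ↑v⁻¹ = ↑v⁻¹ := by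
  have e : γ ↑v⁻¹ * v = 1 := by
    conv_lhs => rw [← h, ← map_mul, Units.inv_mul, map_one]
  rw [← Units.mul_left_inj v, e, Units.inv_mul]

theorem eFl_comm {v : Aˣ} {x : A} (h : v * x = x * v) : ↑v⁻¹ * x = x * ↑v⁻¹ := by
  rw [Units.inv_mul_eq_iff_eq_mul, ← mul_assoc, h, Units.mul_inv_cancel_right]

/-- the central square root. -/
theorem eFl_s (h : Bs F p Λ T b) (h2 : ¬ p ∣ 2) {w : N} (hw : w * w ∈ T)
    (hc : ∀ x, b w * b x = b (w * x * w⁻¹) * b w) :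
    ∃ s : Aˣ, (s : A) - 1 ∈ Lk F p 1 Λ ∧ (↑s⁻¹ : A) - 1 ∈ Lk F p 1 Λ ∧
      (∀ x, (s : A) * b x = b x * s) ∧ b w * ↑s⁻¹ * (b w * ↑s⁻¹) = b (w * w) ∧
      ∀ σ γ δ, Sy F Λ b σ γ δ → δ w * w⁻¹ ∈ T → γ s = s := by
  have h1 : (1 : A) ∈ Λ := h.one ▸ h.ap.mem 1
  have hi := inv_mem hw
  have e1 : b (w * w)⁻¹ * b (w * w) = 1 := by
    rw [← (h.ap.ex _ hi _).1, inv_mul_cancel, h.one]
  have e2 : b (w * w) * b (w * w)⁻¹ = 1 := by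
    rw [← (h.ap.ex _ hw _).1, mul_inv_cancel, h.one]
  have hz : b (w * w)⁻¹ * (b w * b w) - 1 ∈ Lk F p 1 Λ := by
    rw [← e1, ← mul_sub]
    exact h.lt.mul_left (h.ap.mem _) (h.ap.df w w)
  have cz : ∀ x, b x * (b (w * w)⁻¹ * (b w * b w)) = b (w * w)⁻¹ * (b w * b w) * b x := by
    intro x
    have a1 : b w * b w * b x = b (w * (w * x * w⁻¹) * w⁻¹) * (b w * b w) := by
      rw [mul_assoc, hc x, ← mul_assoc, hc, mul_assoc]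
    have a2 : b x * b (w * w)⁻¹ = b (w * w)⁻¹ * b (w * (w * x * w⁻¹) * w⁻¹) := by
      rw [← (h.ap.ex _ hi _).1, ← (h.ap.ex _ hi _).2]
      congr 1
      group
    rw [mul_assoc _ _ (b x), a1, ← mul_assoc, a2, mul_assoc]
  obtain ⟨s, s1, s2, s3⟩ := h.lt.sqrt h1 h2 hz
  obtain ⟨s, rfl, s4⟩ := h.lt.unit h1 s1
  have cs : ∀ x, (s : A) * b x = b x * s := by
    intro x
    obtain ⟨v, v1, v2⟩ := h.unit x
    have := s3 1 (eFlC v) (eFl_SL v) (eFl_mem h.lt (v1 ▸ h.ap.mem x) v2)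
      (eFl_eq.2 (by rw [v1]; exact cz x))
    rw [eFl_eq, v1] at this
    exact this.symm
  refine ⟨s, s1, s4, cs, ?_, fun σ γ δ hS hd => s3 σ γ hS.1 hS.2.1 ?_⟩
  · have a1 : b w * b w = b (w * w) * (s * s) := by
      rw [s2, ← mul_assoc, e2, one_mul]
    rw [mul_assoc, ← mul_assoc _ (b w), eFl_comm (cs w), mul_assoc, ← mul_assoc, a1]
    simp [mul_assoc]
  · obtain ⟨d, hd', e⟩ : ∃ d ∈ T, δ w = d * w := ⟨_, hd, by group⟩
    have hd2 := h.nrm.conj_mem d hd' w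
    rw [map_mul, map_mul, hS.2.2, hS.2.2, map_inv, map_mul, e, (h.ap.ex d hd' w).1]
    have a1 : b d * b w * (b d * b w) = b (d * (w * d * w⁻¹)) * (b w * b w) := by
      rw [(h.ap.ex d hd' _).1, mul_assoc, ← mul_assoc (b w), hc d]
      simp only [mul_assoc]
    rw [a1, ← mul_assoc, ← (h.ap.ex _ (mul_mem hd' hd2) _).2]
    congr 2
    group

theorem Bs.flip (h : Bs F p Λ T b) (h2 : ¬ p ∣ 2) (Θ : N →* A)
    (h1 : ∀ x, Θ x - b x ∈ Lk F p 1 Λ) (h3 : ∀ t ∈ T, Θ t = b t) (P : RingAut F → Prop) (p1 : P 1)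
    (h4 : ∀ σ γ δ, P σ → Sy F Λ b σ γ δ → (∀ x, δ x * x⁻¹ ∈ T) → ∀ x, γ (Θ x) = Θ (δ x))
    {w : N} (hw : w * w ∈ T) (hc : ∀ x, b w * b x = b (w * x * w⁻¹) * b w) :
    ∃ Θ' : N →* A, (∀ x, Θ' x - b x ∈ Lk F p 1 Λ) ∧ (∀ t ∈ T, Θ' t = b t) ∧
      ∀ σ γ δ, P σ → Sy F Λ b σ γ δ →
        ((∀ x, δ x * x⁻¹ ∈ T) ∨ ∀ x, w * δ x * w⁻¹ * x⁻¹ ∈ T) → ∀ x, γ (Θ' x) = Θ' (δ x) := by
  have o1 : (1 : A) ∈ Λ := h.one ▸ h.ap.mem 1
  have z0 : ∀ a : A, a - a ∈ Lk F p 1 Λ := fun a => by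
    rw [sub_self]
    exact zero_mem _
  obtain ⟨s, s1, s2, cs, s3, s4⟩ := eFl_s h h2 hw hc
  obtain ⟨v, v1, v2⟩ := h.unit w
  have m1 : b w * ↑s⁻¹ - b w * 1 ∈ Lk F p 1 Λ := eFl_mul h.lt (z0 _) s2 (h.ap.mem w) o1
  rw [mul_one] at m1
  have m2 : b w * ↑s⁻¹ * Θ w⁻¹ - 1 ∈ Lk F p 1 Λ := by
    refine eFl_tr (eFl_mul h.lt m1 (h1 _) (eFl_in m1 (h.ap.mem w)) (h.ap.mem _)) ?_
    have := h.ap.df w w⁻¹
    rwa [mul_inv_cancel, h.one] at this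
  have m3 : ((2 : ℕ) : F)⁻¹ • (1 + b w * ↑s⁻¹ * Θ w⁻¹) - 1 ∈ Lk F p 1 Λ := by
    have e : ((2 : ℕ) : F)⁻¹ • (1 + b w * ↑s⁻¹ * Θ w⁻¹) - 1 =
        ((2 : ℕ) : F)⁻¹ • (b w * ↑s⁻¹ * Θ w⁻¹ - 1) := by
      generalize b w * ↑s⁻¹ * Θ w⁻¹ = y
      have : ((2 : ℕ) : F) ≠ 0 := by norm_num
      have e2 : (1 : A) = ((2 : ℕ) : F)⁻¹ • (1 + 1) := by
        rw [← two_smul F (1 : A), smul_smul, Nat.cast_ofNat, inv_mul_cancel₀ two_ne_zero, one_smul]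
      conv_lhs => rw [e2, ← smul_sub, ← e2]
      congr 1
      abel
    rw [e]
    exact h.lt.inv_Lk h2 m2
  obtain ⟨r, r1, r2⟩ := h.lt.unit o1 m3
  rw [← r1] at m3
  have ct : ∀ t ∈ T, b w * ↑s⁻¹ * Θ w⁻¹ * b t = b t * (b w * ↑s⁻¹ * Θ w⁻¹) := by
    intro t ht
    have a1 : Θ w⁻¹ * b t = b (w⁻¹ * t * w⁻¹⁻¹) * Θ w⁻¹ := by
      rw [← h3 t ht, ← h3 _ (h.nrm.conj_mem t ht w⁻¹), ← map_mul, ← map_mul]
      congr 1
      group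
    have a2 : w * (w⁻¹ * t * w⁻¹⁻¹) * w⁻¹ = t := by group
    rw [mul_assoc, a1, ← mul_assoc, mul_assoc (b w), eFl_comm (cs _), ← mul_assoc, hc, a2]
    simp only [mul_assoc]
  have cr : ∀ t ∈ T, (r : A) * b t = b t * r := by
    intro t ht
    rw [r1, Algebra.mul_smul_comm, Algebra.smul_mul_assoc, add_mul, mul_add, ct t ht, one_mul,
      mul_one]
  have rw' : (r : A) * Θ w = b w * ↑s⁻¹ * r := by
    rw [r1, Algebra.mul_smul_comm, Algebra.smul_mul_assoc, add_mul, mul_add, one_mul, mul_one,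
      mul_assoc _ _ (Θ w), ← map_mul, inv_mul_cancel, map_one, mul_one, ← mul_assoc, s3,
      ← h3 _ hw, ← map_mul, mul_inv_cancel_right, add_comm]
  have nat : ∀ σ γ δ, P σ → Sy F Λ b σ γ δ → (∀ x, δ x * x⁻¹ ∈ T) →
      ∀ x, γ (eFlC r (Θ x)) = eFlC r (Θ (δ x)) := by
    intro σ γ δ hP hS hd x
    have g1 := eFl_inv γ (s4 σ γ δ hS (hd w))
    obtain ⟨d, hd', e⟩ : ∃ d ∈ T, δ w = d * w := ⟨_, hd w, by group⟩
    have g2 : γ (b w * ↑s⁻¹ * Θ w⁻¹) = b w * ↑s⁻¹ * Θ w⁻¹ := by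
      have a1 : b d * b d⁻¹ = 1 := by rw [← (h.ap.ex d hd' _).1, mul_inv_cancel, h.one]
      rw [map_mul, map_mul, g1, hS.2.2, h4 σ γ δ hP hS hd, map_inv, e, (h.ap.ex d hd' w).1,
        mul_inv_rev, map_mul, h3 _ (inv_mem hd'), mul_assoc (b d), mul_assoc (b d),
        ← mul_assoc _ (Θ w⁻¹), ct _ (inv_mem hd'), ← mul_assoc, a1, one_mul]
    have g3 : γ r = r := by
      rw [r1, hS.1, map_add, map_one, g2, map_inv₀, map_natCast]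
    rw [eFl_app, eFl_app, map_mul, map_mul, g3, eFl_inv γ g3, h4 σ γ δ hP hS hd]
  refine ⟨(eFlC r : A →* A).comp Θ, fun x => ?_, fun t ht => ?_, fun σ γ δ hP hS hd x => ?_⟩
  · have a1 := eFl_mul h.lt m3 (h1 x) (eFl_in m3 o1) (h.ap.mem x)
    rw [one_mul] at a1
    have a2 := eFl_mul h.lt a1 r2 (eFl_in a1 (h.ap.mem x)) o1
    rw [mul_one] at a2
    exact a2
  · change eFlC r (Θ t) = b t
    rw [h3 t ht]
    exact eFl_eq.2 (cr t ht)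
  · change γ (eFlC r (Θ x)) = eFlC r (Θ (δ x))
    rcases hd with hd | hd
    · exact nat σ γ δ hP hS hd x
    have c1 : ∀ y, (s : A) * eFlC r (Θ y) = eFlC r (Θ y) * s := fun y =>
      eFl_eq.1 (nat 1 (eFlC s) 1 p1 ⟨eFl_SL s, eFl_mem h.lt (eFl_in s1 o1) (eFl_in s2 o1),
        fun x => eFl_eq.2 (cs x)⟩ (fun x => by simp) y)
    have c2 : eFlC r (Θ w) = b w * ↑s⁻¹ := eFl_eq.2 rw'
    have hS' : Sy F Λ b σ (eFlC v * γ) (MulAut.conj w * δ) := by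
      refine ⟨fun c a => ?_, fun y hy => eFl_mem h.lt (v1 ▸ h.ap.mem w) v2 _ (hS.2.1 y hy),
        fun y => ?_⟩
      · change eFlC v (γ (c • a)) = σ c • eFlC v (γ a)
        rw [hS.1, eFl_SL v]
        rfl
      · change eFlC v (γ (b y)) = b (w * δ y * w⁻¹)
        rw [hS.2.2, eFl_eq, v1]
        exact hc _
    have c3 : eFlC v (γ (eFlC r (Θ x))) = eFlC r (Θ (w * δ x * w⁻¹)) :=
      nat σ _ _ hP hS' hd x
    have c4 : eFlC r (Θ (w * δ x * w⁻¹)) * eFlC r (Θ w) = eFlC r (Θ w) * eFlC r (Θ (δ x)) := by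
      rw [← map_mul, ← map_mul, ← map_mul, ← map_mul, inv_mul_cancel_right]
    rw [c2, ← mul_assoc, ← v1, ← eFl_eq.1 c3, mul_assoc, mul_assoc, Units.mul_right_inj,
      eFl_comm (c1 _), Units.mul_left_inj] at c4
    exact c4

end Pool.Agent.Lib.MP_1ae3da_al.CT.Z
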