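import Pool.Agent.Lib.MP_1ae3da_al.E.Ar

/-! The ring of functions of a lattice. -/

namespace Pool.Agent.Lib.MP_1ae3da_al.CT.A

variable {F : Type} [Field F] [CharZero F] {p : ℕ} [hp : Fact p.Prime]

/-- induction over the rational functions on a rational spectrum. -/
theorem fc_indQ {J : Type} (S : Finset (J → F)) (hS : ∀ l ∈ S, ∀ j, ∃ c : ℚ, l j = c)
    (P : ((J → F) → F) → Prop) (hc : ∀ c : ℚ, P fun _ => c) (hj : ∀ j, P fun l => l j)
    (ha : ∀ f f', P f → P f' → P (f + f')) (hm : ∀ f f', P f → P f' → P (f * f'))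
    (he : ∀ f f', P f' → (∀ l ∈ S, f l = f' l) → P f) (f : (J → F) → F)
    (hf : ∀ l ∈ S, ∃ c : ℚ, f l = c) : P f := by
  classical
  have h0 : P 0 := he _ _ (hc 0) fun l _ => by simp
  have h1 : P 1 := he _ _ (hc 1) fun l _ => by simp
  have sep : ∀ l l' : J → F, ∃ d, P d ∧ (l ∈ S → l' ∈ S → d l = 1 ∧ (l ≠ l' → d l' = 0)) := by
    intro l l'
    by_cases e : l ∈ S ∧ l' ∈ S ∧ l ≠ l'
    · obtain ⟨a, b, e⟩ := e
      obtain ⟨j, k⟩ := Function.ne_iff.1 e
      obtain ⟨c, hc1⟩ := hS l a j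
      obtain ⟨c', hc2⟩ := hS l' b j
      refine ⟨_, hm _ _ (hc (c - c')⁻¹) (ha _ _ (hj j) (hc (-c'))), fun _ _ => ⟨?_, fun _ => ?_⟩⟩
      · simp only [Pi.mul_apply, Pi.add_apply]
        push_cast
        rw [← hc1, ← hc2, ← sub_eq_add_neg]
        exact inv_mul_cancel₀ (sub_ne_zero.2 k)
      · simp only [Pi.mul_apply, Pi.add_apply]
        push_cast
        rw [hc2, add_neg_cancel, mul_zero]
    · exact ⟨1, h1, fun a b => ⟨rfl, fun k => (e ⟨a, b, k⟩).elim⟩⟩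
  choose d d1 d2 using sep
  choose! c hc' using hf
  refine he f (∑ l ∈ S, (fun _ => (c l : F)) * ∏ l' ∈ S, d l l')
    (Finset.sum_induction _ P ha h0 fun l _ => hm _ _ (hc _)
      (Finset.prod_induction _ P hm h1 fun l' _ => d1 l l')) fun m hm' => ?_
  rw [Finset.sum_apply, Finset.sum_eq_single_of_mem m hm' fun l hl hn => ?_]
  · rw [Pi.mul_apply, Finset.prod_apply,
      Finset.prod_eq_one (f := fun a => d m a m) fun a ha' => (d2 m a hm' ha').1, mul_one]
    exact hc' m hm'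
  · rw [Pi.mul_apply, Finset.prod_apply,
      Finset.prod_eq_zero (f := fun a => d l a m) hm' ((d2 l m hl hm').2 hn), mul_zero]

theorem eFq_pow (M : ℕ) : Iz F p ((p : F) ^ M) := by
  have := iz_int (F := F) (p := p) ((p : ℤ) ^ M)
  simpa using this

theorem eFq_neg {a : F} (h : Iz F p a) : Iz F p (-a) := by
  have := (iz_int (F := F) (p := p) (-1)).mul h
  simpa using this

/-- the functions whose value under the calculus lies in the lattice. -/
theorem FC.fr {A J : Type} [Ring A] [Algebra F A] {g : J → A} {ev : ((J → F) → F) →ₐ[F] A}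
    {S : Finset (J → F)} (k : FC g ev S) (hS : ∀ l ∈ S, ∀ j, ∃ c : ℚ, l j = c)
    {Λ : AddSubgroup A} (h1 : (1 : A) ∈ Λ) (hm : ∀ x ∈ Λ, ∀ y ∈ Λ, x * y ∈ Λ)
    (hz : ∀ c, Iz F p c → ∀ x ∈ Λ, c • x ∈ Λ) (hg : ∀ j, g j ∈ Λ) :
    ∃ R : Subring ((J → F) → F), Fr p S R ∧
      ∀ f, f ∈ R ↔ ev f ∈ Λ ∧ ∀ l ∈ S, Iz F p (f l) := by
  classical
  have up : ∀ (x : A) (M M' : ℕ), (p : F) ^ M • x ∈ Λ → (p : F) ^ (M' + M) • x ∈ Λ :=
    fun x M M' h => by
      rw [pow_add, mul_smul]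
      exact hz _ (eFq_pow M') _ h
  have cs : ∀ c : F, Iz F p c → ev (fun _ => c) ∈ Λ := fun c h => by
    rw [ev_const, Algebra.algebraMap_eq_smul_one]
    exact hz c h 1 h1
  have key : ∀ f : (J → F) → F, (∀ l ∈ S, ∃ c : ℚ, f l = c) →
      ∃ M : ℕ, (p : F) ^ M • ev f ∈ Λ := by
    intro f hf
    refine fc_indQ S hS (fun f => ∃ M : ℕ, (p : F) ^ M • ev f ∈ Λ) (fun c => ?_) (fun j => ?_)
      (fun f f' a b => ?_) (fun f f' a b => ?_) (fun f f' a e => ?_) f hf
    · obtain ⟨M, hM⟩ := iz_rat (F := F) (p := p) c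
      refine ⟨M, ?_⟩
      rw [ev_const, Algebra.algebraMap_eq_smul_one, smul_smul]
      exact hz _ hM 1 h1
    · exact ⟨0, by rw [pow_zero, one_smul, k.co]; exact hg j⟩
    · obtain ⟨M, a⟩ := a
      obtain ⟨M', b⟩ := b
      refine ⟨M' + M, ?_⟩
      rw [map_add, smul_add]
      refine add_mem (up _ _ _ a) ?_
      rw [add_comm]
      exact up _ _ _ b
    · obtain ⟨M, a⟩ := a
      obtain ⟨M', b⟩ := b
      refine ⟨M + M', ?_⟩
      rw [map_mul, pow_add, ← smul_mul_smul_comm]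
      exact hm _ a _ b
    · rw [k.ext.2 e]
      exact a
  let R : Subring ((J → F) → F) :=
    { carrier := {f | ev f ∈ Λ ∧ ∀ l ∈ S, Iz F p (f l)}
      mul_mem' := fun {a b} ha hb =>
        ⟨by rw [map_mul]; exact hm _ ha.1 _ hb.1, fun l hl => (ha.2 l hl).mul (hb.2 l hl)⟩
      one_mem' := ⟨by rw [map_one]; exact h1, fun l _ => by
        simpa using iz_int (F := F) (p := p) 1⟩
      add_mem' := fun {a b} ha hb =>
        ⟨by rw [map_add]; exact add_mem ha.1 hb.1, fun l hl => (ha.2 l hl).add (hb.2 l hl)⟩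
      zero_mem' := ⟨by rw [map_zero]; exact zero_mem _, fun l _ => by
        simpa using iz_int (F := F) (p := p) 0⟩
      neg_mem' := fun {a} ha =>
        ⟨by rw [map_neg]; exact neg_mem ha.1, fun l hl => eFq_neg (ha.2 l hl)⟩ }
  have mem : ∀ f, f ∈ R ↔ ev f ∈ Λ ∧ ∀ l ∈ S, Iz F p (f l) := fun f => Iff.rfl
  refine ⟨R, ⟨fun f f' a e => ?_, fun c hc => ?_, fun f a => ((mem f).1 a).2, ?_⟩, mem⟩
  · rw [mem] at a ⊢
    exact ⟨by rw [k.ext.2 e]; exact a.1, fun l hl => by rw [e l hl]; exact a.2 l hl⟩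
  · exact (mem _).2 ⟨cs c hc, fun _ _ => hc⟩
  · have ind : ∀ m : J → F, ∃ M : ℕ, (p : F) ^ M • ev (fun l => if l = m then 1 else 0) ∈ Λ :=
      fun m => key _ fun l _ => by
        by_cases e : l = m
        · exact ⟨1, by simp [e]⟩
        · exact ⟨0, by simp [e]⟩
    choose M hM using ind
    refine ⟨S.sup M, fun f hf => (mem _).2 ⟨?_, fun l hl => (eFq_pow _).mul (hf l hl)⟩⟩
    have e : ev (fun l => (p : F) ^ S.sup M * f l) =
        ∑ m ∈ S, f m • ((p : F) ^ S.sup M • ev fun l => if l = m then 1 else 0) := by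
      simp only [← map_smul, ← map_sum]
      refine k.ext.2 fun l hl => ?_
      rw [Finset.sum_apply, Finset.sum_eq_single_of_mem l hl fun m _ hn => by
        simp [hn.symm]]
      simp [mul_comm]
    rw [e]
    refine sum_mem fun m hm' => hz _ (hf m hm') _ ?_
    obtain ⟨d, hd⟩ := Nat.exists_eq_add_of_le' (Finset.le_sup (f := M) hm')
    rw [hd]
    exact up _ _ _ (hM m)

end Pool.Agent.Lib.MP_1ae3da_al.CT.A
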