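import Pool.Agent.Lib.MP_1ae3da_al.E.Qb

/-! Rings of functions on a finite spectrum. -/

namespace Pool.Agent.Lib.MP_1ae3da_al.CT.A

variable {F L : Type} [Field F] [CharZero F] {p q : ℕ} [hp : Fact p.Prime] {S : Finset L}
  {R : Subring (L → F)}

theorem eFr_neg {a : F} (h : Iz F p a) : Iz F p (-a) := by
  simpa using (iz_int (F := F) (p := p) (-1)).mul h

theorem eFr_val {s : Set (L → F)} {l : L} (hs : ∀ f ∈ s, Iz F p (f l)) {f : L → F}
    (hf : f ∈ Subring.closure s) : Iz F p (f l) := by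
  induction hf using Subring.closure_induction with
  | mem f hf => exact hs f hf
  | zero => simpa using iz_int (F := F) (p := p) 0
  | one => simpa using iz_int (F := F) (p := p) 1
  | add f g _ _ a b => exact a.add b
  | neg f _ a => exact eFr_neg a
  | mul f g _ _ a b => exact a.mul b

theorem eFr_pf {f : ℤ → F} (hf : f ∈ PF F p) (c : ℤ) : Iz F p (f c) := by
  refine eFr_val ?_ hf
  rintro f (⟨a, ha, rfl⟩ | rfl)
  exacts [ha, iz_int c]

omit [CharZero F] hp in
theorem eFr_comp (h : ∀ c, Iz F p c → (fun _ => c) ∈ R) {x : L → ℤ}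
    (hx : (fun l => (x l : F)) ∈ R) {f : ℤ → F} (hf : f ∈ PF F p) : (fun l => f (x l)) ∈ R := by
  induction hf using Subring.closure_induction with
  | mem f hf =>
    rcases hf with ⟨a, ha, rfl⟩ | rfl
    exacts [h a ha, hx]
  | zero => exact R.zero_mem
  | one => exact R.one_mem
  | add f g _ _ a b => exact R.add_mem a b
  | neg f _ a => exact R.neg_mem a
  | mul f g _ _ a b => exact R.mul_mem a b

omit [CharZero F] hp in
theorem eFr_pow (R : Subring (L → F)) (m : ℕ) : (fun _ => (p : F) ^ m) ∈ R :=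
  R.pow_mem (natCast_mem R p) m

theorem eFr_rat {a : F} (h : Iz F p a) : ∃ c : ℚ, a = c := by
  obtain ⟨m, b, hb, e⟩ := h
  have : (b : F) ≠ 0 := Nat.cast_ne_zero.2 fun k => hb (k ▸ dvd_zero p)
  exact ⟨m / b, by push_cast; rw [eq_div_iff this, e]⟩

theorem Fr.inv (h : Fr p S R) {g : L → F} (hg : g ∈ R) : (fun l => (1 + p * g l)⁻¹) ∈ R := by
  obtain ⟨M, hM⟩ := h.bd
  have a := hM _ fun l hl => (h.val g hg l hl).unit.2
  clear hM
  induction M with
  | zero => simpa using a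
  | succ m ih =>
    refine ih (h.ext _ _ (R.sub_mem (eFr_pow (p := p) R m) (R.mul_mem hg a)) fun l hl => ?_)
    have := (h.val g hg l hl).unit.1
    simp only [Pi.sub_apply, Pi.mul_apply]
    field_simp
    ring

theorem Fr.comp (h : Fr p S R) {x : L → ℤ} (hx : (fun l => (x l : F)) ∈ R) {f : ℤ → F}
    (hf : f ∈ PF F p) : (fun l => f (x l)) ∈ R := eFr_comp h.cst hx hf

theorem Fr.log (h : Fr p S R) (h2 : p ≠ 2) (q2 : 2 ≤ q) (hq : q ≡ 1 [MOD p]) {x : L → ℤ}
    (hx : (fun l => qi (q : F) (x l)) ∈ R) : (fun l => (x l : F)) ∈ R := by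
  obtain ⟨B, hB, e⟩ := qi_bin (F := F) h2 q2 hq (S.sup fun l => (x l).natAbs)
  set R' := Subring.closure ((R : Set (L → F)) ∪ {fun l => (x l : F)}) with hR
  have le : ∀ f ∈ R, f ∈ R' := fun f hf => Subring.subset_closure (Or.inl hf)
  have xm : (fun l => (x l : F)) ∈ R' := Subring.subset_closure (Or.inr rfl)
  have bm := eFr_comp (fun c hc => le _ (h.cst c hc)) xm hB
  have st : ∀ f ∈ R', ∃ r ∈ R, ∃ g ∈ R', ∀ l ∈ S, f l = r l + p * g l := by
    intro f hf
    induction hf using Subring.closure_induction with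
    | mem f hf =>
      rcases hf with hf | rfl
      · exact ⟨f, hf, 0, R'.zero_mem, by simp⟩
      · refine ⟨_, hx, _, R'.neg_mem (R'.mul_mem xm (R'.mul_mem (R'.sub_mem xm R'.one_mem) bm)),
          fun l hl => ?_⟩
        have k : |x l| ≤ (S.sup fun l => (x l).natAbs : ℕ) := by
          rw [← Int.natCast_natAbs]
          exact_mod_cast Finset.le_sup (f := fun l => (x l).natAbs) hl
        simp only [Pi.sub_apply, Pi.mul_apply, Pi.neg_apply, Pi.one_apply, e _ k]
        ring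
    | zero => exact ⟨0, R.zero_mem, 0, R'.zero_mem, by simp⟩
    | one => exact ⟨1, R.one_mem, 0, R'.zero_mem, by simp⟩
    | add f g _ _ a b =>
      obtain ⟨r, hr, u, hu, a⟩ := a
      obtain ⟨s, hs, v, hv, b⟩ := b
      refine ⟨_, R.add_mem hr hs, _, R'.add_mem hu hv, fun l hl => ?_⟩
      simp only [Pi.add_apply, a l hl, b l hl]
      ring
    | neg f _ a =>
      obtain ⟨r, hr, u, hu, a⟩ := a
      refine ⟨_, R.neg_mem hr, _, R'.neg_mem hu, fun l hl => ?_⟩
      simp only [Pi.neg_apply, a l hl]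
      ring
    | mul f g _ hg a b =>
      obtain ⟨r, hr, u, hu, a⟩ := a
      obtain ⟨s, hs, v, hv, b⟩ := b
      refine ⟨_, R.mul_mem hr hs, _, R'.add_mem (R'.mul_mem (le _ hr) hv) (R'.mul_mem hu hg),
        fun l hl => ?_⟩
      simp only [Pi.add_apply, Pi.mul_apply, a l hl, b l hl]
      ring
  obtain ⟨M, hM⟩ := h.bd
  have a : ∀ g ∈ R', (fun l => (p : F) ^ M * g l) ∈ R := fun g hg => hM g fun l hl => by
    refine eFr_val ?_ hg
    rintro f (hf | rfl)
    exacts [h.val f hf l hl, iz_int _]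
  clear hM
  induction M with
  | zero => simpa using a _ xm
  | succ m ih =>
    refine ih fun f hf => ?_
    obtain ⟨r, hr, g, hg, k⟩ := st f hf
    refine h.ext _ _ (R.add_mem (R.mul_mem (eFr_pow (p := p) R m) hr) (a g hg)) fun l hl => ?_
    simp only [Pi.add_apply, Pi.mul_apply, k l hl]
    ring

/-- `G c = E c / E (c + 1)`, where `[c] = c * E c` as in `qi_bin` with `K + 1`. -/
theorem gq_ex (h : Fr p S R) (h2 : p ≠ 2) (q2 : 2 ≤ q) (hq : q ≡ 1 [MOD p]) (K : ℕ) :
    ∃ G : ℤ → F, (∀ c : ℤ, |c| ≤ K → ∃ a : ℚ, G c = a) ∧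
      (∀ c : ℤ, c ≠ 0 → |c| ≤ K → G c * G (-c) * ps (q : F) c = ps 1 c) ∧
      ∀ x : L → ℤ, (fun l => (x l : F)) ∈ R → (∀ l ∈ S, |x l| ≤ K) → ∃ g ∈ R, ∃ k ∈ R, ∀ l ∈ S,
        G (x l) = 1 + p * g l ∧
        (x l ≠ 0 → (qi (q : F) (x l))⁻¹ * G (x l) - (x l : F)⁻¹ = p * k l) := by
  obtain ⟨B, hB, e⟩ := qi_bin (F := F) h2 q2 hq (K + 1)
  have z0 : ∀ c : ℤ, Iz F p (((c : F) - 1) * B c) := fun c => by
    simpa using (iz_int (F := F) (p := p) (c - 1)).mul (eFr_pf hB c)
  have z1 : ∀ c : ℤ, Iz F p ((c : F) * B (c + 1)) := fun c => (iz_int c).mul (eFr_pf hB _)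
  have e0 : ∀ c : ℤ, |c| ≤ K → qi (q : F) c = c * (1 + p * (((c : F) - 1) * B c)) :=
    fun c hc => e c (by push_cast; omega)
  have e1 : ∀ c : ℤ, |c| ≤ K → qi (q : F) (c + 1) = (c + 1) * (1 + p * ((c : F) * B (c + 1))) :=
    fun c hc => by
      have := e (c + 1) (by rw [abs_le] at hc ⊢; push_cast; omega)
      simpa using this
  refine ⟨fun c => (1 + p * (((c : F) - 1) * B c)) * (1 + p * ((c : F) * B (c + 1)))⁻¹,
    fun c _ => eFr_rat (Iz.mul ?_ (z1 c).unit.2), fun c hc hK => ?_, fun x hx hK => ?_⟩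
  · simpa using (iz_int (F := F) (p := p) 1).add ((iz_int (F := F) (p := p) p).mul (z0 c))
  · have g := gq_nat (F := F) q2
    have g1 : Gq (1 : F) :=
      ⟨one_ne_zero, fun c hc => by rw [qi_one]; exact Int.cast_ne_zero.2 hc⟩
    have a := g.ps_eq hc
    have b := g1.ps_eq hc
    have k0 := qi_add g.1 c (-c)
    have k1 := qi_add g.1 (c + -1) (-c + 1)
    rw [add_neg_cancel, qi_0, e0 c hK, e0 (-c) (by rwa [abs_neg])] at k0
    rw [show c + -1 + (-c + 1) = 0 by ring, qi_0, e1 (-c) (by rwa [abs_neg])] at k1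
    rw [e0 c hK, e1 c hK] at a
    simp only [qi_one] at b
    have w : (q : F) ^ c = q * (q : F) ^ (c + -1) := by
      rw [← zpow_one_add₀ g.1]
      congr 1
      ring
    have n0 := (z0 c).unit.1
    have n1 := (z1 c).unit.1
    have n2 := (z1 (-c)).unit.1
    have c0 : (c : F) ≠ 0 := Int.cast_ne_zero.2 hc
    rw [w] at k0
    beta_reduce
    generalize 1 + p * (((c : F) - 1) * B c) = E0 at *
    generalize 1 + p * ((c : F) * B (c + 1)) = E1 at *
    generalize 1 + p * ((((-c : ℤ) : F) - 1) * B (-c)) = E2 at *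
    generalize 1 + p * (((-c : ℤ) : F) * B (-c + 1)) = E3 at *
    generalize (q : F) ^ (c + -1) = z at *
    push_cast at *
    have k2 : E0 = q * z * E2 := mul_left_cancel₀ c0 (by linear_combination -k0)
    have k3 : E0 * E2 * ps (q : F) c = ps 1 c * (E1 * E3) :=
      mul_left_cancel₀ (mul_ne_zero (mul_ne_zero c0 c0) n0) (by
        linear_combination E2 * a - E0 * E1 * E3 * b - E2 * q * (c + 1) * E1 * k1
          - (c + 1) * (c - 1) * E1 * E3 * k2)
    field_simp
    linear_combination k3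
  · have b0 := h.comp hx hB
    have b1 := h.comp hx (pf_shift hB 1)
    have i := h.inv (R.mul_mem hx b1)
    refine ⟨_, R.mul_mem (R.sub_mem (R.mul_mem (R.sub_mem hx R.one_mem) b0) (R.mul_mem hx b1)) i,
      _, R.neg_mem (R.mul_mem b1 i), fun l hl => ⟨?_, fun k => ?_⟩⟩
    · simp only [Pi.sub_apply, Pi.mul_apply, Pi.one_apply]
      linear_combination mul_inv_cancel₀ (z1 (x l)).unit.1
    · have n0 := mul_inv_cancel₀ (z0 (x l)).unit.1
      have n1 := mul_inv_cancel₀ (z1 (x l)).unit.1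
      have c0 := mul_inv_cancel₀ (Int.cast_ne_zero (α := F).2 k)
      simp only [Pi.neg_apply, Pi.mul_apply, e0 _ (hK l hl), mul_inv]
      generalize (1 + p * ((x l : F) * B (x l + 1)))⁻¹ = u at *
      generalize (1 + p * (((x l : F) - 1) * B (x l)))⁻¹ = v at *
      linear_combination (x l : F)⁻¹ * u * n0 + (x l : F)⁻¹ * n1 - p * B (x l + 1) * u * c0

end Pool.Agent.Lib.MP_1ae3da_al.CT.A
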