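import Pool.Agent.Lib.MP_1ae3da_al.E.Df

/-! Extension of an exact homomorphism from a subgroup of index prime to `p`. -/

namespace Pool.Agent.Lib.MP_1ae3da_al.CT.Z

variable {F A N : Type} [Field F] [CharZero F] [Ring A] [Algebra F A] [Group N] [Finite N]
  {p : ℕ} {Λ : AddSubgroup A} {T M : Subgroup N} {b : N → A}

omit [CharZero F] [Finite N] in
theorem eGl_tri (h : Bs F p Λ T b) {x y z : N} {u v w : A} (hu : u - b x ∈ Lk F p 1 Λ)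
    (hv : v - b y ∈ Lk F p 1 Λ) (hw : w - b z ∈ Lk F p 1 Λ) :
    u * v * w - b (x * y * z) ∈ Lk F p 1 Λ := by
  have two : ∀ {x y : N} {u v : A}, u - b x ∈ Lk F p 1 Λ → v - b y ∈ Lk F p 1 Λ →
      u * v - b (x * y) ∈ Lk F p 1 Λ := fun {x y u v} hu hv => by
    have hv' : v ∈ Λ := by simpa using add_mem (Lk_le hv) (h.ap.mem y)
    have e : u * v - b (x * y) = (u - b x) * v + b x * (v - b y) + (b x * b y - b (x * y)) := by
      noncomm_ring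
    rw [e]
    exact add_mem (add_mem (h.lt.mul_right hu hv') (h.lt.mul_left (h.ap.mem x) hv)) (h.ap.df x y)
  exact two (two hu hv) hw

omit [CharZero F] [Finite N] in
theorem eGl_two (h : Bs F p Λ T b) {x y : N} {u v : A} (hu : u - b x ∈ Lk F p 1 Λ)
    (hv : v - b y ∈ Lk F p 1 Λ) : u * v - b (x * y) ∈ Lk F p 1 Λ := by
  have := eGl_tri h (z := 1) (w := 1) hu hv (by rw [h.one, sub_self]; exact zero_mem _)
  rwa [mul_one, mul_one] at this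

open Classical in
/-- the extension by zero. -/
noncomputable def eGl_th (Θ : M →* A) (x : N) : A := if h : x ∈ M then Θ ⟨x, h⟩ else 0

omit [Finite N] in
theorem eGl_val (Θ : M →* A) (d : M) : eGl_th Θ d = Θ d := dif_pos d.2

omit [Finite N] in
theorem eGl_mul (Θ : M →* A) {x y : N} (hx : x ∈ M) (hy : y ∈ M) :
    eGl_th Θ (x * y) = eGl_th Θ x * eGl_th Θ y := by
  have := map_mul Θ ⟨x, hx⟩ ⟨y, hy⟩
  rwa [← eGl_val, ← eGl_val, ← eGl_val] at this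

omit [Finite N] in
theorem eGl_dM (hT : T ≤ M) {δ : MulAut N} (hδ : ∀ x, δ x * x⁻¹ ∈ T) {d : N} (hd : d ∈ M) :
    δ d ∈ M := by
  simpa using mul_mem (hT (hδ d)) hd

theorem eGl_avg (h : Bs F p Λ T b) (hT : T ≤ M) (θ : N → A)
    (hm : ∀ x ∈ M, ∀ y ∈ M, θ (x * y) = θ x * θ y) (h1 : ∀ d ∈ M, θ d - b d ∈ Lk F p 1 Λ)
    (h2 : ∀ t ∈ T, θ t = b t) (y : N)
    (hy : ¬ p ∣ T.relIndex (M ⊓ M.map (MulAut.conj y).toMonoidHom)) :
    ∃ I : A, I - b y ∈ Lk F p 1 Λ ∧ (∀ k ∈ M, ∀ k' ∈ M, k * y = y * k' → θ k * I = I * θ k') ∧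
      ∀ σ γ δ, Sy F Λ b σ γ δ → (∀ x, δ x * x⁻¹ ∈ T) →
        (∀ d ∈ M, γ (θ d) = θ (δ d)) → γ I = b (δ y * y⁻¹) * I := by
  have nT := h.nrm
  have hK : ∀ z, z ∈ M ⊓ M.map (MulAut.conj y).toMonoidHom ↔ z ∈ M ∧ y⁻¹ * z * y ∈ M := fun z => by
    rw [Subgroup.mem_inf, Subgroup.mem_map_equiv]
    simp
  generalize M ⊓ M.map (MulAut.conj y).toMonoidHom = K at hy hK
  have := Fintype.ofFinite K
  have m1 : ∀ z ∈ K, z ∈ M := fun z hz => ((hK z).1 hz).1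
  have m2 : ∀ z ∈ K, y⁻¹ * z⁻¹ * y ∈ M := fun z hz => ((hK _).1 (inv_mem hz)).2
  have cj : ∀ t ∈ T, ∀ g, g⁻¹ * t * g ∈ T := fun t ht g => by
    simpa using nT.conj_mem t ht g⁻¹
  have inv : ∀ z ∈ K, ∀ t ∈ T, θ (z * t) * b y * θ (y⁻¹ * (z * t)⁻¹ * y) =
      θ z * b y * θ (y⁻¹ * z⁻¹ * y) := fun z hz t ht => by
    have e : y⁻¹ * (z * t)⁻¹ * y = y⁻¹ * t⁻¹ * y * (y⁻¹ * z⁻¹ * y) := by group
    have c := cj _ (inv_mem ht) y
    rw [e, hm _ (hT c) _ (m2 z hz), hm _ (m1 z hz) _ (hT ht), h2 _ ht, h2 _ c, mul_assoc (θ z),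
      ← (h.ap.ex t ht y).1, ← mul_assoc, mul_assoc (θ z), ← (h.ap.ex _ c _).2]
    congr 3
    group
  have c0 : (Nat.card K : F) ≠ 0 := Nat.cast_ne_zero.2 Nat.card_pos.ne'
  refine ⟨(Nat.card K : F)⁻¹ • ∑ z : K, θ z * b y * θ (y⁻¹ * (z : N)⁻¹ * y), ?_,
    fun k hk k' hk' e => ?_, fun σ γ δ hs hδ hθ => ?_⟩
  · have := kz_avg (c := 1) (w := 0) (D := T.subgroupOf K) h.prime.ne_zero h.lt
      (by rw [pow_zero, one_mul]; rfl) hy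
      (f := fun z : K => θ z * b y * θ (y⁻¹ * (z : N)⁻¹ * y) - b y) (fun z => by
        have := eGl_tri h (h1 _ (m1 z z.2)) (y := y) (v := b y) (by rw [sub_self]; exact zero_mem _)
          (h1 _ (m2 z z.2))
        rwa [show (z : N) * y * (y⁻¹ * (z : N)⁻¹ * y) = y by group] at this)
      fun z d hd => by rw [Subgroup.coe_mul, inv z z.2 d hd]
    rwa [Finset.sum_sub_distrib, Finset.sum_const, Finset.card_univ, ← Nat.card_eq_fintype_card,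
      ← Nat.cast_smul_eq_nsmul F, smul_sub, inv_smul_smul₀ c0] at this
  · have kK : k ∈ K := (hK k).2 ⟨hk, by rwa [mul_assoc, e, inv_mul_cancel_left]⟩
    rw [mul_smul_comm, smul_mul_assoc, Finset.mul_sum, Finset.sum_mul,
      ← Equiv.sum_comp (Equiv.mulLeft (⟨k, kK⟩ : K))
        fun z : K => θ z * b y * θ (y⁻¹ * (z : N)⁻¹ * y) * θ k']
    congr 1
    refine Finset.sum_congr rfl fun z _ => ?_
    change _ = θ (k * z) * b y * θ (y⁻¹ * (k * (z : N))⁻¹ * y) * θ k'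
    rw [mul_assoc _ _ (θ k'), ← hm _ (m2 _ (mul_mem kK z.2)) _ hk', hm _ hk _ (m1 z z.2),
      mul_assoc _ y k', ← e]
    simp only [mul_assoc, mul_inv_rev, inv_mul_cancel_left]
  · rw [hs.1, map_inv₀, map_natCast, map_sum, mul_smul_comm, Finset.mul_sum]
    congr 1
    refine Finset.sum_congr rfl fun z _ => ?_
    obtain ⟨s, hs', e⟩ : ∃ s ∈ T, δ y = s * y := ⟨_, hδ y, by group⟩
    have ht : (z : N)⁻¹ * s⁻¹ * δ z * s ∈ T := by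
      have := mul_mem (mul_mem (cj _ (inv_mem hs') z) (cj _ (hδ z) z)) hs'
      rwa [show (z : N)⁻¹ * s⁻¹ * z * ((z : N)⁻¹ * (δ z * (z : N)⁻¹) * z) * s =
        (z : N)⁻¹ * s⁻¹ * δ z * s by group] at this
    have dz := eGl_dM hT hδ (m1 z z.2)
    rw [map_mul, map_mul, hθ _ (m1 z z.2), hθ _ (m2 z z.2), hs.2.2, ← inv z z.2 _ ht, map_mul,
      map_mul, map_inv, map_inv, e, mul_inv_cancel_right, (h.ap.ex s hs' y).1, ← h2 s hs',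
      ← mul_assoc (θ (δ z)), ← mul_assoc (θ s), ← mul_assoc (θ s), ← hm _ dz _ (hT hs'),
      ← hm _ (hT hs') _ (mul_mem (m1 z z.2) (hT ht))]
    refine congrArg₂ (fun a c => θ a * b y * θ c) ?_ ?_ <;> group

/-- the intertwiner on a double coset whose intersection has index prime to `p` over `T`. -/
theorem Bs.avg (h : Bs F p Λ T b) (hT : T ≤ M) (Θ : M →* A) (h1 : ∀ d, Θ d - b d ∈ Lk F p 1 Λ)
    (h2 : ∀ t : M, (t : N) ∈ T → Θ t = b t) (y : N)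
    (hy : ¬ p ∣ T.relIndex (M ⊓ M.map (MulAut.conj y).toMonoidHom)) :
    ∃ I : A, I - b y ∈ Lk F p 1 Λ ∧ (∀ k k' : M, (k : N) * y = y * k' → Θ k * I = I * Θ k') ∧
      ∀ σ γ δ, Sy F Λ b σ γ δ → (∀ x, δ x * x⁻¹ ∈ T) →
        (∀ d d' : M, (d' : N) = δ d → γ (Θ d) = Θ d') → γ I = b (δ y * y⁻¹) * I := by
  obtain ⟨I, a1, a2, a3⟩ := eGl_avg h hT (eGl_th Θ) (fun _ hx _ hy => eGl_mul Θ hx hy)
    (fun d hd => (eGl_val Θ ⟨d, hd⟩).symm ▸ h1 ⟨d, hd⟩)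
    (fun t ht => (eGl_val Θ ⟨t, hT ht⟩).trans (h2 _ ht)) y hy
  refine ⟨I, a1, fun k k' e => ?_, fun σ γ δ hs hδ hθ => a3 σ γ δ hs hδ fun d hd => ?_⟩
  · rw [← eGl_val, ← eGl_val]
    exact a2 k k.2 k' k'.2 e
  · exact (congrArg γ (eGl_val Θ ⟨d, hd⟩)).trans
      ((hθ _ ⟨_, eGl_dM hT hδ hd⟩ rfl).trans (eGl_val Θ ⟨_, eGl_dM hT hδ hd⟩).symm)

omit [Finite N] in
/-- a map on `N` from one intertwiner for each double coset. -/
theorem eGl_def (θ : N → A) (hm : ∀ x ∈ M, ∀ y ∈ M, θ (x * y) = θ x * θ y)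
    (P : N → A → Prop) (hP : ∀ y I, P y I → ∀ k ∈ M, ∀ k' ∈ M, k * y = y * k' → θ k * I = I * θ k')
    (p1 : P 1 1) (ex : ∀ x, ∃ y I, P y I ∧ ∃ d ∈ M, ∃ d' ∈ M, x = d * y * d') :
    ∃ θ' : N → A, ∀ x, ∃ y I, P y I ∧ (x ∈ M → y = 1 ∧ I = 1) ∧
      (∃ d ∈ M, ∃ d' ∈ M, x = d * y * d') ∧
      ∀ d ∈ M, ∀ d' ∈ M, θ' (d * y * d') = θ d * I * θ d' := by
  let C : N → Set N := fun x => {z | ∃ d ∈ M, ∃ d' ∈ M, x = d * z * d'}
  have e1 : ∀ S : Set N, ∃ y I, ∀ x, S = C x → y ∈ S ∧ P y I ∧ (1 ∈ S → y = 1 ∧ I = 1) :=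
    fun S => by
    by_cases h1 : 1 ∈ S
    · exact ⟨1, 1, fun _ _ => ⟨h1, p1, fun _ => ⟨rfl, rfl⟩⟩⟩
    by_cases h2 : ∃ x, S = C x
    · obtain ⟨x, rfl⟩ := h2
      obtain ⟨y, I, a, c⟩ := ex x
      exact ⟨y, I, fun _ _ => ⟨c, a, fun k => (h1 k).elim⟩⟩
    · exact ⟨1, 1, fun x k => (h2 ⟨x, k⟩).elim⟩
  choose Y J hY using e1
  choose D hD D' hD' e using fun x => (hY (C x) x rfl).1
  refine ⟨fun x => θ (D x) * J (C x) * θ (D' x), fun x => ⟨Y (C x), J (C x), (hY _ x rfl).2.1,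
    fun hx => (hY _ x rfl).2.2 ⟨x, hx, 1, one_mem _, by rw [mul_one, mul_one]⟩,
    ⟨_, hD x, _, hD' x, e x⟩, fun d hd d' hd' => ?_⟩⟩
  have c : C (d * Y (C x) * d') = C x := by
    have ex := e x
    generalize Y (C x) = y at ex
    ext z
    constructor
    · rintro ⟨a, ha, a', ha', k⟩
      refine ⟨D x * d⁻¹ * a, mul_mem (mul_mem (hD x) (inv_mem hd)) ha, a' * d'⁻¹ * D' x,
        mul_mem (mul_mem ha' (inv_mem hd')) (hD' x), ?_⟩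
      calc x = D x * y * D' x := ex
        _ = D x * d⁻¹ * (d * y * d') * d'⁻¹ * D' x := by group
        _ = _ := by rw [k]; group
    · rintro ⟨a, ha, a', ha', k⟩
      refine ⟨d * (D x)⁻¹ * a, mul_mem (mul_mem hd (inv_mem (hD x))) ha, a' * (D' x)⁻¹ * d',
        mul_mem (mul_mem ha' (inv_mem (hD' x))) hd', ?_⟩
      calc _ = d * (D x)⁻¹ * (D x * y * D' x) * (D' x)⁻¹ * d' := by group
        _ = d * (D x)⁻¹ * (a * z * a') * (D' x)⁻¹ * d' := by rw [← ex, ← k]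
        _ = _ := by group
  have k := e (d * Y (C x) * d')
  have a1 := hD (d * Y (C x) * d')
  have a2 := hD' (d * Y (C x) * d')
  simp only [c] at k ⊢
  generalize D (d * Y (C x) * d') = a at *
  generalize D' (d * Y (C x) * d') = a' at *
  have := hP _ _ (hY _ x rfl).2.1 (d⁻¹ * a) (mul_mem (inv_mem hd) a1) (d' * a'⁻¹)
    (mul_mem hd' (inv_mem a2)) (by
      calc _ = d⁻¹ * (a * Y (C x) * a') * a'⁻¹ := by group
        _ = _ := by rw [← k]; group)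
  calc _ = θ (d * (d⁻¹ * a)) * J (C x) * θ a' := by rw [mul_inv_cancel_left]
    _ = θ d * J (C x) * θ (d' * a'⁻¹ * a') := by
      rw [hm _ hd _ (mul_mem (inv_mem hd) a1), mul_assoc (θ d), this,
        hm _ (mul_mem hd' (inv_mem a2)) _ a2]
      simp only [mul_assoc]
    _ = _ := by rw [inv_mul_cancel_right]

theorem Bs.glue (h : Bs F p Λ T b) (hT : T ≤ M) (hi : ¬ p ∣ M.index) (Θ : M →* A)
    (h1 : ∀ d, Θ d - b d ∈ Lk F p 1 Λ) (h2 : ∀ t : M, (t : N) ∈ T → Θ t = b t)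
    (h4 : ∀ x, ¬ p ∣ T.relIndex (M ⊓ M.map (MulAut.conj x).toMonoidHom) ∨ ∃ d ∈ M, ∃ d' ∈ M,
      ∀ k k' : M, (k : N) * (d * x * d') = d * x * d' * k' →
        Θ k * b (d * x * d') = b (d * x * d') * Θ k') :
    ∃ Θ' : N →* A, (∀ x, Θ' x - b x ∈ Lk F p 1 Λ) ∧ (∀ t ∈ T, Θ' t = b t) ∧
      ∀ σ γ δ, Sy F Λ b σ γ δ → (∀ x, δ x * x⁻¹ ∈ T) →
        (∀ d d' : M, (d' : N) = δ d → γ (Θ d) = Θ d') → ∀ x, γ (Θ' x) = Θ' (δ x) := by
  have hm : ∀ x ∈ M, ∀ y ∈ M, eGl_th Θ (x * y) = eGl_th Θ x * eGl_th Θ y :=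
    fun _ hx _ hy => eGl_mul Θ hx hy
  have g1 : ∀ d ∈ M, eGl_th Θ d - b d ∈ Lk F p 1 Λ :=
    fun d hd => (eGl_val Θ ⟨d, hd⟩).symm ▸ h1 ⟨d, hd⟩
  have g2 : ∀ t ∈ T, eGl_th Θ t = b t := fun t ht => (eGl_val Θ ⟨t, hT ht⟩).trans (h2 _ ht)
  have z0 : ∀ a : A, a - a ∈ Lk F p 1 Λ := fun a => by rw [sub_self]; exact zero_mem _
  obtain ⟨θ, hθ⟩ := eGl_def (eGl_th Θ) hm (fun y I => I - b y ∈ Lk F p 1 Λ ∧
      (∀ k ∈ M, ∀ k' ∈ M, k * y = y * k' → eGl_th Θ k * I = I * eGl_th Θ k') ∧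
      ∀ σ γ δ, Sy F Λ b σ γ δ → (∀ x, δ x * x⁻¹ ∈ T) →
        (∀ d ∈ M, γ (eGl_th Θ d) = eGl_th Θ (δ d)) → γ I = b (δ y * y⁻¹) * I)
    (fun _ _ k => k.2.1)
    ⟨h.one ▸ z0 _, fun k _ k' _ e => by
      rw [mul_one, one_mul] at e
      rw [e, mul_one, one_mul], fun σ γ δ _ _ _ => by simp [h.one]⟩ fun x => by
    rcases h4 x with k | ⟨d, hd, d', hd', k⟩
    · obtain ⟨I, a⟩ := eGl_avg h hT _ hm g1 g2 x k
      exact ⟨x, I, a, 1, one_mem _, 1, one_mem _, by rw [one_mul, mul_one]⟩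
    · refine ⟨d * x * d', b (d * x * d'), ⟨z0 _, fun a ha a' ha' e => ?_, fun σ γ δ hs hδ _ => ?_⟩,
        d⁻¹, inv_mem hd, d'⁻¹, inv_mem hd', by group⟩
      · have := k ⟨a, ha⟩ ⟨a', ha'⟩ e
        rwa [← eGl_val, ← eGl_val] at this
      · rw [hs.2.2, ← (h.ap.ex _ (hδ _) _).1, inv_mul_cancel_right]
  have o1 : eGl_th Θ 1 = 1 := (g2 1 (one_mem _)).trans h.one
  have t1 : ∀ x, θ x - b x ∈ Lk F p 1 Λ := fun x => by
    obtain ⟨y, I, a, -, ⟨d, hd, d', hd', rfl⟩, e⟩ := hθ x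
    rw [e d hd d' hd']
    exact eGl_tri h (g1 d hd) a.1 (g1 d' hd')
  have t2 : ∀ d ∈ M, θ d = eGl_th Θ d := fun d hd => by
    obtain ⟨y, I, -, a, -, e⟩ := hθ d
    obtain ⟨rfl, rfl⟩ := a hd
    simpa [o1] using e d hd 1 (one_mem _)
  have t3 : ∀ d ∈ M, Exa θ d := fun d hd x => by
    obtain ⟨y, I, -, -, ⟨a, ha, a', ha', rfl⟩, e⟩ := hθ x
    rw [t2 d hd, e a ha a' ha', ← mul_assoc, ← mul_assoc, e _ (mul_mem hd ha) a' ha', mul_assoc _ a',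
      e a ha _ (mul_mem ha' hd), hm _ hd _ ha, hm _ ha' _ hd]
    simp only [mul_assoc, and_self]
  obtain ⟨Φ, f1, f2, f3, f4⟩ := kz (w := 0) (c := 1) (D := M) (θ := θ) h.prime.ne_zero h.lt
    (by rw [pow_zero, one_mul]) hi (by omega)
    ⟨fun x => by simpa using add_mem (Lk_le (t1 x)) (h.ap.mem x),
      fun x y => by simpa using sub_mem (eGl_two h (t1 x) (t1 y)) (t1 (x * y)), t3⟩
  have f5 : ∀ t ∈ T, Φ t = b t := fun t ht => by rw [f3 t (t3 t (hT ht)), t2 t (hT ht), g2 t ht]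
  refine ⟨⟨⟨Φ, (f5 1 (one_mem _)).trans h.one⟩, f1⟩, fun x => ?_, f5,
    fun σ γ δ hs hδ k => f4 σ γ δ hs.1 hs.2.1 fun x => ?_⟩
  · simpa using add_mem (f2 x) (t1 x)
  · have k' : ∀ d ∈ M, γ (eGl_th Θ d) = eGl_th Θ (δ d) := fun d hd =>
      (congrArg γ (eGl_val Θ ⟨d, hd⟩)).trans
        ((k _ ⟨_, eGl_dM hT hδ hd⟩ rfl).trans (eGl_val Θ ⟨_, eGl_dM hT hδ hd⟩).symm)
    obtain ⟨y, I, a, -, ⟨d, hd, d', hd', rfl⟩, e⟩ := hθ x
    have dd := eGl_dM hT hδ hd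
    rw [e d hd d' hd', map_mul, map_mul, k' d hd, k' d' hd', a.2.2 σ γ δ hs hδ k',
      ← g2 _ (hδ y), ← mul_assoc, ← hm _ dd _ (hT (hδ y)),
      ← e _ (mul_mem dd (hT (hδ y))) _ (eGl_dM hT hδ hd'), map_mul, map_mul]
    congr 2
    group

end Pool.Agent.Lib.MP_1ae3da_al.CT.Z
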