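import Pool.Agent.Lib.MP_1ae3da_al.A.Nt

/-! The homomorphism of type `A` for an arbitrary normalising factor. -/

namespace Pool.Agent.Lib.MP_1ae3da_al.CT.A

open Equiv

section pre
variable {F A N L : Type} [Field F] [Ring A] [Algebra F A] [Group N]
  {q : ℕ} {u : F} {n : ℕ} {T : Subgroup N} {s : ℕ → N} {ι : N → A}
  {ev : (L → F) →ₐ[F] A} {S : Finset L} {sw : ℕ → L → L} {r : ℕ → ℕ → L → Prop}
  {x : ℕ → L → ℤ} {τ0 : ℕ → A} {i j : ℕ} {φ : A} {G : ℤ → F}

open Classical in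
/-- the normalising factor. -/
noncomputable def eGn_f (r : ℕ → ℕ → L → Prop) (x : ℕ → L → ℤ) (G : ℤ → F) (u : F) (a b : ℕ)
    (l : L) : F := if r a b l then G (x a l - x b l) else u⁻¹

/-- the normalised intertwiner. -/
noncomputable def eGn_p (ev : (L → F) →ₐ[F] A) (r : ℕ → ℕ → L → Prop) (x : ℕ → L → ℤ)
    (τ0 : ℕ → A) (G : ℤ → F) (u : F) (i : ℕ) : A :=
  pV ev r x τ0 u u i * ev (eGn_f r x G u i (i + 1))

namespace Pre
variable (h : Pre q u n T s ι ev S sw r x τ0)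
include h

theorem eGn_mv (hi : i < n) (k : Itw ev (sw i) φ) (a b : ℕ) : φ * ev (eGn_f r x G u a b) =
    ev (eGn_f r x G u (swap i (i + 1) a) (swap i (i + 1) b)) * φ := by
  rw [k]
  congr 2
  funext l
  rw [eGn_f, eGn_f, propext (h.rsw i hi a b l), h.xsw i hi, h.xsw i hi]

theorem eGn_int (hi : i < n) : Itw ev (sw i) (eGn_p ev r x τ0 G u i) := (h.p_int hi).mul _

variable [CharZero F]

theorem eGn_tor (hi : i < n) {t : N} (ht : t ∈ T) :
    (eGn_p ev r x τ0 G u i - ev (fA r x 1 i (i + 1))) * ι t =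
      ι (s i * t * (s i)⁻¹) * (eGn_p ev r x τ0 G u i - ev (fA r x 1 i (i + 1))) := by
  rw [eGn_p, h.p_u, sub_mul, mul_sub, h.a_tor hi ht, mul_assoc _ _ (ι t), ← (h.ie t ht _).eq,
    ← mul_assoc, add_mul, h.tor i hi t ht, h.a_tor hi ht, ← mul_add, mul_assoc]

omit h in
theorem eGn_g1 : Gq (1 : F) :=
  ⟨one_ne_zero, fun c hc => by rw [qi_one]; exact Int.cast_ne_zero.2 hc⟩

variable (hG : ∀ i < n, ∀ l ∈ S, r i (i + 1) l → G (x i l - x (i + 1) l) *
  G (-(x i l - x (i + 1) l)) * ps (u * u) (x i l - x (i + 1) l) = ps 1 (x i l - x (i + 1) l))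
include hG

theorem eGn_sq (hi : i < n) : eGn_p ev r x τ0 G u i * eGn_p ev r x τ0 G u i =
    (1 : F) • ι (s i * s i) + ev (fA r x 1 i (i + 1)) * ev (fA r x 1 (i + 1) i) := by
  have e := h.sq_exp h.gu hi (h.p_int (v := u) hi)
  rw [← tV, h.t_u, h.qd i hi, add_sub_cancel_right, eq_sub_iff_add_eq] at e
  have m := h.eGn_mv (G := G) hi (h.p_int (v := u) hi) (i + 1) i
  rw [swap_apply_left, swap_apply_right] at m
  have z : ι (s i * s i) * ev (fun l => u * u * (eGn_f r x G u (i + 1) i l *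
      eGn_f r x G u i (i + 1) l) - 1) =
      ev fun l => u * u * (eGn_f r x G u (i + 1) i l * eGn_f r x G u i (i + 1) l) - 1 := by
    rw [h.eabs (a := i) (b := i + 1) fun l hl z => ?_, ← mul_assoc, h.e1 i hi]
    have := h.u0
    rw [eGn_f, eGn_f, propext (h.r21 hi hl), if_neg z, if_neg z]
    field_simp
    ring
  have z2 : (u * u) • (ι (s i * s i) * (ev (eGn_f r x G u (i + 1) i) *
      ev (eGn_f r x G u i (i + 1)))) = (1 : F) • ι (s i * s i) +
        ev fun l => u * u * (eGn_f r x G u (i + 1) i l * eGn_f r x G u i (i + 1) l) - 1 := by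
    rw [← z, ← ev_sub, ← ev_smul, ← ev_mul, mul_sub, mul_smul_comm, ev_one, mul_one, one_smul,
      add_sub_cancel]
  rw [eGn_p, mul_assoc, ← mul_assoc (ev _), ← m, ← mul_assoc, ← mul_assoc, ← e, mul_assoc, add_mul,
    smul_mul_assoc, z2, add_assoc (_ • _)]
  congr 1
  simp only [ev_mul, ev_add]
  refine h.ext.2 fun l hl => ?_
  unfold fA eGn_f
  rw [propext (h.r21 hi hl)]
  by_cases k : r i (i + 1) l
  · have := hG i hi l hl k
    rw [← neg_sub (x i l) (x (i + 1) l)]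
    generalize x i l - x (i + 1) l = c at this
    simp only [if_pos k]
    rw [ps, ps] at this
    linear_combination this
  · have := h.u0
    simp only [if_neg k]
    field_simp
    ring

theorem eGn_t2 (hi : i < n) : (eGn_p ev r x τ0 G u i - ev (fA r x 1 i (i + 1))) *
    (eGn_p ev r x τ0 G u i - ev (fA r x 1 i (i + 1))) = ι (s i * s i) := by
  have e := h.sq_exp eGn_g1 hi (h.eGn_int (G := G) hi)
  rwa [h.eGn_sq hG hi, add_sub_cancel_right, sub_self, zero_smul, sub_zero, one_smul] at e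

theorem eGn_brd : Brd n fun i => eGn_p ev r x τ0 G u i - ev (fA r x 1 i (i + 1)) := by
  have gu : Gd u u := Or.inr (Or.inl rfl)
  refine ⟨fun i j hij hj => ?_, fun i hi => ?_⟩
  · have hi : i < n := by omega
    have e := h.far_exp (Q := u * u) hij hj (h.p_int (v := u) hi) (h.p_int (v := u) hj)
    rw [← tV, ← tV, h.t_u, h.t_u, h.bt.far i j hij hj, sub_self, eq_comm, sub_eq_zero] at e
    have e1 := h.eGn_mv (G := G) hi (h.p_int (v := u) hi) j (j + 1)
    have e2 := h.eGn_mv (G := G) hj (h.p_int (v := u) hj) i (i + 1)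
    rw [swap_apply_of_ne_of_ne (by omega) (by omega), swap_apply_of_ne_of_ne (by omega) (by omega)]
      at e1 e2
    rw [← sub_eq_zero, h.far_exp hij hj (h.eGn_int hi) (h.eGn_int hj), sub_eq_zero,
      eGn_p, eGn_p, mul_assoc, ← mul_assoc (ev _), ← e2, mul_assoc (pV _ _ _ _ _ _ j),
      mul_assoc (pV _ _ _ _ _ _ j), ← mul_assoc (ev _), ← e1, mul_assoc (pV _ _ _ _ _ _ i),
      ← mul_assoc, e, mul_assoc, (ev_comm _ _).eq]
  · have hi0 : i < n := by omega
    have k1 := h.p_int (v := u) hi0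
    have k2 := h.p_int (v := u) hi
    have e := h.br_fam h.gu hi k1 k2 (h.p_sq gu hi0) (h.p_sq gu hi)
    rw [← tV, ← tV, h.t_u, h.t_u, h.bt.br i hi, sub_self, eq_comm, sub_eq_zero] at e
    rw [← sub_eq_zero, h.br_fam eGn_g1 hi (h.eGn_int hi0) (h.eGn_int hi)
      (h.eGn_sq hG hi0) (h.eGn_sq hG hi), sub_eq_zero, eGn_p, eGn_p]
    have a1 := h.eGn_mv (G := G) hi k2 i (i + 2)
    have a2 := h.eGn_mv (G := G) hi0 k1 (i + 1) (i + 2)
    have a3 := h.eGn_mv (G := G) hi0 k1 i (i + 2)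
    have a4 := h.eGn_mv (G := G) hi k2 i (i + 1)
    rw [sw1, swap_apply_right] at a1
    rw [swap_apply_right, sw0] at a2
    rw [swap_apply_left, sw0] at a3
    rw [sw1, swap_apply_left] at a4
    generalize pV ev r x τ0 u u i = φ at *
    generalize pV ev r x τ0 u u (i + 1) = ψ at *
    have c1 := (ev_comm (ev := ev) (eGn_f r x G u i (i + 1)) (eGn_f r x G u i (i + 2))).eq
    have c2 := (ev_comm (ev := ev) (eGn_f r x G u i (i + 1)) (eGn_f r x G u (i + 1) (i + 2))).eq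
    have c3 := (ev_comm (ev := ev) (eGn_f r x G u i (i + 2)) (eGn_f r x G u (i + 1) (i + 2))).eq
    change φ * ev (eGn_f r x G u i (i + 1)) * (ψ * ev (eGn_f r x G u (i + 1) (i + 2))) *
      (φ * ev (eGn_f r x G u i (i + 1))) = ψ * ev (eGn_f r x G u (i + 1) (i + 2)) *
      (φ * ev (eGn_f r x G u i (i + 1))) * (ψ * ev (eGn_f r x G u (i + 1) (i + 2)))
    change ψ * ev (eGn_f r x G u i (i + 1)) = ev (eGn_f r x G u i (i + 2)) * ψ at a4
    generalize ev (eGn_f r x G u i (i + 1)) = h12 at *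
    generalize ev (eGn_f r x G u i (i + 2)) = h13 at *
    generalize ev (eGn_f r x G u (i + 1) (i + 2)) = h23 at *
    calc φ * h12 * (ψ * h23) * (φ * h12) = φ * (h12 * ψ) * (h23 * φ) * h12 := by
          simp only [mul_assoc]
      _ = φ * ψ * (h13 * φ) * (h13 * h12) := by rw [← a1, ← a3]; simp only [mul_assoc]
      _ = ψ * φ * ψ * (h12 * (h13 * h23)) := by
          rw [← a2, ← e, c3, ← mul_assoc h12, c2, mul_assoc h23, c1]; simp only [mul_assoc]
      _ = ψ * φ * (h13 * ψ) * (h13 * h23) := by rw [← a4]; simp only [mul_assoc]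
      _ = ψ * (h23 * φ) * (h12 * ψ) * h23 := by rw [← a1, ← a3]; simp only [mul_assoc]
      _ = _ := by simp only [mul_assoc]

end Pre

end pre

variable {F A N : Type} [Field F] [CharZero F] [Ring A] [Algebra F A] [Group N] [Finite N]
  {q n : ℕ} {T : Subgroup N} {s : ℕ → N} {π : N →* Perm ℕ} {ι : N → A} {τ : ℕ → A}
  {ev : ((ℕ × ℕ ⊕ ℕ → F) → F) →ₐ[F] A} {S : Finset (ℕ × ℕ ⊕ ℕ → F)} {u : F}

open Classical in
theorem HA.gn (h : HA F q n T s π ι τ) (k : FC (gA F q n T s π ι τ) ev S) (hu : u * u = q)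
    (G : ℤ → F) (K : ℕ) (hK : ∀ l ∈ S, ∀ a ≤ n, ∀ b ≤ n, |xA q a l - xA q b l| ≤ K)
    (h1 : ∀ c : ℤ, |c| ≤ K → ∃ a : ℚ, G c = a)
    (h2 : ∀ c : ℤ, c ≠ 0 → |c| ≤ K → G c * G (-c) * CT.A.ps (q : F) c = CT.A.ps 1 c) :
    ∃ Θ : N →* A, (∀ t ∈ T, Θ t = ι t) ∧
      (∀ i < n, Θ (s i) = (τ i + ev (fA rA (xA q) (q : F) i (i + 1))) *
        ev (fun l => if rA i (i + 1) l then G (xA q i l - xA q (i + 1) l) else u⁻¹) -
        ev (fA rA (xA q) 1 i (i + 1))) ∧
      ∀ (γ : A →+* A) (σ : RingAut F) (δ : MulAut N), (∀ (c : F) a, γ (c • a) = σ c • γ a) →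
        σ u = u → (∀ x, δ x ∈ T ↔ x ∈ T) → (∀ t ∈ T, γ (ι t) = ι (δ t)) →
        (∀ i < n, ∃ w ∈ T, δ (s i) = w * s i ∧ γ (τ i) = ι w * τ i) →
        ∀ x, γ (Θ x) = Θ (δ x) := by
  have P := h.pre k hu
  have hG : ∀ i < n, ∀ l ∈ S, rA i (i + 1) l → G (xA q i l - xA q (i + 1) l) *
      G (-(xA q i l - xA q (i + 1) l)) * CT.A.ps (u * u) (xA q i l - xA q (i + 1) l) =
        CT.A.ps 1 (xA q i l - xA q (i + 1) l) := fun i hi l hl hr => by
    rw [hu]
    exact h2 _ (P.b0 hi hl hr) (hK l hl i hi.le _ hi)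
  obtain ⟨Θ0, t1, t2⟩ := h.w.lift ι h.i1 h.im
    (fun i => eGn_p ev rA (xA q) τ G u i - ev (fA rA (xA q) 1 i (i + 1)))
    (fun i hi t ht => P.eGn_tor hi ht) (fun i hi => P.eGn_t2 hG hi) (P.eGn_brd hG)
  let Θ : N →* A := Θ0.comp Subgroup.topEquiv.symm.toMonoidHom
  have a1 : ∀ t ∈ T, Θ t = ι t := fun t ht => t1 ⟨t, trivial⟩ ht
  have a2 : ∀ i < n, Θ (s i) = (τ i + ev (fA rA (xA q) (q : F) i (i + 1))) *
      ev (eGn_f rA (xA q) G u i (i + 1)) - ev (fA rA (xA q) 1 i (i + 1)) := fun i hi => by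
    rw [← hu, ← P.p_u]
    exact t2 i hi ⟨s i, trivial⟩ rfl
  refine ⟨Θ, a1, a2, fun γ σ δ hγ hσ hT hι hs => ?_⟩
  have nv := k.nat γ σ hγ (fun j => by
    rcases j with p | a
    · exact h.n_e γ σ δ hγ hT hι hs _ _
    · rw [gA]
      split_ifs with ha
      · exact h.n_j γ σ δ hγ hι hs ha
      · exact map_zero γ) fun l hl => h.sp_fix k σ hl
  refine h.hom_ext (f := (γ : A →* A).comp Θ) (g := Θ.comp δ.toMonoidHom) (fun t ht => ?_)
    fun i hi => ?_
  · change γ (Θ t) = Θ (δ t)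
    rw [a1 t ht, hι t ht, a1 _ ((hT t).2 ht)]
  · obtain ⟨w, hw, e1, e2⟩ := hs i hi
    have k2 := h.n_w γ σ δ hγ hT hι hs hi hw e1 e2
    rw [← h.ev_E k] at k2
    have a : ∀ {y : F}, σ y = y → γ (ev (fA rA (xA q) y i (i + 1))) =
        ι w * ev (fA rA (xA q) y i (i + 1)) := fun e => by
      rw [P.eA, ← mul_assoc, k2, ← P.eA, nv]
      congr 1
      funext l
      unfold fA
      split_ifs
      · rw [map_inv₀]
        exact congrArg _ (qi_fix _ e _)
      · exact map_zero _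
    have b : γ (ev (eGn_f rA (xA q) G u i (i + 1))) = ev (eGn_f rA (xA q) G u i (i + 1)) := by
      rw [nv]
      refine k.ext.2 fun l hl => ?_
      unfold eGn_f
      split_ifs
      · obtain ⟨c, hc⟩ := h1 _ (hK l hl i hi.le _ hi)
        rw [hc]
        exact map_ratCast _ c
      · rw [map_inv₀]
        exact congrArg _ hσ
    change γ (Θ (s i)) = Θ (δ (s i))
    rw [e1, map_mul, a1 w hw, a2 i hi, map_sub, map_mul, map_add, e2, a (map_natCast σ q),
      a (map_one σ), b, ← mul_add, mul_sub, mul_assoc]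

end Pool.Agent.Lib.MP_1ae3da_al.CT.A
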