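import Pool.Agent.Lib.MP_1ae3da_al.E.Fr
import Pool.Agent.Lib.MP_1ae3da_al.E.Fq
import Pool.Agent.Lib.MP_1ae3da_al.E.Gn

/-! The homomorphism of type `A` is `p`-integral. -/

namespace Pool.Agent.Lib.MP_1ae3da_al.CT.A

open Equiv Z

variable {F A N : Type} [Field F] [CharZero F] [Ring A] [Algebra F A] [Group N] [Finite N]
  {q n : ℕ} {T : Subgroup N} {s : ℕ → N} {π : N →* Perm ℕ} {ι : N → A} {τ : ℕ → A} {u : F}
  {p : ℕ} [hp : Fact p.Prime] {Λ : AddSubgroup A}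

omit [Finite N] in
theorem eIn_qi (q2 : 2 ≤ q) (pq : ¬ p ∣ q) (c : ℤ) : Iz F p (qi (q : F) c) := by
  have q1 : (q : F) ≠ 1 := Nat.cast_ne_one.2 (by omega)
  have q0 : (q : F) ≠ 0 := Nat.cast_ne_zero.2 (by omega)
  have a : ∀ m : ℕ, Iz F p (qi (q : F) m) := fun m => by
    have := iz_int (F := F) (p := p) (∑ i ∈ Finset.range m, (q : ℤ) ^ i)
    push_cast at this
    rwa [qi, if_neg q1, zpow_natCast, ← geom_sum_eq q1]
  obtain ⟨m, rfl | rfl⟩ := c.eq_nat_or_neg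
  · exact a m
  · have := ((iz_int (F := F) (p := p) (-1)).mul
      (iz_inv (b := q ^ m) fun e => pq (hp.out.dvd_of_dvd_pow e))).mul (a m)
    convert this using 1
    have := sub_ne_zero.2 q1
    rw [qi, qi, if_neg q1, if_neg q1, zpow_neg, zpow_natCast]
    push_cast
    field_simp
    ring

omit hp in
theorem HA.sp_rat {ev : ((ℕ × ℕ ⊕ ℕ → F) → F) →ₐ[F] A} {S : Finset (ℕ × ℕ ⊕ ℕ → F)}
    (h : HA F q n T s π ι τ) (k : FC (gA F q n T s π ι τ) ev S) :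
    ∀ l ∈ S, ∀ j, ∃ c : ℚ, l j = c := by
  intro l hl j
  rcases j with p | a
  · rcases h.e01 k hl p.1 p.2 with e | e
    · exact ⟨0, by rw [show l (.inl p) = 0 from e, Rat.cast_zero]⟩
    · exact ⟨1, by rw [show l (.inl p) = 1 from e, Rat.cast_one]⟩
  · by_cases ha : a ≤ n
    · exact ⟨(q : ℚ) ^ xA q a l, by rw [h.z_x k hl ha, Rat.cast_zpow, Rat.cast_natCast]⟩
    · exact ⟨0, by rw [(k.ker _).1 ((k.co (.inr a)).trans (if_neg ha)) l hl, Rat.cast_zero]⟩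

omit hp in
theorem HA.j_int (h : HA F q n T s π ι τ) (hm : ∀ x ∈ Λ, ∀ y ∈ Λ, x * y ∈ Λ)
    (hq : ∀ x ∈ Λ, (q : F)⁻¹ • x ∈ Λ) (m1 : ∀ t ∈ T, ι t ∈ Λ) (m2 : ∀ i < n, τ i ∈ Λ)
    (m3 : ∀ g, eG F T ι g ∈ Λ) {a : ℕ} (ha : a ≤ n) :
    ∃ y ∈ Λ, jA F q s ι τ a = 1 + ((q : F) - 1) • y := by
  induction a with
  | zero => exact ⟨0, zero_mem _, by rw [jA, smul_zero, add_zero]⟩
  | succ a ih =>
    obtain ⟨y, hy, e⟩ := ih (by omega)
    have sq := h.w.sq a ha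
    refine ⟨_, hq _ (hm _ (m1 _ (inv_mem sq)) _ (add_mem (hm _ (m3 (s a)) _ (m2 a ha))
      (hm _ (hm _ (m2 a ha) _ hy) _ (m2 a ha)))), ?_⟩
    rw [jA, e, mul_add, add_mul, mul_one, h.qd a ha, mul_smul_comm, smul_mul_assoc, add_assoc,
      ← smul_add, mul_add, mul_smul_comm, mul_smul_comm, smul_add, inv_smul_smul₀ h.q0,
      ← h.im _ (inv_mem sq) _ sq, inv_mul_cancel, h.i1, smul_comm]

theorem HA.int (h : HA F q n T s π ι τ) (hu : u * u = q) (ss : ∀ a ≤ n, Ss F (jA F q s ι τ a))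
    (h2 : p ≠ 2) (hq : q ≡ 1 [MOD p]) (hm : ∀ x ∈ Λ, ∀ y ∈ Λ, x * y ∈ Λ)
    (hz : ∀ c, Iz F p c → ∀ x ∈ Λ, c • x ∈ Λ)
    (hu1 : ∃ c : F, u⁻¹ = 1 + p * c ∧ ∀ x ∈ Λ, c • x ∈ Λ) (m1 : ∀ t ∈ T, ι t ∈ Λ)
    (m2 : ∀ i < n, τ i ∈ Λ) (m3 : ∀ g, eG F T ι g ∈ Λ) :
    ∃ Θ : N →* A, (∀ t ∈ T, Θ t = ι t) ∧ (∀ i < n, Θ (s i) - τ i ∈ Z.Lk F p 1 Λ) ∧
      ∀ (γ : A →+* A) (σ : RingAut F) (δ : MulAut N), (∀ (c : F) a, γ (c • a) = σ c • γ a) →
        σ u = u → (∀ x, δ x ∈ T ↔ x ∈ T) → (∀ t ∈ T, γ (ι t) = ι (δ t)) →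
        (∀ i < n, ∃ w ∈ T, δ (s i) = w * s i ∧ γ (τ i) = ι w * τ i) →
        ∀ x, γ (Θ x) = Θ (δ x) := by
  obtain ⟨ev, S, k⟩ := h.g_ex ss
  have h1 : (1 : A) ∈ Λ := h.i1 ▸ m1 1 (one_mem T)
  have pq : ¬ p ∣ q := fun c => hp.out.one_lt.ne' (Nat.dvd_one.1 ((hq.dvd_iff dvd_rfl).1 c))
  have hj := fun a ha => h.j_int hm (hz _ (iz_inv pq)) m1 m2 m3 (a := a) ha
  have he : ∀ a b, eA F n T π ι a b ∈ Λ := fun a b => by
    unfold eA
    split_ifs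
    · exact m3 _
    · exact zero_mem _
  obtain ⟨R, fr, mem⟩ := k.fr (p := p) (h.sp_rat k) h1 hm hz fun j => by
    rcases j with c | a
    · exact he _ _
    · rw [gA]
      split_ifs with ha
      · obtain ⟨y, hy, e⟩ := hj a ha
        rw [e]
        exact add_mem h1 (hz _ (by simpa using iz_int (F := F) (p := p) ((q : ℤ) - 1)) y hy)
      · exact zero_mem _
  have hx : ∀ a ≤ n, (fun l => (xA q a l : F)) ∈ R := fun a ha =>
    fr.log h2 h.q2 hq ((mem _).2 ⟨by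
      obtain ⟨y, hy, e⟩ := hj a ha
      have : ev (fun l => qi (q : F) (xA q a l)) = y := smul_right_injective A h.q1 (by
        change ((q : F) - 1) • _ = ((q : F) - 1) • _
        rw [← add_sub_cancel_left 1 (((q : F) - 1) • y), ← e, ← HA.co_j k ha,
          ← ev_one (ev := ev), ev_sub, ev_smul, k.ext]
        intro l hl
        rw [qi_mul, h.z_x k hl ha])
      exact this ▸ hy, fun l _ => eIn_qi h.q2 pq _⟩)
  obtain ⟨K, hK⟩ : ∃ K : ℕ, ∀ l ∈ S, ∀ a ≤ n, ∀ b ≤ n, |xA q a l - xA q b l| ≤ K := by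
    refine ⟨(S ×ˢ Finset.range (n + 1) ×ˢ Finset.range (n + 1)).sup fun z =>
      (xA q z.2.1 z.1 - xA q z.2.2 z.1).natAbs, fun l hl a ha b hb => ?_⟩
    rw [Int.abs_eq_natAbs, Int.ofNat_le]
    exact Finset.le_sup (f := fun z : (ℕ × ℕ ⊕ ℕ → F) × ℕ × ℕ =>
      (xA q z.2.1 z.1 - xA q z.2.2 z.1).natAbs) (b := (l, a, b)) (by
        simp only [Finset.mem_product, Finset.mem_range]
        exact ⟨hl, by omega, by omega⟩)
  obtain ⟨G, G1, G2, G3⟩ := gq_ex fr h2 h.q2 hq K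
  obtain ⟨Θ, t1, t2, t3⟩ := h.gn k hu G K hK G1 G2
  refine ⟨Θ, t1, fun i hi => ?_, t3⟩
  obtain ⟨g, hg, κ, hκ, e⟩ := G3 (fun l => xA q i l - xA q (i + 1) l)
    (fr.ext _ _ (sub_mem (hx i hi.le) (hx (i + 1) hi)) fun l _ => Int.cast_sub _ _)
    fun l hl => hK l hl i hi.le (i + 1) hi
  obtain ⟨c, c1, c2⟩ := hu1
  have me : ev (fE F rA i (i + 1)) ∈ Λ := h.ev_E k i (i + 1) ▸ he _ _
  refine ⟨_, add_mem (hm _ (m2 i hi) _ (add_mem (hm _ me _ ((mem g).1 hg).1)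
    (c2 _ (sub_mem h1 me)))) (hm _ me _ ((mem κ).1 hκ).1), ?_⟩
  classical
  have e1 : ev (fun l => if rA i (i + 1) l then G (xA q i l - xA q (i + 1) l) else u⁻¹) =
      1 + (p : F) • (ev (fE F rA i (i + 1)) * ev g + c • (1 - ev (fE F rA i (i + 1)))) := by
    rw [← ev_one (ev := ev), ev_sub, ev_smul, ev_mul, ev_add, ev_smul, ev_add, k.ext]
    intro l hl
    unfold fE
    split_ifs
    · rw [(e l hl).1]
      ring
    · rw [c1]
      ring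
  have e2 : ev (fA rA (xA q) (q : F) i (i + 1)) *
      ev (fun l => if rA i (i + 1) l then G (xA q i l - xA q (i + 1) l) else u⁻¹) -
      ev (fA rA (xA q) 1 i (i + 1)) = (p : F) • (ev (fE F rA i (i + 1)) * ev κ) := by
    rw [ev_mul, ev_sub, ev_mul, ev_smul, k.ext]
    intro l hl
    unfold fA fE
    split_ifs with hr
    · rw [one_mul, ← (e l hl).2 ((h.pre k hu).b0 hi hl hr),
        show ∀ c : ℤ, qi (1 : F) c = c from fun c => if_pos rfl]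
    · ring
  rw [t2 i hi, add_mul, add_sub_assoc, pow_one, smul_add]
  convert add_sub_cancel_left (τ i) _ using 2
  rw [← add_assoc]
  congr 1
  · convert congrArg (τ i * ·) e1 using 1
    rw [mul_add (τ i) 1, mul_one, mul_smul_comm]

end Pool.Agent.Lib.MP_1ae3da_al.CT.A
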