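import Pool.Agent.Lib.MP_1ae3da_al.E.Df

/-! Length in a Tits system. -/

namespace Pool.Agent.Lib.MP_1ae3da_al.JM

open SLI CT CT.Z

variable {p r k : ℕ} {X : Type} [Group X] [Finite X] [hp : Fact p.Prime] [hr : Fact r.Prime]
  {U : Sylow r X} {N : Subgroup X} {n : ℕ → X}

/-- `L` is a word for `m` modulo `T`. -/
def eLnW (k : ℕ) (T : Subgroup X) (n : ℕ → X) (m : X) (L : List ℕ) : Prop :=
  (∀ i ∈ L, i < k) ∧ (L.map n).prod⁻¹ * m ∈ T

/-- the least length of a word. -/
noncomputable def eLnL (k : ℕ) (T : Subgroup X) (n : ℕ → X) (m : X) : ℕ :=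
  sInf {c | ∃ L, eLnW k T n m L ∧ L.length = c}

omit [Finite X] hp hr in
theorem eLn_le {T : Subgroup X} {m : X} {L : List ℕ} (h : eLnW k T n m L) :
    eLnL k T n m ≤ L.length := Nat.sInf_le ⟨L, h, rfl⟩

omit [Finite X] hp hr in
theorem eLn_ex (h : BV p U N) (t : TS k U N n) {m : X} (hm : m ∈ N) :
    ∃ L, eLnW k (Tor U N) n m L ∧ L.length = eLnL k (Tor U N) n m := by
  obtain ⟨-, L, hL, e⟩ := t.ex_word h hm
  exact Nat.sInf_mem (s := {c | ∃ L, eLnW k (Tor U N) n m L ∧ L.length = c}) ⟨_, L, ⟨hL, e⟩, rfl⟩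

omit [Finite X] hp hr in
theorem eLn_inv (h : BV p U N) (t : TS k U N n) {m : X} (hm : m ∈ N) :
    eLnL k (Tor U N) n m⁻¹ ≤ eLnL k (Tor U N) n m := by
  obtain ⟨L, ⟨hL, e⟩, hl⟩ := eLn_ex h t hm
  have hR : ∀ i ∈ L.reverse, i < k := fun i hi => hL i (List.mem_reverse.1 hi)
  rw [← hl, ← List.length_reverse]
  refine eLn_le ⟨hR, ?_⟩
  have := mul_mem (h.cj' (t.word_mem _ hR) (inv_mem e)) (inv_mem (t.word_rev h L hL))
  convert this using 1
  group

omit [Finite X] hp hr in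
theorem eLn_T (h : BV p U N) (t : TS k U N n) {m s : X} (hm : m ∈ N) (hs : s ∈ Tor U N) :
    eLnL k (Tor U N) n (s * m) ≤ eLnL k (Tor U N) n m := by
  obtain ⟨L, ⟨hL, e⟩, hl⟩ := eLn_ex h t hm
  rw [← hl]
  refine eLn_le ⟨hL, ?_⟩
  have := mul_mem (h.cj' (t.word_mem L hL) hs) e
  convert this using 1
  group

omit [Finite X] hp hr in
theorem eLn_T' (h : BV p U N) (t : TS k U N n) {m s : X} (hm : m ∈ N) (hs : s ∈ Tor U N) :
    eLnL k (Tor U N) n (s * m) = eLnL k (Tor U N) n m := by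
  refine le_antisymm (eLn_T h t hm hs) ?_
  have := eLn_T h t (mul_mem hs.1 hm) (inv_mem hs)
  rwa [inv_mul_cancel_left] at this

theorem eLn_short (h : BV p U N) (t : TS k U N n) {i : ℕ} (hi : i < k) (L : List ℕ)
    (hL : ∀ j ∈ L, j < k) (hs : ¬AA (U : Subgroup X) (n i) (L.map n).prod) :
    ∃ L' : List ℕ, L'.length < L.length ∧ eLnW k (Tor U N) n (n i * (L.map n).prod) L' := by
  induction L using List.reverseRecOn with
  | nil => exact absurd (aa_T (N := N) (one_mem _)) hs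
  | append_singleton L j ih =>
    have hj : j < k := hL j (by simp)
    have hL0 : ∀ a ∈ L, a < k := fun a ha => hL a (by simp [ha])
    have ha := t.word_mem L hL0
    have e0 : ∀ M : List ℕ, ((M ++ [j]).map n).prod = (M.map n).prod * n j := fun M => by simp
    rw [e0] at hs ⊢
    by_cases h1 : AA (U : Subgroup X) (n i) (L.map n).prod
    · have e : (n i * (L.map n).prod)⁻¹ * ((L.map n).prod * n j) ∈ Tor U N := by
        by_contra hc
        exact hs (t.aa_step h hi hj ha h1 hc)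
      refine ⟨L, by simp, hL0, ?_⟩
      have := mul_mem (h.cj' ha (t.sq i hi)) e
      convert this using 1
      group
    · obtain ⟨L', a1, a2, a3⟩ := ih hL0 h1
      refine ⟨L' ++ [j], by simpa using a1, fun a ha => ?_, ?_⟩
      · rcases List.mem_append.1 ha with ha | ha
        · exact a2 a ha
        · rwa [List.mem_singleton.1 ha]
      · have := h.cj' (t.mem j hj) a3
        rw [e0]
        convert this using 1
        group

theorem eLn_lt (h : BV p U N) (t : TS k U N n) {i : ℕ} (hi : i < k) {m : X} (hm : m ∈ N)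
    (hs : ¬AA (U : Subgroup X) (n i) m) :
    eLnL k (Tor U N) n (n i * m) < eLnL k (Tor U N) n m := by
  obtain ⟨L, ⟨hL, e⟩, hl⟩ := eLn_ex h t hm
  obtain ⟨L', a1, a2, a3⟩ := eLn_short h t hi L hL fun hc => hs (by
    have := aa_mulT hc e
    rwa [mul_inv_cancel_left] at this)
  rw [← hl]
  refine lt_of_le_of_lt (eLn_le ⟨a2, ?_⟩) a1
  have := mul_mem a3 e
  convert this using 1
  group

theorem eLn_two (h : BV p U N) (t : TS k U N n) {i : ℕ} (hi : i < k) {m : X} (hm : m ∈ N)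
    (h1 : AA (U : Subgroup X) (n i) m) : ¬AA (U : Subgroup X) (n i) (n i * m) := fun h2 => by
  have hn := t.mem i hi
  have hq := t.sq i hi
  obtain ⟨u, hu, hu'⟩ := ex_out hn (t.nt i hi)
  obtain ⟨s, hs, v, hv, w, hw, e⟩ := (t.atom h hi u hu).resolve_left hu'
  have d1 : DC (U : Subgroup X) _ _ := h2 _ (T_cj hq hu)
  have d2 := d1.tl (inv_mem hq)
  have d3 : DC (U : Subgroup X) _ _ := h1 w hw
  have d4 := (d3.tl hs).left hv
  have e1 : (n i * n i)⁻¹ * (n i * (n i * n i * u * (n i * n i)⁻¹) * (n i * m)) =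
      v * (s * (n i * w * m)) := by
    calc _ = n i * u * (n i)⁻¹ * m := by group
      _ = _ := by rw [e]; group
  rw [e1] at d2
  have e2 := h.uq (mul_mem (inv_mem hq.1) (mul_mem hn (mul_mem hn hm)))
    (mul_mem hs.1 (mul_mem hn hm)) d2 d4
  refine t.nt i hi ?_
  have e3 : n i = s⁻¹ := by
    calc n i = s⁻¹ * (s * (n i * m)) * m⁻¹ := by group
      _ = _ := by rw [← e2]; group
  rw [e3]
  exact inv_mem hs

omit [Finite X] hp hr in
theorem eLn_cj (h : BV p U N) (t : TS k U N n) {w : X} (hw : w ∈ N)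
    (e : ∀ i, i < k → ∃ i', i' < k ∧ w * n i * w⁻¹ * (n i')⁻¹ ∈ Tor U N) {m : X} (hm : m ∈ N) :
    eLnL k (Tor U N) n (w * m * w⁻¹) ≤ eLnL k (Tor U N) n m := by
  have key : ∀ L : List ℕ, (∀ i ∈ L, i < k) → ∃ L' : List ℕ, L'.length = L.length ∧
      eLnW k (Tor U N) n (w * (L.map n).prod * w⁻¹) L' := by
    intro L hL
    induction L with
    | nil => exact ⟨[], rfl, by simp, by simp⟩
    | cons i L ih =>
      obtain ⟨L', a1, a2, a3⟩ := ih fun j hj => hL j (List.mem_cons_of_mem _ hj)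
      obtain ⟨i', hi', e'⟩ := e i (hL i List.mem_cons_self)
      refine ⟨i' :: L', by simp [a1], fun a ha => ?_, ?_⟩
      · rcases List.mem_cons.1 ha with rfl | ha
        · exact hi'
        · exact a2 a ha
      · have := mul_mem (h.cj' (mul_mem (t.mem i' hi') (t.word_mem L' a2)) e') a3
        simp only [List.map_cons, List.prod_cons]
        convert this using 1
        group
  obtain ⟨L, ⟨hL, e1⟩, hl⟩ := eLn_ex h t hm
  obtain ⟨L', a1, a2, a3⟩ := key L hL
  rw [← hl, ← a1]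
  refine eLn_le ⟨a2, ?_⟩
  have := mul_mem a3 ((h.T_conj hw).mpr e1)
  convert this using 1
  group

/-- there is a length function that detects `AA`. -/
theorem TS.len (h : BV p U N) (t : TS k U N n) : ∃ l : X → ℕ,
    (∀ m ∈ N, l m⁻¹ = l m) ∧ (∀ m ∈ N, ∀ s ∈ Tor U N, l (s * m) = l m) ∧
    (∀ i, i < k → ∀ m ∈ N, l (n i * m) ≠ l m ∧ (AA (U : Subgroup X) (n i) m ↔ l m < l (n i * m))) ∧
    ∀ w ∈ N, (∀ i, i < k → ∃ i', i' < k ∧ w * n i * w⁻¹ * (n i')⁻¹ ∈ Tor U N) →
      ∀ m ∈ N, l (w * m * w⁻¹) = l m := by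
  refine ⟨eLnL k (Tor U N) n, fun m hm => le_antisymm (eLn_inv h t hm) ?_,
    fun m hm s hs => eLn_T' h t hm hs, fun i hi m hm => ?_, fun w hw e m hm => ?_⟩
  · have := eLn_inv h t (inv_mem hm)
    rwa [inv_inv] at this
  · by_cases h1 : AA (U : Subgroup X) (n i) m
    · have h2 := eLn_lt h t hi (mul_mem (t.mem i hi) hm) (eLn_two h t hi hm h1)
      rw [← mul_assoc, eLn_T' h t hm (t.sq i hi)] at h2
      exact ⟨h2.ne', iff_of_true h1 h2⟩
    · have h2 := eLn_lt h t hi hm h1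
      exact ⟨h2.ne, iff_of_false h1 h2.not_gt⟩
  · refine le_antisymm (eLn_cj h t hw e hm) ?_
    have key : ∀ j : ℕ, eLnL k (Tor U N) n (w ^ (j + 1) * m * (w ^ (j + 1))⁻¹) ≤
        eLnL k (Tor U N) n (w * m * w⁻¹) := by
      intro j
      induction j with
      | zero => simp
      | succ j ih =>
        have hj := pow_mem hw (j + 1)
        have := eLn_cj h t hw e (mul_mem (mul_mem hj hm) (inv_mem hj))
        refine le_trans (le_of_eq ?_) (this.trans ih)
        congr 1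
        rw [pow_succ' w (j + 1)]
        group
    have := key (orderOf w - 1)
    rw [Nat.sub_add_cancel (orderOf_pos w), pow_orderOf_eq_one] at this
    simpa using this

end Pool.Agent.Lib.MP_1ae3da_al.JM
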