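import Pool.Agent.Lib.MP_1ae3da_al.E.Df
import Pool.Agent.Lib.MP_1ae3da_al.A.Sq

/-! The lattice with the unit. -/

namespace Pool.Agent.Lib.MP_1ae3da_al.JM

open SLI CT CT.Z CT.A

variable {p r : ℕ} {X : Type} [Group X] [Finite X] [hp : Fact p.Prime] [hr : Fact r.Prime]
  {U : Sylow r X} {N : Subgroup X} {F κ : Type} [Field F] [CharZero F] [Field κ]
  {O R : Subring F} {ρ : F → κ} {GG : Subgroup (RingAut F)}

omit hp in
theorem sq_fix' (hP : PM p O R ρ GG) (hp2 : p ≠ 2) {q : ℕ} (hq : q ≡ 1 [MOD p]) :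
    ∃ u : F, u * u = q ∧ (∀ σ ∈ GG, σ u = u) ∧ ∃ c ∈ O, u⁻¹ = 1 + p * c := by
  obtain ⟨u, hu, du⟩ := sq_fix hP hp2 (q := q) hq.symm.dvd
  have := hP.cpl
  have hd : ¬ p ∣ 2 := fun h => hp2 ((Nat.prime_dvd_prime_iff_eq hP.prime Nat.prime_two).1 h)
  have h2 : IsUnit (2 : O) := by
    refine IsUnit.of_mul_eq_one ⟨((2 : ℕ) : F)⁻¹, hP.inv 2 hd⟩ (Subtype.ext ?_)
    change (2 : F) * ((2 : ℕ) : F)⁻¹ = 1
    norm_num
  obtain ⟨m, hm⟩ := hq.symm.dvd
  obtain ⟨a, ha, hb⟩ := HenselianRing.is_henselian (I := Ideal.span {(p : O)})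
    (Polynomial.X ^ 2 - Polynomial.C (q : O)) (Polynomial.monic_X_pow_sub_C _ two_ne_zero) 1
    (by
      rw [Ideal.mem_span_singleton]
      refine ⟨-(m : O), ?_⟩
      have : ((q : ℤ) : O) - ((1 : ℕ) : ℤ) = (p : ℤ) * (m : O) := by
        exact_mod_cast congrArg (Int.cast (R := O)) hm
      simp only [Polynomial.eval_sub, Polynomial.eval_pow, Polynomial.eval_X, Polynomial.eval_C,
        one_pow]
      push_cast at this
      linear_combination -this)
    (by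
      have : (Polynomial.X ^ 2 - Polynomial.C (q : O)).derivative.eval 1 = 2 := by simp; norm_num
      rw [this]
      exact h2.map _)
  have e : (a : F) * a = q := by
    have : a ^ 2 - (q : O) = 0 := by simpa using ha
    have := congrArg (Subtype.val : O → F) this
    push_cast at this
    linear_combination this
  obtain ⟨y, hy⟩ := Ideal.mem_span_singleton.1 hb
  have hy' : (a : F) - 1 = p * y := by exact_mod_cast congrArg (Subtype.val : O → F) hy
  have pq : ¬ p ∣ q := fun k => hP.prime.one_lt.ne' (Nat.dvd_one.1 ((hq.dvd_iff dvd_rfl).1 k))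
  have q0 : (q : F) ≠ 0 := Nat.cast_ne_zero.2 fun k => pq (k ▸ dvd_zero p)
  have a0 : (a : F) ≠ 0 := fun k => q0 (by rw [← e, k, mul_zero])
  have ai : (a : F)⁻¹ = a * (q : F)⁻¹ := by
    rw [← e]
    field_simp
  refine ⟨a, e, fun σ hσ => ?_, -(y * (a * (q : F)⁻¹)),
    neg_mem (mul_mem y.2 (mul_mem a.2 (hP.inv q pq))), ?_⟩
  · have e2 : ((a : F) - u) * (a + u) = 0 := by linear_combination e - hu
    rcases mul_eq_zero.1 e2 with k | k
    · rw [sub_eq_zero.1 k, du σ hσ]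
    · rw [eq_neg_of_add_eq_zero_left k, map_neg, du σ hσ]
  · rw [← ai, mul_neg, ← mul_assoc, ← hy', sub_mul, mul_inv_cancel₀ a0]
    ring

omit hp in
theorem iz_O (hP : PM p O R ρ GG) {c : F} (hc : Iz F p c) : c ∈ O := by
  obtain ⟨a, b, hb, e⟩ := hc
  have b0 : (b : F) ≠ 0 := Nat.cast_ne_zero.2 fun k => hb (k ▸ dvd_zero p)
  rw [(eq_mul_inv_iff_mul_eq₀ b0).2 e]
  exact mul_mem (intCast_mem O a) (hP.inv b hb)

omit [Finite X] [CharZero F] in
theorem lb_smul {V D : Subgroup X} {c : F} (hc : c ∈ O) : ∀ x ∈ Lb O V D, c • x ∈ Lb O V D := by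
  exact fun _ hx => (Submodule.span O (insert 1 (LaS F V D))).smul_mem ⟨c, hc⟩ hx

omit [Finite X] [CharZero F] in
theorem eLt_sm {V D : Subgroup X} {c : F} (hc : c ∈ O) {x : MonoidAlgebra F X}
    (hx : x ∈ La O V D) : c • x ∈ La O V D :=
  (Submodule.span O (LaS F V D)).smul_mem ⟨c, hc⟩ hx

omit [Finite X] [CharZero F] in
theorem eLt_le {V D : Subgroup X} : La O V D ≤ Lb O V D := fun _ hx =>
  Submodule.span_mono (Set.subset_insert _ _) hx

omit [Finite X] [CharZero F] in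
theorem eLt_one {V D : Subgroup X} : (1 : MonoidAlgebra F X) ∈ Lb O V D :=
  Submodule.subset_span (Set.mem_insert _ _)

omit [Finite X] [CharZero F] in
theorem eLt_ex {V D : Subgroup X} {y : MonoidAlgebra F X} (hy : y ∈ Lb O V D) :
    ∃ c ∈ O, ∃ z ∈ La O V D, y = c • (1 : MonoidAlgebra F X) + z := by
  obtain ⟨c, z, hz, e⟩ := Submodule.mem_span_insert.1 hy
  exact ⟨c, c.2, z, hz, e⟩

theorem eLt_av {V D : Subgroup X} : av F V ∈ La O V D := by
  have := an_La (F := F) (O := O) (U := V) (D := D) (one_mem _)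
  rwa [an_nrm (one_mem _), gu_one, one_mul] at this

theorem eLt_bn {V D : Subgroup X} {g : X} (hg : g ∈ Subgroup.normalizer (D : Set X)) :
    g4bn F V g ∈ Lb O V D := add_mem (eLt_le (an_La hg)) (sub_mem eLt_one (eLt_le eLt_av))

theorem eLt_la {V D : Subgroup X} (hD : D ≤ Subgroup.normalizer (V : Set X))
    {z : MonoidAlgebra F X} (hz : z ∈ La O V D) : av F V * z = z ∧ z * av F V = z := by
  change z ∈ Submodule.span O (LaS F V D) at hz
  induction hz using Submodule.span_induction with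
  | mem x hx =>
    obtain ⟨E, hE, n, -, rfl⟩ := hx
    exact ⟨by rw [← mul_assoc, ← zHk_comm (hE.trans hD), mul_assoc, (av_an n).1],
      by rw [mul_assoc, (av_an n).2]⟩
  | zero => simp
  | add x y _ _ h1 h2 => rw [mul_add, add_mul, h1.1, h1.2, h2.1, h2.2]; exact ⟨rfl, rfl⟩
  | smul a x _ h1 => rw [mul_smul_comm, smul_mul_assoc, h1.1, h1.2]; exact ⟨rfl, rfl⟩

omit hr in
theorem eLt_jt {t : X} (ht : t ∈ Tor U N) : g4bn F (U : Subgroup X) t = jt F U t := by
  rw [g4bn, an_nrm ht.2, jt]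

theorem BV.bs (h : BV p U N) (hP : PM p O R ρ GG) :
    Bs F p (Lb O (U : Subgroup X) h.D) ((Tor U N).subgroupOf N)
      fun x : N => g4bn F (U : Subgroup X) x := by
  have L := hk_lat hP h.pg
  refine ⟨hp.out, lat_span hP (LaS_fin.insert 1) ?_, ⟨fun x => eLt_bn (h.N_le x.2),
    fun x y => ?_, fun d hd x => ?_⟩, ?_, Subgroup.normal_subgroupOf_of_le_normalizer h.nrm⟩
  · rintro x (rfl | hx) y hy
    · rw [one_mul]
      exact Submodule.subset_span hy
    rcases hy with rfl | hy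
    · rw [mul_one]
      exact Submodule.subset_span (Or.inr hx)
    · exact eLt_le (L.mul x (Submodule.subset_span hx) y (Submodule.subset_span hy))
  · obtain ⟨z, hz, e⟩ := hk_df hP h.pg (h.N_le x.2) (h.N_le y.2)
    refine ⟨z, eLt_le hz, ?_⟩
    rw [← e, g4bn, g4bn, g4b_mul (av_an _).2 (av_an _).1, g4bn, add_sub_add_right_eq_sub,
      Subgroup.coe_mul]
  · have hd' : (d : X) ∈ Tor U N := hd
    simp only [Subgroup.coe_mul]
    rw [eLt_jt hd', g4b_jl hd', g4b_jr hd']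
    exact ⟨rfl, rfl⟩
  · exact (eLt_jt (N := N) (one_mem _)).trans jt_one

theorem BV.lb_e (h : BV p U N) : ∀ y ∈ Lb O (U : Subgroup X) h.D,
    av F (U : Subgroup X) * y = y * av F U ∧ y * av F U ∈ La O (U : Subgroup X) h.D := by
  intro y hy
  obtain ⟨c, hc, z, hz, rfl⟩ := eLt_ex hy
  obtain ⟨k1, k2⟩ := eLt_la h.pg.nrm hz
  rw [mul_add, add_mul, k1, k2, mul_smul_comm, smul_mul_assoc, mul_one, one_mul]
  exact ⟨rfl, add_mem (eLt_sm hc eLt_av) hz⟩

theorem BV.lb_map (h : BV p U N) (hP : PM p O R ρ GG) {σ : RingAut F} (hσ : σ ∈ GG)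
    {γ : RingAut (MonoidAlgebra F X)} (hγ : SL F σ γ) {δ : MulAut X}
    (hδ : ∀ x, γ (gu F X x) = gu F X (δ x)) (hU : ∀ x, δ x ∈ U ↔ x ∈ U)
    (hN : ∀ x, δ x ∈ N ↔ x ∈ N) :
    Sy F (Lb O (U : Subgroup X) h.D) (fun x : N => g4bn F (U : Subgroup X) x) σ γ (resA N δ hN) := by
  obtain ⟨k1, k2, k3⟩ := hk_map (D := h.D) hP hσ hγ hδ (fun x => and_congr (map_T δ hU hN x)
    (exists_congr fun k => by rw [← map_pow, MulEquiv.map_eq_one_iff])) hU
  refine ⟨hγ, fun y hy => ?_, fun x => ?_⟩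
  · obtain ⟨c, hc, z, hz, rfl⟩ := eLt_ex hy
    rw [map_add, hγ, map_one]
    exact add_mem (lb_smul (((hP.gal σ hσ).1 c).2 hc) _ eLt_one) (eLt_le (k3 z hz))
  · simp only [g4bn]
    rw [map_add, map_sub, map_one, k1, k2, resA_val]

end Pool.Agent.Lib.MP_1ae3da_al.JM
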