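import Pool.Agent.Lib.MP_1ae3da_al.E.Ar

/-! The `q`-integers as `p`-integral polynomial functions. -/

namespace Pool.Agent.Lib.MP_1ae3da_al.CT.A

variable {F : Type} [Field F] [CharZero F] {p q : ℕ} [hp : Fact p.Prime]

theorem iz_coef (h2 : p ≠ 2) {t : ℕ} (ht : p ∣ t) {k : ℕ} (hk : 2 ≤ k) :
    ∃ c, Iz F p c ∧ (t : F) ^ (k - 1) / k.factorial = p * c := by
  obtain ⟨s, rfl⟩ := ht
  obtain ⟨v, m, h1, e⟩ := Nat.exists_eq_pow_mul_and_not_dvd k.factorial_ne_zero p hp.out.ne_one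
  have l1 : v ≤ padicValNat p k.factorial :=
    (padicValNat_dvd_iff_le k.factorial_ne_zero).1 ⟨m, e⟩
  have l2 := sub_one_mul_padicValNat_factorial_lt_of_ne_zero p (show k ≠ 0 by omega)
  have l3 : 2 ≤ p - 1 := by
    have := hp.out.two_le
    omega
  have l4 := Nat.mul_le_mul l3 l1
  obtain ⟨d, hd⟩ : ∃ d, k - 1 = 1 + v + d := ⟨k - 2 - v, by omega⟩
  have p0 : (p : F) ≠ 0 := Nat.cast_ne_zero.2 hp.out.ne_zero
  have m0 : (m : F) ≠ 0 := Nat.cast_ne_zero.2 fun z => h1 (z ▸ dvd_zero p)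
  refine ⟨((p ^ d * s ^ (k - 1) : ℕ) : F) * (m : F)⁻¹, (eAr_nat _).mul (iz_inv h1), ?_⟩
  rw [e]
  push_cast
  rw [mul_pow]
  conv_lhs => rw [hd, pow_add, pow_add, ← hd]
  field_simp

theorem eQb_cst {c : F} (h : Iz F p c) : (fun _ : ℤ => c) ∈ PF F p :=
  Subring.subset_closure (Or.inl ⟨c, h, rfl⟩)

theorem eQb_id : (fun c : ℤ => (c : F)) ∈ PF F p := Subring.subset_closure (Or.inr rfl)

theorem eQb_val {f : ℤ → F} (hf : f ∈ PF F p) (a : ℤ) : Iz F p (f a) := by
  induction hf using Subring.closure_induction with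
  | mem x hx =>
    rcases hx with ⟨c, hc, rfl⟩ | rfl
    · exact hc
    · exact iz_int a
  | zero => simpa using eAr_nat (F := F) (p := p) 0
  | one => simpa using eAr_nat (F := F) (p := p) 1
  | add x y _ _ h k => exact h.add k
  | neg x _ h => exact eAr_neg h
  | mul x y _ _ h k => exact h.mul k

theorem pf_div {f : ℤ → F} (hf : f ∈ PF F p) (a : ℤ) :
    ∃ g ∈ PF F p, ∀ c : ℤ, f c - f a = ((c : F) - a) * g c := by
  induction hf using Subring.closure_induction with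
  | mem x hx =>
    rcases hx with ⟨c, hc, rfl⟩ | rfl
    · exact ⟨0, zero_mem _, fun c => by simp⟩
    · exact ⟨1, one_mem _, fun c => by simp⟩
  | zero => exact ⟨0, zero_mem _, fun c => by simp⟩
  | one => exact ⟨0, zero_mem _, fun c => by simp⟩
  | add x y _ _ h k =>
    obtain ⟨g, hg, e⟩ := h
    obtain ⟨g', hg', e'⟩ := k
    exact ⟨g + g', add_mem hg hg', fun c => by
      simp only [Pi.add_apply]
      linear_combination e c + e' c⟩
  | neg x _ h =>
    obtain ⟨g, hg, e⟩ := h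
    exact ⟨-g, neg_mem hg, fun c => by
      simp only [Pi.neg_apply]
      linear_combination -e c⟩
  | mul x y hx hy h k =>
    obtain ⟨g, hg, e⟩ := h
    obtain ⟨g', hg', e'⟩ := k
    exact ⟨x * g' + g * fun _ => y a,
      add_mem (mul_mem hx hg') (mul_mem hg (eQb_cst (eQb_val hy a))), fun c => by
      simp only [Pi.add_apply, Pi.mul_apply]
      linear_combination x c * e' c + y a * e c⟩

theorem pf_shift {f : ℤ → F} (hf : f ∈ PF F p) (a : ℤ) : (fun c => f (c + a)) ∈ PF F p := by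
  induction hf using Subring.closure_induction with
  | mem x hx =>
    rcases hx with ⟨c, hc, rfl⟩ | rfl
    · exact eQb_cst hc
    · have := add_mem (eQb_id (F := F) (p := p)) (eQb_cst (iz_int a))
      simp only [Int.cast_add]
      exact this
  | zero => exact zero_mem _
  | one => exact one_mem _
  | add x y _ _ h k => exact add_mem h k
  | neg x _ h => exact neg_mem h
  | mul x y _ _ h k => exact mul_mem h k

/-- the falling factorial is a polynomial function. -/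
theorem eQb_fall (k : ℕ) :
    ∃ D ∈ PF F p, ∀ y : ℕ, D (y : ℤ) = (k.factorial : F) * (y.choose k : F) := by
  induction k with
  | zero => exact ⟨1, one_mem _, fun y => by simp⟩
  | succ k ih =>
    obtain ⟨D, hD, e⟩ := ih
    refine ⟨D * ((fun c : ℤ => (c : F)) - fun _ => (k : F)),
      mul_mem hD (sub_mem eQb_id (eQb_cst (eAr_nat k))), fun y => ?_⟩
    simp only [Pi.mul_apply, Pi.sub_apply, e, Int.cast_natCast]
    rcases Nat.lt_or_ge y k with l | l
    · rw [Nat.choose_eq_zero_of_lt l, Nat.choose_eq_zero_of_lt (Nat.lt_succ_of_lt l)]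
      simp
    · have := congrArg (Nat.cast (R := F)) (Nat.choose_succ_right_eq y k)
      rw [Nat.cast_mul, Nat.cast_mul, Nat.cast_sub l] at this
      rw [Nat.factorial_succ, Nat.cast_mul]
      linear_combination -(k.factorial : F) * this

/-- the binomial theorem. -/
theorem eQb_nat (h2 : p ≠ 2) (q2 : 2 ≤ q) (hq : q ≡ 1 [MOD p]) (n : ℕ) :
    ∃ W ∈ PF F p, ∀ y : ℕ, y ≤ n → qi (q : F) y = y + p * W y := by
  obtain ⟨t, rfl⟩ : ∃ t, q = t + 1 := ⟨q - 1, by omega⟩
  have ht : p ∣ t := by simpa using (Nat.modEq_iff_dvd' (by omega)).1 hq.symm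
  have t0 : (t : F) ≠ 0 := Nat.cast_ne_zero.2 (by omega)
  choose c c1 c2 using fun k => iz_coef (F := F) h2 ht (k := k + 2) (by omega)
  choose D d1 d2 using fun k => eQb_fall (F := F) (p := p) (k + 2)
  refine ⟨∑ k ∈ Finset.range n, (fun _ => c k) * D k,
    sum_mem fun k _ => mul_mem (eQb_cst (c1 k)) (d1 k), fun y hy => mul_left_cancel₀ t0 ?_⟩
  have e := qi_mul (Q := ((t + 1 : ℕ) : F)) (y : ℤ)
  rw [zpow_natCast, Nat.cast_add, Nat.cast_one, add_sub_cancel_right, add_pow,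
    Finset.sum_subset (Finset.range_mono (show y + 1 ≤ n + 2 by omega)) (fun k _ hk => by
      rw [Nat.choose_eq_zero_of_lt (by simpa using hk), Nat.cast_zero, mul_zero]),
    Finset.sum_range_succ', Finset.sum_range_succ'] at e
  rw [Nat.cast_add, Nat.cast_one, e, Finset.sum_apply, mul_add, Finset.mul_sum, Finset.mul_sum]
  have s : ∀ k ∈ Finset.range n, (t : F) ^ (k + 1 + 1) * 1 ^ (y - (k + 1 + 1)) *
      (y.choose (k + 1 + 1) : F) = t * (p * ((fun _ => c k) * D k : ℤ → F) y) := fun k _ => by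
    have f0 : ((k + 2).factorial : F) ≠ 0 := Nat.cast_ne_zero.2 (Nat.factorial_ne_zero _)
    have := (div_eq_iff f0).1 (c2 k)
    rw [show k + 2 - 1 = k + 1 from rfl] at this
    simp only [Pi.mul_apply, d2]
    rw [pow_succ, this]
    ring
  rw [Finset.sum_congr rfl s]
  simp
  ring

theorem qi_bin (h2 : p ≠ 2) (q2 : 2 ≤ q) (hq : q ≡ 1 [MOD p]) (K : ℕ) :
    ∃ B ∈ PF F p, ∀ c : ℤ, |c| ≤ K → qi (q : F) c = c * (1 + p * (((c : F) - 1) * B c)) := by
  obtain ⟨W, hW, e⟩ := eQb_nat (F := F) h2 q2 hq (2 * (K + 1))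
  obtain ⟨g, hg, e1⟩ := pf_div (pf_shift hW ((K + 1 : ℕ) : ℤ)) 0
  have q0 : (q : F) ≠ 0 := Nat.cast_ne_zero.2 (by omega)
  obtain ⟨a, ha⟩ : (p : ℤ) ∣ ((q ^ (K + 1) : ℕ) : ℤ) - (1 : ℕ) := by
    have := (hq.pow (K + 1)).symm.dvd
    rwa [one_pow] at this
  have e2 : (q : F) ^ ((K + 1 : ℕ) : ℤ) = 1 + p * (a : F) := by
    have := congrArg (Int.cast (R := F)) ha
    rw [zpow_natCast]
    push_cast at this ⊢
    linear_combination this
  obtain ⟨u0, u1⟩ := (iz_int (F := F) (p := p) a).unit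
  have hV : ((fun _ => (1 + p * (a : F))⁻¹) * (g - fun _ => (a : F)) : ℤ → F) ∈ PF F p :=
    mul_mem (eQb_cst u1) (sub_mem hg (eQb_cst (iz_int a)))
  have key : ∀ c : ℤ, |c| ≤ K + 1 →
      qi (q : F) c = c * (1 + p * ((1 + p * (a : F))⁻¹ * (g c - a))) := fun c hc => by
    obtain ⟨c1, c2⟩ := abs_le.1 hc
    obtain ⟨y, hy⟩ : ∃ y : ℕ, (y : ℤ) = c + (K + 1 : ℕ) :=
      ⟨(c + (K + 1 : ℕ)).toNat, Int.toNat_of_nonneg (by omega)⟩
    have k1 := e y (by omega)
    have k2 := e (K + 1) (by omega)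
    have k3 := qi_add q0 ((K + 1 : ℕ) : ℤ) c
    have k4 := e1 c
    have k5 := congrArg (Int.cast (R := F)) hy
    rw [add_comm, ← hy, k1, k2, e2] at k3
    simp only [zero_add, ← hy, Int.cast_zero, sub_zero] at k4
    rw [Int.cast_add, Int.cast_natCast, Int.cast_natCast] at k5
    refine mul_left_cancel₀ u0 ?_
    have k6 := mul_inv_cancel₀ u0
    linear_combination -k3 + k5 + p * k4 - c * p * (g c - a) * k6
  obtain ⟨B, hB, e3⟩ := pf_div hV 1
  have p0 : (p : F) ≠ 0 := Nat.cast_ne_zero.2 hp.out.ne_zero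
  have v1 : (1 + p * (a : F))⁻¹ * (g 1 - a) = 0 := by
    have := key 1 (by rw [abs_one]; omega)
    rw [qi_1, Int.cast_one, one_mul] at this
    exact mul_left_cancel₀ p0 (by linear_combination -this)
  refine ⟨B, hB, fun c hc => ?_⟩
  have := e3 c
  simp only [Pi.mul_apply, Pi.sub_apply, v1, sub_zero, Int.cast_one] at this
  rw [key c (by omega), this]

end Pool.Agent.Lib.MP_1ae3da_al.CT.A
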