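import Pool.Agent.Lib.MP_1ae3da_al.E.In
import Pool.Agent.Lib.MP_1ae3da_al.E.Gl
import Pool.Agent.Lib.MP_1ae3da_al.E.Fl
import Pool.Agent.Lib.MP_1ae3da_al.E.Tq
import Pool.Agent.Lib.MP_1ae3da_al.E.Dc
import Pool.Agent.Lib.MP_1ae3da_al.E.Lg
import Pool.Agent.Lib.MP_1ae3da_al.E.Lt2

/-! The inductive condition for Tits systems with a parabolic subgroup of type `A (p - 1)` and of
index prime to `p`. -/

namespace Pool.Agent.Lib.MP_1ae3da_al.JM

open SLI CT CT.Z CT.A Submodule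

variable {p r k j : ℕ} {X : Type} [Group X] [Finite X] [hp : Fact p.Prime] [hr : Fact r.Prime]
  {U : Sylow r X} {N M : Subgroup X} {n : ℕ → X} {w : X} {F : Type} [Field F] [CharZero F]

namespace TE
variable (h : TE p k j U N M n w)
include h

omit [Finite X] hr in
theorem j0 : 0 < j := by
  have := hp.out.two_le
  have := h.jp
  omega

omit [Finite X] hp hr in
theorem lt {i : ℕ} (hi : i < j) : i < k := hi.trans_le h.jk

theorem aa1 {i l : ℕ} (hi : i < j) (hl : l < j) (hne : i ≠ l) :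
    AA (U : Subgroup X) (n i) (n l) := by
  have := h.ts.aa_step h.v (h.lt hi) (h.lt hl) (one_mem N) (aa_T (N := N) (one_mem _))
    (by rw [mul_one, one_mul]; exact h.wa.ne1 hi hl hne)
  rwa [one_mul] at this

theorem aa2 {i : ℕ} (hi : i + 1 < j) : AA (U : Subgroup X) (n i) (n (i + 1) * n i) ∧
    AA (U : Subgroup X) (n (i + 1)) (n i * n (i + 1)) := by
  have h0 : i < j := by omega
  refine ⟨h.ts.aa_step h.v (h.lt h0) (h.lt h0) (h.ts.mem _ (h.lt hi)) (h.aa1 h0 hi (by omega))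
    (h.wa.ne2 hi), h.ts.aa_step h.v (h.lt hi) (h.lt hi) (h.ts.mem _ (h.lt h0))
    (h.aa1 hi h0 (by omega)) fun e => h.wa.ne2 hi ?_⟩
  simpa only [mul_inv_rev, inv_inv] using inv_mem e

theorem qn_s {i : ℕ} (hi : i + 1 < j) :
    Qn (U : Subgroup X) (n i) = Qn (U : Subgroup X) (n (i + 1)) :=
  have h0 : i < j := by omega
  d3_step h.v (h.ts.mem _ (h.lt h0)) (h.ts.mem _ (h.lt hi)) (h.wa.sq _ h0) (h.wa.sq _ hi)
    (h.ts.atom h.v (h.lt h0)) (h.ts.atom h.v (h.lt hi)) (h.wa.nt hi) (h.wa.br.br i hi)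
    (h.aa1 h0 hi (by omega)) (h.aa1 hi h0 (by omega)) (h.aa2 hi).1 (h.aa2 hi).2

theorem qn_eq {i : ℕ} (hi : i < j) : Qn (U : Subgroup X) (n i) = Qn (U : Subgroup X) (n 0) := by
  induction i with
  | zero => rfl
  | succ i ih => rw [← h.qn_s hi, ih (by omega)]

omit [Finite X] [CharZero F] hp hr in
theorem eg (g : M) : eG F ((Tor U N).subgroupOf M) (fun x => jt F (U : Subgroup X) x) g =
    g4e U N F g := by
  rw [eG, g4e, Nat.card_congr (Subgroup.subgroupOfEquivOfLe h.wa.le).toEquiv,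
    ← finsum_comp_equiv (Subgroup.subgroupOfEquivOfLe h.wa.le).toEquiv]
  rfl

theorem ha : ∃ π, HA F (Qn (U : Subgroup X) (n 0)) j ((Tor U N).subgroupOf M) (sN M n) π
    (fun x => jt F (U : Subgroup X) x) fun i => tau F (U : Subgroup X) (n i) := by
  have e : ∀ i < j, (sN M n i : X) = n i := fun i hi => sN_val (h.wa.mem i hi)
  have m : ∀ i < j, n i ∈ N := fun i hi => h.ts.mem i (h.lt hi)
  obtain ⟨π, p1, p2, p3⟩ := (wa_sub h.wa).perm'
  refine ⟨π, qn_gt (m 0 h.j0) (h.wa.nt h.j0), wa_sub h.wa,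
    fun x hx y hy => Subtype.ext (h.v.ab _ hx _ hy), p1, p2, p3, jt_one,
    fun t ht t' ht' => jt_mul ht ht', ⟨fun i l h1 h2 => ?_, fun i h1 => ?_⟩, fun i hi t ht => ?_,
    fun i hi => ?_, fun i hi => ?_⟩
  · exact d3_cm (h.aa1 (by omega) h2 (by omega)) (h.aa1 h2 (by omega) (by omega))
      (h.wa.br.far i l h1 h2)
  · exact d3_br (h.aa1 (by omega) h1 (by omega)) (h.aa1 h1 (by omega) (by omega)) (h.aa2 h1).1
      (h.aa2 h1).2 (h.wa.br.br i h1) (h.qn_s h1)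
  · simp only [Subgroup.coe_mul, Subgroup.coe_inv, e i hi]
    exact tau_jt h.v (m i hi) ht
  · simp only [h.eg, Subgroup.coe_mul, e i hi, ← h.qn_eq hi]
    exact d3_qT h.v (m i hi) (h.wa.sq i hi) (h.wa.nt hi) (h.ts.atom h.v (h.lt hi)) (h.one i hi)
  · obtain ⟨-, c, hc, ec⟩ := d3_s2 h.v (m i hi) (h.wa.sq i hi) (h.wa.nt hi) (h.one i hi)
    exact ⟨⟨c, h.wa.le hc⟩, hc, Subtype.ext (by
      simpa only [Subgroup.coe_mul, Subgroup.coe_inv, e i hi] using ec)⟩

omit hp hr in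
theorem adj_tau {i : ℕ} (hi : i < j) : Adj (tau F (U : Subgroup X) (n i))
    (jt F (U : Subgroup X) (n i * n i)⁻¹ * tau F (U : Subgroup X) (n i)) := by
  have := ((adj_an (F := F) (U : Subgroup X) (n i)).add
    (adj_one.sub (adj_av (U : Subgroup X)))).smul (Qn (U : Subgroup X) (n i) : ℚ)
  rw [Rat.cast_natCast] at this
  rw [g4b_tau, mul_smul_comm, g4b_jl (inv_mem (h.wa.sq i hi)),
    show (n i * n i)⁻¹ * n i = (n i)⁻¹ by group]
  exact this

omit hp hr in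
theorem adj_j {π : M →* Equiv.Perm ℕ} {q : ℕ} (H : HA F q j ((Tor U N).subgroupOf M) (sN M n) π
    (fun x => jt F (U : Subgroup X) x) fun i => tau F (U : Subgroup X) (n i)) {a : ℕ}
    (ha : a ≤ j) : Adj
      (jA F q (sN M n) (fun x => jt F (U : Subgroup X) x) (fun i => tau F U (n i)) a)
      (jA F q (sN M n) (fun x => jt F (U : Subgroup X) x) (fun i => tau F U (n i)) a) := by
  induction a with
  | zero => exact adj_one
  | succ a ih =>
    have sq := H.w.sq a ha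
    have c1 := (H.j_T (Nat.le_of_lt ha) _ (inv_mem sq)).eq
    have c2 := (H.t_i ha sq ((Commute.refl _).mul_left (Commute.refl _))).eq
    have c3 := (H.t_i ha (inv_mem sq) ((Commute.refl _).mul_left (Commute.refl _)).inv_left).eq
    have c4 := H.iv sq
    have := ((TA.adj_jt (F := F) (inv_mem (h.wa.sq a ha))).mul
      (((h.adj_tau ha).mul (ih (by omega))).mul (h.adj_tau ha))).smul (q : ℚ)⁻¹
    rw [Rat.cast_inv, Rat.cast_natCast, inv_inv] at this
    rw [jA]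
    simp only [Subgroup.coe_mul, Subgroup.coe_inv, sN_val (h.wa.mem a ha)] at c1 c2 c3 c4 ⊢
    rwa [mul_assoc _ _ (jt F _ (n a * n a)), mul_assoc _ _ (jt F _ (n a * n a)),
      mul_assoc _ _ (jt F _ (n a * n a)), c2, ← mul_assoc _ (jt F _ (n a * n a)), c4, one_mul,
      mul_assoc (jt F _ _) (tau F _ _), ← mul_assoc (tau F _ _) (jA _ _ _ _ _ _)] at this

omit hp hr in
theorem pres (δ : MulAut N) (hT : ∀ x : N, (δ x : X) ∈ Tor U N ↔ (x : X) ∈ Tor U N)
    (hs : ∀ i < j, ∀ x : N, (x : X) = n i → (δ x : X) * (n i)⁻¹ ∈ Tor U N) (x : N) :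
    δ x ∈ M.subgroupOf N ↔ x ∈ M.subgroupOf N := by
  have l : M.subgroupOf N ≤ (M.subgroupOf N).comap δ.toMonoidHom := fun y hy => by
    have : Subgroup.closure ((Tor U N : Set X) ∪ n '' Set.Iio j) ≤
        ((M.subgroupOf N).comap δ.toMonoidHom).map N.subtype := by
      rw [Subgroup.closure_le]
      rintro z (hz | ⟨i, hi, rfl⟩)
      · exact ⟨⟨z, hz.1⟩, h.wa.le ((hT _).2 hz), rfl⟩
      · refine ⟨⟨n i, h.ts.mem i (h.lt hi)⟩, ?_, rfl⟩
        have := mul_mem (h.wa.le (hs i hi ⟨n i, h.ts.mem i (h.lt hi)⟩ rfl)) (h.wa.mem i hi)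
        rwa [inv_mul_cancel_right] at this
    obtain ⟨z, hz, e⟩ := this (h.wa.gen hy)
    exact (Subtype.ext e : z = y) ▸ hz
  have := Subgroup.eq_of_le_of_card_ge l (Nat.le_of_dvd Nat.card_pos
    (Subgroup.card_comap_dvd_of_injective _ _ δ.injective))
  conv_rhs => rw [this]
  rfl

variable {κ : Type} [Field κ] {O R : Subring F} {ρ : F → κ} {GG : Subgroup (RingAut F)}

omit h hp hr in
theorem bn_T {t : X} (ht : t ∈ Tor U N) : g4bn F (U : Subgroup X) t = jt F U t := by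
  rw [g4bn, an_nrm ht.2, jt]

theorem loc (h2 : p ≠ 2) (hP : PM p O R ρ GG) : ∃ (u : F) (Θ : M.subgroupOf N →* MonoidAlgebra F X),
    (∀ σ ∈ GG, σ u = u) ∧
    (∀ d, Θ d - g4bn F (U : Subgroup X) (d : N) ∈ Z.Lk F p 1 (Lb O (U : Subgroup X) h.v.D)) ∧
    (∀ t : M.subgroupOf N, ((t : N) : X) ∈ Tor U N → Θ t = g4bn F (U : Subgroup X) (t : N)) ∧
    ∀ (γ : RingAut (MonoidAlgebra F X)) (σ : RingAut F) (δ : MulAut N), SL F σ γ → σ u = u →
      (∀ x : N, (δ x : X) ∈ Tor U N ↔ (x : X) ∈ Tor U N) →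
      (∀ x : N, (x : X) ∈ Tor U N → γ (g4bn F (U : Subgroup X) x) = g4bn F (U : Subgroup X) (δ x : N)) →
      (∀ i < j, ∀ x : N, (x : X) = n i → (δ x : X) * (n i)⁻¹ ∈ Tor U N ∧
        γ (g4bn F (U : Subgroup X) x) = g4bn F (U : Subgroup X) (δ x : N)) →
      ∀ d d' : M.subgroupOf N, (d' : N) = δ d → γ (Θ d) = Θ d' := by
  have := hP.algF
  have B := h.v.bs hP
  obtain ⟨π, H⟩ := h.ha (F := F)
  have e : ∀ i < j, (sN M n i : X) = n i := fun i hi => sN_val (h.wa.mem i hi)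
  have m : ∀ i < j, n i ∈ N := fun i hi => h.ts.mem i (h.lt hi)
  have hq : ∀ i < j, Qn (U : Subgroup X) (n i) ≡ 1 [MOD p] := fun i hi =>
    qn_mod h.v (m i hi) (h.wa.sq i hi) (h.ts.atom h.v (h.lt hi))
  obtain ⟨u, hu, du, c, hc, ec⟩ := sq_fix' hP h2 (hq 0 h.j0)
  have bm : ∀ x ∈ N, g4bn F (U : Subgroup X) x ∈ Lb O (U : Subgroup X) h.v.D := fun x hx =>
    B.ap.mem ⟨x, hx⟩
  obtain ⟨Θ, t1, t2, t3⟩ := H.int (p := p) (Λ := Lb O (U : Subgroup X) h.v.D) hu
    (fun a ha => (h.adj_j H ha).ss) h2 (hq 0 h.j0) B.lt.mul (fun c hc => lb_smul (iz_O hP hc))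
    ⟨c, ec, lb_smul hc⟩ (fun t ht => by
      have := bm t ht.1
      rwa [bn_T (t := (t : X)) ht] at this) (fun i hi => zLat_nat _ (bm _ (m i hi)))
    fun g => h.eg (F := F) g ▸ h.v.g4e_lb hP (h.le g.2)
  let E := Subgroup.subgroupOfEquivOfLe h.le
  have a1 : ∀ t : M, (t : X) ∈ Tor U N → Θ t = g4bn F (U : Subgroup X) t := fun t ht => by
    rw [t1 t ht, bn_T ht]
  have a2 : ∀ d : M, Θ d - g4bn F (U : Subgroup X) d ∈ Z.Lk F p 1 (Lb O (U : Subgroup X) h.v.D) := by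
    have mu : ∀ x y : M,
        Θ x - g4bn F (U : Subgroup X) x ∈ Z.Lk F p 1 (Lb O (U : Subgroup X) h.v.D) →
        Θ y - g4bn F (U : Subgroup X) y ∈ Z.Lk F p 1 (Lb O (U : Subgroup X) h.v.D) →
        Θ (x * y) - g4bn F (U : Subgroup X) (x * y : M) ∈
          Z.Lk F p 1 (Lb O (U : Subgroup X) h.v.D) := fun x y hx hy => by
      have k1 : Θ y ∈ Lb O (U : Subgroup X) h.v.D := by
        simpa using add_mem (Lk_le hy) (bm y (h.le y.2))
      have := add_mem (add_mem (B.lt.mul_right hx k1) (B.lt.mul_left (bm x (h.le x.2)) hy))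
        (B.ap.df ⟨x, h.le x.2⟩ ⟨y, h.le y.2⟩)
      rw [map_mul]
      convert this using 1
      simp only [sub_mul, mul_sub, Subgroup.coe_mul]
      abel
    have tt : ∀ t : M, (t : X) ∈ Tor U N →
        Θ t - g4bn F (U : Subgroup X) t ∈ Z.Lk F p 1 (Lb O (U : Subgroup X) h.v.D) := fun t ht => by
      rw [a1 t ht, sub_self]
      exact zero_mem _
    have ss : ∀ i < j, Θ (sN M n i) - g4bn F (U : Subgroup X) (sN M n i) ∈
        Z.Lk F p 1 (Lb O (U : Subgroup X) h.v.D) := fun i hi => by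
      have q1 := (qn_gt (m i hi) (h.wa.nt hi)).le
      have := add_mem (t2 i hi) (nat_Lk (F := F) (p := p) (n := 1)
        (by simpa using (Nat.modEq_iff_dvd' q1).1 (hq i hi).symm) (bm _ (m i hi)))
      rw [e i hi]
      convert this using 1
      rw [Nat.cast_sub q1, Nat.cast_one, sub_smul, one_smul, g4b_tau]
      abel
    intro d
    refine Subgroup.closure_induction'' (p := fun (d : M) _ => Θ d - g4bn F (U : Subgroup X) d ∈
      Z.Lk F p 1 (Lb O (U : Subgroup X) h.v.D)) ?_ ?_ (tt 1 (one_mem _))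
      (fun x y _ _ => mu x y) (H.w.gen (Subgroup.mem_top d))
    · rintro x (hx | ⟨i, hi, rfl⟩)
      · exact tt x hx
      · exact ss i hi
    · rintro x (hx | ⟨i, hi, rfl⟩)
      · exact tt _ (inv_mem hx)
      · have := mu _ _ (tt (sN M n i * sN M n i)⁻¹ (inv_mem (H.w.sq i hi))) (ss i hi)
        rwa [show (sN M n i * sN M n i)⁻¹ * sN M n i = (sN M n i)⁻¹ by group] at this
  refine ⟨u, Θ.comp E.toMonoidHom, du, fun d => a2 (E d), fun t ht => a1 (E t) ht,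
    fun γ σ δ hγ hσ hT k1 k2 d d' ed => ?_⟩
  have hM := h.pres δ hT fun i hi x ex => (k2 i hi x ex).1
  let ε : MulAut M := (E.symm.trans (resA (M.subgroupOf N) δ hM)).trans E
  have ev : ∀ x : M, (ε x : X) = δ ⟨x, h.le x.2⟩ := fun x => rfl
  have := t3 γ σ ε hγ hσ (fun x => hT ⟨x, h.le x.2⟩) (fun t ht => by
    have := k1 ⟨t, h.le t.2⟩ ht
    rwa [bn_T (t := (t : X)) ht, bn_T ((hT ⟨t, h.le t.2⟩).2 ht)] at this) (fun i hi => by
    obtain ⟨c1, c2⟩ := k2 i hi ⟨sN M n i, h.le (sN M n i).2⟩ (e i hi)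
    refine ⟨⟨_, h.wa.le c1⟩, c1, Subtype.ext ?_, ?_⟩
    · exact ((congrArg (_ * ·) (e i hi)).trans (inv_mul_cancel_right _ _)).symm
    · change γ _ = jt F _ (_ * _) * _
      rw [g4b_tau, hγ, map_natCast, mul_smul_comm, g4b_jl c1, inv_mul_cancel_right, ← c2, e i hi])
    (E d)
  change γ (Θ (E d)) = Θ (E d')
  rw [show E d' = ε (E d) from Subtype.ext (congrArg (Subtype.val : N → X) ed)]
  exact this

theorem cor (h2 : p ≠ 2) (hP : PM p O R ρ GG) : ∃ Θ, Cor (Ga GG h.v.D) N (av F U) Θ := by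
  have B := h.v.bs hP
  obtain ⟨u, Θ, du, t1, t2, t3⟩ := h.loc h2 hP
  have cT : ∀ y x : N, ((y * x * y⁻¹ : N) : X) ∈ Tor U N ↔ (x : X) ∈ Tor U N := fun y x =>
    h.v.T_conj y.2
  obtain ⟨Θ1, a1, a2, a3⟩ := B.glue (M := M.subgroupOf N) (fun x hx => h.wa.le hx) h.idx Θ t1 t2
    fun x => (h.ts.dc h.v h.jk h.jp h.le h.wa x x.2).imp (fun c => by
      rw [← Subgroup.relIndex_subgroupOf (L := N) (inf_le_left.trans h.le)] at c
      convert c using 3
      ext y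
      simp only [Subgroup.mem_inf, Subgroup.mem_subgroupOf, Subgroup.mem_map_equiv,
        MulAut.conj_symm_apply, Subgroup.coe_mul, Subgroup.coe_inv])
    fun ⟨d, hd, d', hd', c⟩ => ⟨⟨d, h.le hd⟩, hd, ⟨d', h.le hd'⟩, hd', fun a a' ea => by
      generalize hy : (⟨d, h.le hd⟩ * x * ⟨d', h.le hd'⟩ : N) = y at ea ⊢
      have ey : d * x * d' = y := congrArg Subtype.val hy
      rw [ey] at c
      obtain ⟨v, hv, -⟩ := B.unit y
      have g : ∀ z z', (v : MonoidAlgebra F X) * z = z' * v →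
          MulSemiringAction.toRingAut (ConjAct (MonoidAlgebra F X)ˣ) (MonoidAlgebra F X)
            (ConjAct.toConjAct v) z = z' := fun z z' e => by
        change (v : MonoidAlgebra F X) * z * ↑v⁻¹ = z'
        rw [e, Units.mul_inv_cancel_right]
      have := t3 (MulSemiringAction.toRingAut (ConjAct (MonoidAlgebra F X)ˣ) (MonoidAlgebra F X)
        (ConjAct.toConjAct v)) 1 (MulAut.conj y) (fun c z => by
          change (v : MonoidAlgebra F X) * (c • z) * ↑v⁻¹ = c • (v * z * ↑v⁻¹)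
          rw [mul_smul_comm, smul_mul_assoc]) rfl (cT y) (fun t ht => g _ _ (by
          rw [hv, MulAut.conj_apply, bn_T ht, bn_T ((cT y t).2 ht)]
          exact (g4b_sb ((cT y t).2 ht) ht (by simp)).symm)) (fun i hi z ez => ⟨by
          simpa [ez] using c i hi, g _ _ (by
          rw [hv, ez]
          simpa [ez] using h.ts.bn_sw (F := F) h.v (h.lt hi) (h.lt hi) y.2 (c i hi))⟩) a' a
        (by simp [← ea])
      rw [← hv, ← this]
      exact Units.inv_mul_cancel_right _ _⟩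
  obtain ⟨Θ2, b1, b2, b3⟩ := B.flip (fun c => h2 ((Nat.prime_dvd_prime_iff_eq hp.out
    Nat.prime_two).1 c)) Θ1 a1 a2 (fun σ => σ u = u) rfl (fun σ γ δ hσ hs hd => by
      have dT : ∀ x : N, (δ x : X) ∈ Tor U N ↔ (x : X) ∈ Tor U N := fun x => by
        have := (Tor U N).mul_mem_cancel_left (y := x) (hd x)
        simpa using this
      exact a3 σ γ δ hs hd (t3 γ σ δ hs.1 hσ dT (fun x _ => hs.2.2 x)
        fun i _ x ex => ⟨ex ▸ hd x, hs.2.2 x⟩))
    (w := ⟨w, h.wN⟩) h.ww fun x => h.ts.bn_cj h.v h.wN h.wp x x.2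
  exact h.v.cor_lb hP Θ2 b1 b2 fun σ hσ γ hγ δ hδ hU hN =>
    b3 σ γ _ (du σ hσ) (h.v.lb_map hP hσ hγ hδ hU hN)
      ((h.rigid δ hU hN).imp (fun c x => c x x.2) fun c x => c x x.2)

theorem ind (h2 : p ≠ 2) : (∃ R : Sylow p X, (R : Subgroup X) ≤ N) ∧
    ∀ R : Sylow p X, (R : Subgroup X) ≤ N → NSV.IndN p X R N := by
  refine h.v.ind (fun e => h.wa.nt h.j0 (Subgroup.mem_inf.2 ⟨h.ts.mem 0 (h.lt h.j0), ?_⟩))
    fun F κ _ _ O R ρ GG hP => ?_
  · change n 0 ∈ Subgroup.normalizer ((U : Subgroup X) : Set X)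
    rw [e]
    exact Subgroup.mem_normalizer_iff.2 fun x => by simp
  · have := hP.charF
    exact h.cor h2 hP

end TE

end Pool.Agent.Lib.MP_1ae3da_al.JM
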